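import Pool.Agent.Work.MP_b51559_nt.LF.AP.Stmts
import Pool.Agent.Work.MP_b51559_nt.LF.MAIN
import Pool.Agent.Work.MP_b51559_nt.BG.C.Util

set_option autoImplicit false

/-!
# Block LF/AP, item F1: remove the bad integers
-/

namespace MPb51559.BG.LF

open Finset Filter Topology MeasureTheory
open scoped Classical

theorem prf_AF1 (hMN : A_MN) (hE2 : A_E2) (hBD : A_BD) (hPO : A_PO) : A_F1 := by
  intro w hw k h hk hA P F hP hT hC h1 h2 A hAle
  have hA1 : (1 : ℝ) ≤ A := by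
    have h1 := (hA.pos ⟨0, hk⟩).trans_le (hAle ⟨0, hk⟩)
    exact_mod_cast h1
  have hkR : (0 : ℝ) < k := by exact_mod_cast hk
  obtain ⟨δ, c1, hδ0, hδ8, hc1, D1, hD1⟩ := hMN w hw k h hk hA P F hP hT hC h1 h2 A hAle
  obtain ⟨D2, hD2⟩ := hE2 w hw k h hk hA P.T F hP.hT1 hP.hT2 hT δ hδ0 hδ8 (c1 / (32 * k))
    (by positivity)
  obtain ⟨xP, hxP⟩ := hPO w hw k h hk hA A hAle
  set D0 : ℕ := D1 + D2 + 3 + bigN h with hD0
  have hBig : Big h D0 := big_of h D0 (by omega)
  obtain ⟨x1, hx1⟩ := hD1 D0 (by omega)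
  obtain ⟨c, hc0, hcδ, x2, hx2⟩ := hD2 D0 (by omega)
  refine ⟨D0, δ, c, c1 / 2, by omega, hBig, hδ0, hδ8, hc0, by linarith, by positivity,
    max (max x1 x2) (max xP (2 * A + 2)), fun x hx v0 hv0 l hl => ?_⟩
  have hxx1 : x1 ≤ x := ((le_max_left _ _).trans (le_max_left _ _)).trans hx
  have hxx2 : x2 ≤ x := ((le_max_right _ _).trans (le_max_left _ _)).trans hx
  have hxxP : xP ≤ x := ((le_max_left _ _).trans (le_max_right _ _)).trans hx
  have hxA : 2 * (A : ℝ) + 2 ≤ x := ((le_max_right _ _).trans (le_max_right _ _)).trans hx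
  have hx0 : 0 < x := by linarith
  have hxone : 1 < x := by linarith
  have hlogx : 0 < Real.log x := Real.log_pos hxone
  set L : ℝ := Real.log (2 * A * x) with hL
  have hLpos : 0 < L := Real.log_pos (by nlinarith)
  have hL2 : L ≤ 2 * Real.log x := by
    rw [hL, Real.log_mul (by positivity) hx0.ne']
    have : Real.log (2 * A) ≤ Real.log x := Real.log_le_log (by positivity) (by linarith)
    linarith
  have hlogR : Real.log (Rx δ x) = (1 / 4 - δ) * Real.log x := U.log_Rx δ x hx0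
  have hR8 : Real.log x / 8 ≤ Real.log (Rx δ x) := by
    rw [hlogR]
    nlinarith
  have hR0 : 0 < Real.log (Rx δ x) := by linarith
  have hLR : L ≤ 16 * Real.log (Rx δ x) := by linarith
  have hm := hx1 x hxx1 v0 hv0 l hl
  have he := hx2 x hxx2 v0 hv0 l hl
  have hb := hBD w hw k h hA D0 hBig v0 x c l
  obtain ⟨hp, -⟩ := hxP x hxxP
  set Rng : Finset ℕ := (range (⌊2 * x⌋₊ + 1)).filter (fun n => n ≡ v0 [MOD primorial D0]) with hRng
  set f : ℕ → ℝ := fun n => ((∑ m, tm w h x m n) - L * wp w h x n) * (Vn h l n * Vn h l n) with hf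
  set T : ℝ := ∑ p ∈ univ.filter (fun p : {p // p ∈ Sx D0 x} => (p : ℝ) ≤ x ^ c), ∑ j,
    S1 w h D0 v0 x (lp p j l) (lp p j l) with hTdef
  -- the weights are nonnegative
  have hwp0 : ∀ n, 0 ≤ wp w h x n := by
    intro n
    have h3 := hp ⟨0, hk⟩ n
    have h4 : 0 ≤ L * wp w h x n := h3.1.trans h3.2
    exact nonneg_of_mul_nonneg_right h4 hLpos
  -- the total sum
  have htot : c1 * Nn w k D0 δ x ≤ ∑ n ∈ Rng, f n := by
    have hS2 : ∑ m, S2 w h D0 v0 x m l l =
        ∑ n ∈ Rng, (∑ m, tm w h x m n) * (Vn h l n * Vn h l n) := by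
      simp only [S2, sum_mul]
      rw [sum_comm]
    have hS1 : L * S1 w h D0 v0 x l l =
        ∑ n ∈ Rng, L * wp w h x n * (Vn h l n * Vn h l n) := by
      rw [S1, mul_sum]
      refine sum_congr rfl fun n _ => ?_
      ring
    have e : ∑ n ∈ Rng, f n = (∑ m, S2 w h D0 v0 x m l l) - L * S1 w h D0 v0 x l l := by
      rw [hS2, hS1, ← sum_sub_distrib]
      refine sum_congr rfl fun n _ => ?_
      rw [hf]
      ring
    rw [e]
    linarith
  -- the bad sum
  set BS : ℝ := ∑ n ∈ Rng.filter (Bad h D0 x c), wp w h x n * (Vn h l n * Vn h l n) with hBS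
  have hBS0 : 0 ≤ BS := sum_nonneg fun n _ => mul_nonneg (hwp0 n) (mul_self_nonneg _)
  have hbad1 : ∑ n ∈ Rng.filter (Bad h D0 x c), f n ≤ k * L * BS := by
    rw [hBS, mul_sum]
    refine sum_le_sum fun n _ => ?_
    have hV : 0 ≤ Vn h l n * Vn h l n := mul_self_nonneg _
    have hs : ∑ m, tm w h x m n ≤ k * (L * wp w h x n) := by
      calc ∑ m, tm w h x m n ≤ ∑ _m : Fin k, L * wp w h x n := sum_le_sum fun m _ => (hp m n).2
        _ = k * (L * wp w h x n) := by
            rw [sum_const, card_univ, Fintype.card_fin, nsmul_eq_mul]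
    have hLw : 0 ≤ L * wp w h x n := mul_nonneg hLpos.le (hwp0 n)
    calc f n = ((∑ m, tm w h x m n) - L * wp w h x n) * (Vn h l n * Vn h l n) := rfl
      _ ≤ (k * (L * wp w h x n)) * (Vn h l n * Vn h l n) :=
          mul_le_mul_of_nonneg_right (by linarith) hV
      _ = k * L * (wp w h x n * (Vn h l n * Vn h l n)) := by ring
  have hbad2 : k * L * BS ≤ c1 / 2 * Nn w k D0 δ x := by
    have h3 : L * BS ≤ 16 * Real.log (Rx δ x) * BS := mul_le_mul_of_nonneg_right hLR hBS0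
    have h4 : BS * Real.log (Rx δ x) ≤ c1 / (32 * k) * Nn w k D0 δ x :=
      (mul_le_mul_of_nonneg_right hb hR0.le).trans he
    have h5 : L * BS ≤ 16 * (c1 / (32 * k) * Nn w k D0 δ x) := by
      calc L * BS ≤ 16 * Real.log (Rx δ x) * BS := h3
        _ = 16 * (BS * Real.log (Rx δ x)) := by ring
        _ ≤ 16 * (c1 / (32 * k) * Nn w k D0 δ x) := by linarith
    calc k * L * BS = k * (L * BS) := by ring
      _ ≤ k * (16 * (c1 / (32 * k) * Nn w k D0 δ x)) := mul_le_mul_of_nonneg_left h5 hkR.le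
      _ = c1 / 2 * Nn w k D0 δ x := by
          field_simp
          ring
  have hsplit : ∑ n ∈ Rng.filter (Bad h D0 x c), f n +
      ∑ n ∈ Rng.filter (fun n => ¬ Bad h D0 x c n), f n = ∑ n ∈ Rng, f n :=
    sum_filter_add_sum_filter_not Rng (Bad h D0 x c) f
  change c1 / 2 * Nn w k D0 δ x ≤ ∑ n ∈ Rng.filter (fun n => ¬ Bad h D0 x c n), f n
  linarith

end MPb51559.BG.LF
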