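import Pool.Agent.Work.MP_b51559_nt.LF.AP.Stmts
import Pool.Agent.Work.MP_b51559_nt.LF.UPB
import Pool.Agent.Work.MP_b51559_nt.LF.S1A

set_option autoImplicit false

/-!
# Block LF/AP, item F2: counting the integers with two prime values and almost prime companions
-/

namespace MPb51559.BG.LF

open Finset Filter Topology MeasureTheory
open scoped Classical

namespace I_F2

theorem w_bdd {w : ℝ → ℝ} (hw : Wt w) : ∃ B : ℝ, 0 < B ∧ ∀ u, w u ≤ B := by
  have hc : Continuous w := (hw.smooth 0).continuous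
  have hs : HasCompactSupport w := by
    refine HasCompactSupport.intro (K := Set.Icc (9 / 8 : ℝ) (15 / 8)) isCompact_Icc ?_
    intro u hu
    by_contra h
    exact hu ⟨(hw.supp u h).1.le, (hw.supp u h).2.le⟩
  obtain ⟨C, hC⟩ := hs.exists_bound_of_continuous hc
  refine ⟨|C| + 1, by positivity, fun u => ?_⟩
  have := hC u
  rw [Real.norm_eq_abs] at this
  linarith [le_abs_self (w u), le_abs_self C]

theorem wp_le {w : ℝ → ℝ} {B : ℝ} (hB : ∀ u, w u ≤ B) {k : ℕ} (hk : 0 < k) (h : Fin k → ℕ × ℕ)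
    (x : ℝ) (n : ℕ) : wp w h x n ≤ B := by
  have : Nonempty (Fin k) := ⟨⟨0, hk⟩⟩
  exact ciSup_le fun m => hB _

theorem rpow_add_one_le (c : ℝ) (hc0 : 0 < c) (hc1 : c < 1) :
    ∃ x0 : ℝ, ∀ x ≥ x0, x ^ c + 1 ≤ x := by
  have h1 : Tendsto (fun x : ℝ => x ^ (1 - c)) atTop atTop := tendsto_rpow_atTop (by linarith)
  have h2 : ∀ᶠ x : ℝ in atTop, x ^ c + 1 ≤ x := by
    filter_upwards [h1.eventually_ge_atTop 2, eventually_ge_atTop (1 : ℝ)] with x hx hx1
    have e1 : x = x ^ c * x ^ (1 - c) := by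
      rw [← Real.rpow_add (by linarith)]
      simp
    have e2 : 1 ≤ x ^ c := Real.one_le_rpow hx1 hc0.le
    nlinarith
  exact eventually_atTop.1 h2

theorem dvd_primorial {p n : ℕ} (hp : p.Prime) (hpn : p ≤ n) : p ∣ primorial n := by
  unfold primorial
  exact Finset.dvd_prod_of_mem _ (Finset.mem_filter.2 ⟨Finset.mem_range.2 (Nat.lt_succ_of_le hpn), hp⟩)

/-- small prime factors are excluded -/
theorem large_of_not_bad {k : ℕ} {h : Fin k → ℕ × ℕ} {D0 v0 n : ℕ} {x c : ℝ}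
    (hv : ∀ i, (lf (h i) v0).Coprime (primorial D0)) (hn : n ≡ v0 [MOD primorial D0])
    (hb : ¬ Bad h D0 x c n) (hx : x ^ c + 1 ≤ x) (i : Fin k) (p : ℕ) (hp : p.Prime)
    (hd : p ∣ lf (h i) n) : x ^ c < p := by
  by_contra hlt
  have hle : (p : ℝ) ≤ x ^ c := not_lt.1 hlt
  by_cases hpD : p ≤ D0
  · have h1 : (lf (h i) n).Coprime (primorial D0) := by
      have h2 := (lf_modEq (h i) hn).gcd_eq
      have h3 := hv i
      unfold Nat.Coprime at h3 ⊢
      rw [h2, h3]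
    exact Nat.Prime.not_coprime_iff_dvd.2 ⟨p, hp, hd, dvd_primorial hp hpD⟩ h1
  · apply hb
    refine ⟨p, ?_, hle, i, hd⟩
    unfold Sx
    rw [mem_filter, mem_range]
    refine ⟨?_, hp, not_le.1 hpD⟩
    have : p + 1 ≤ ⌊x⌋₊ := Nat.le_floor (by push_cast; linarith)
    omega

end I_F2

theorem prf_AF2 (hV0 : L_V0) (hBAS : C_BAS) (hF1 : A_F1) (hPO : A_PO) (hLM : A_LM) (hVB : A_VB) :
    A_F2 := by
  intro w hw k h hk hA P F hP hF hC h1 h2
  have hAA : ∀ i, (h i).1 ≤ ∑ i, (h i).1 := fun i =>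
    Finset.single_le_sum (f := fun i => (h i).1) (fun _ _ => Nat.zero_le _) (mem_univ i)
  obtain ⟨A, hAdef⟩ : ∃ A : ℕ, A = ∑ i, (h i).1 := ⟨_, rfl⟩
  rw [← hAdef] at hAA
  have hA1 : 1 ≤ A := (hA.pos ⟨0, hk⟩).trans_le (hAA ⟨0, hk⟩)
  have hA1' : (1 : ℝ) ≤ A := by exact_mod_cast hA1
  obtain ⟨D0, δ, c, c1, hD3, hBig, hδ0, hδ8, hc0, hc1, hc1p, x1, hx1⟩ :=
    hF1 w hw k h hk hA P F hP hF hC h1 h2 A hAA
  obtain ⟨v0, hv⟩ := hV0 k h hA D0
  obtain ⟨x2, hx2⟩ := hPO w hw k h hk hA A hAA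
  obtain ⟨x3, hx3⟩ := hLM k D0 (by omega)
  obtain ⟨K, x4, hK, hx4⟩ := hVB k h hA c hc0
  obtain ⟨x5, hx5⟩ := I_F2.rpow_add_one_le c hc0 hc1
  obtain ⟨M0, hM0⟩ := hF.bdd
  obtain ⟨M, hMp, hM⟩ : ∃ M : ℝ, 0 < M ∧ ∀ t, |F t| ≤ M :=
    ⟨|M0| + 1, by positivity, fun t => by linarith [hM0 t, le_abs_self M0]⟩
  obtain ⟨B, hBp, hB⟩ := I_F2.w_bdd hw
  have hI : 0 < ∫ u, w u := hw.pos
  have hW : (0 : ℝ) < (primorial D0 : ℝ) := by exact_mod_cast primorial_pos D0
  have hkap := U.kap_pos D0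
  have hδ' : 0 < 1 / 4 - δ := by linarith
  have hkR : (0 : ℝ) < k := by exact_mod_cast hk
  obtain ⟨a, ha, hapos⟩ : ∃ a : ℝ, a = c1 * ((∫ u, w u) / (primorial D0 : ℝ)) *
      (kap D0 * (1 / 4 - δ)) ^ k * (1 / 4 - δ) ∧ 0 < a := ⟨_, rfl, by positivity⟩
  obtain ⟨b, hb, hbpos⟩ : ∃ b : ℝ, b = k * 2 * B * (K * (M * kap D0 ^ k)) ^ 2 ∧ 0 < b :=
    ⟨_, rfl, by positivity⟩
  refine ⟨min c (a / b), lt_min hc0 (by positivity),
    max (max (max x1 x2) (max x3 x4)) (max x5 (max (2 * A) 2)), fun x hx => ?_⟩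
  simp only [ge_iff_le, max_le_iff] at hx
  obtain ⟨⟨⟨hxa, hxb⟩, hxc, hxd⟩, hxe, hxf, hxg⟩ := hx
  have hx0 : 0 < x := by linarith
  have hxx : 1 < x := by linarith
  have hlogx : 0 < Real.log x := Real.log_pos hxx
  have hRx := U.Rx_gt_one δ x hδ8 hxx
  have hSp1 : ∀ p ∈ Sx D0 x, p.Prime := fun p hp => (U.Sx_prime hp).1
  have hL0 : 0 ≤ Real.log (2 * A * x) := Real.log_nonneg (by nlinarith)
  have hL2 : Real.log (2 * A * x) ≤ 2 * Real.log x := by
    have e1 : 2 * Real.log x = Real.log (x * x) := by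
      rw [Real.log_mul hx0.ne' hx0.ne']
      ring
    rw [e1]
    exact Real.log_le_log (by positivity) (mul_le_mul_of_nonneg_right hxf hx0.le)
  -- the sieve weights
  obtain ⟨l, hl⟩ : ∃ l : Co (Sx D0 x) k → ℝ, l = lam aP (yF (Rx δ x) F) := ⟨_, rfl⟩
  have hsum := hx1 x hxa v0 hv l hl
  have hkl : 0 ≤ kl D0 x := by
    unfold kl
    positivity
  have hld : ∀ d, |l d| ≤ (M * kl D0 x ^ k) * mw (fun _ => (2 : ℝ)) d := by
    intro d
    rw [hl]
    refine hx3 x hxc (yF (Rx δ x) F) M hMp.le (fun r => hM _) (fun r hr => ?_) d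
    exact (S1A_nrm hBAS hF hSp1 (Rx δ x) hRx r hr).trans
      (U.Rx_rpow_le δ x P.T hδ0.le hxx.le (by linarith [hP.hT1]) (by linarith [hP.hT2]))
  have hVn : ∀ n : ℕ, 0 < n → (n : ℝ) ≤ 2 * x → ¬ Bad h D0 x c n →
      |Vn h l n| ≤ K * (M * kl D0 x ^ k) := fun n hn0 hn hbad =>
    hx4 x hxd D0 hBig l (M * kl D0 x ^ k) (by positivity) hld n hn0 hn hbad
  -- the counted set
  set G : Finset ℕ := (range (⌊2 * x⌋₊ + 1)).filter (fun n : ℕ => x < n ∧ (n : ℝ) < 2 * x ∧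
    (∀ i, ∀ p : ℕ, p.Prime → p ∣ lf (h i) n → x ^ c < p) ∧
    ∃ i j : Fin k, i ≠ j ∧ (lf (h i) n).Prime ∧ (lf (h j) n).Prime) with hG
  set E : ℝ := k * Real.log (2 * A * x) * B * (K * (M * kl D0 x ^ k)) ^ 2 with hE
  have hE0 : 0 ≤ E := by positivity
  have hterm : ∀ n ∈ ((range (⌊2 * x⌋₊ + 1)).filter (fun n => n ≡ v0 [MOD primorial D0])).filter
      (fun n => ¬ Bad h D0 x c n),
      ((∑ m, tm w h x m n) - Real.log (2 * A * x) * wp w h x n) * (Vn h l n * Vn h l n) ≤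
        if n ∈ G then E else 0 := by
    intro n hn
    rw [mem_filter, mem_filter] at hn
    obtain ⟨⟨hnr, hnv⟩, hnb⟩ := hn
    have hV : 0 ≤ Vn h l n * Vn h l n := mul_self_nonneg _
    by_cases hlt : Real.log (2 * A * x) * wp w h x n < ∑ m, tm w h x m n
    · obtain ⟨h3, h4, h5⟩ := (hx2 x hxb).2 n hlt
      have hmem : n ∈ G := by
        rw [hG, mem_filter]
        exact ⟨hnr, h3, h4, fun i p hp hd =>
          I_F2.large_of_not_bad hv hnv hnb (hx5 x hxe) i p hp hd, h5⟩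
      rw [if_pos hmem]
      have hn0 : 0 < n := by
        have : (0 : ℝ) < n := by linarith
        exact_mod_cast this
      have hVb := hVn n hn0 h4.le hnb
      have hwp0 : 0 ≤ wp w h x n := (hw.nonneg _).trans (UPB_wp_ge w h x n ⟨0, hk⟩)
      have hwpB : wp w h x n ≤ B := I_F2.wp_le hB hk h x n
      have e1 : ∑ m, tm w h x m n ≤ k * (Real.log (2 * A * x) * B) := by
        calc ∑ m, tm w h x m n ≤ ∑ _m : Fin k, Real.log (2 * A * x) * B := by
              refine Finset.sum_le_sum fun m _ => ?_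
              exact ((hx2 x hxb).1 m n).2.trans (mul_le_mul_of_nonneg_left hwpB hL0)
          _ = k * (Real.log (2 * A * x) * B) := by simp
      have e2 : (∑ m, tm w h x m n) - Real.log (2 * A * x) * wp w h x n ≤
          k * Real.log (2 * A * x) * B := by
        have := mul_nonneg hL0 hwp0
        linarith
      have e3 : Vn h l n * Vn h l n ≤ (K * (M * kl D0 x ^ k)) ^ 2 := by
        rw [← sq, ← sq_abs]
        exact pow_le_pow_left₀ (abs_nonneg _) hVb 2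
      exact mul_le_mul e2 e3 hV (by positivity)
    · have h3 : ((∑ m, tm w h x m n) - Real.log (2 * A * x) * wp w h x n) *
          (Vn h l n * Vn h l n) ≤ 0 :=
        mul_nonpos_of_nonpos_of_nonneg (by linarith [not_lt.1 hlt]) hV
      refine h3.trans ?_
      split_ifs
      · exact hE0
      · exact le_rfl
  have hcount : c1 * Nn w k D0 δ x ≤ (G.card : ℝ) * E := by
    refine hsum.trans ((Finset.sum_le_sum hterm).trans ?_)
    rw [← Finset.sum_filter, Finset.sum_const, nsmul_eq_mul]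
    refine mul_le_mul_of_nonneg_right ?_ hE0
    exact_mod_cast Finset.card_le_card fun n hn => (mem_filter.1 hn).2
  -- evaluation
  have hN : c1 * Nn w k D0 δ x = a * x * Real.log x ^ (k + 1) := by
    unfold Nn
    rw [U.lk_eq D0 δ x hx0, U.log_Rx δ x hx0, ha]
    rw [show kap D0 * ((1 / 4 - δ) * Real.log x) = (kap D0 * (1 / 4 - δ)) * Real.log x by ring,
      mul_pow _ (Real.log x) k, pow_succ]
    ring
  have hEb : E ≤ b * Real.log x ^ (2 * k + 1) := by
    rw [hE, hb]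
    have e1 : (K * (M * kl D0 x ^ k)) ^ 2 = (K * (M * kap D0 ^ k)) ^ 2 * Real.log x ^ (2 * k) := by
      unfold kl
      rw [mul_pow (kap D0), pow_mul']
      ring
    rw [e1]
    calc k * Real.log (2 * A * x) * B * ((K * (M * kap D0 ^ k)) ^ 2 * Real.log x ^ (2 * k))
        = (k * B * ((K * (M * kap D0 ^ k)) ^ 2 * Real.log x ^ (2 * k))) *
            Real.log (2 * A * x) := by ring
      _ ≤ (k * B * ((K * (M * kap D0 ^ k)) ^ 2 * Real.log x ^ (2 * k))) * (2 * Real.log x) :=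
          mul_le_mul_of_nonneg_left hL2 (by positivity)
      _ = k * 2 * B * (K * (M * kap D0 ^ k)) ^ 2 * Real.log x ^ (2 * k + 1) := by
          rw [pow_succ]
          ring
  have hfin : a / b * x / Real.log x ^ k ≤ (G.card : ℝ) := by
    have hlk : 0 < Real.log x ^ k := pow_pos hlogx k
    rw [div_le_iff₀ hlk, div_mul_eq_mul_div, div_le_iff₀ hbpos]
    have e1 : a * x * Real.log x ^ (k + 1) ≤
        (G.card : ℝ) * (b * Real.log x ^ (2 * k + 1)) := by
      rw [← hN]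
      exact hcount.trans (mul_le_mul_of_nonneg_left hEb (Nat.cast_nonneg _))
    have hlk1 : 0 < Real.log x ^ (k + 1) := pow_pos hlogx _
    refine le_of_mul_le_mul_right ?_ hlk1
    calc a * x * Real.log x ^ (k + 1) ≤ (G.card : ℝ) * (b * Real.log x ^ (2 * k + 1)) := e1
      _ = (G.card : ℝ) * Real.log x ^ k * b * Real.log x ^ (k + 1) := by
          rw [show 2 * k + 1 = k + (k + 1) by ring, pow_add (Real.log x) k (k + 1)]
          ring
  have hle : min c (a / b) * x / Real.log x ^ k ≤ a / b * x / Real.log x ^ k := by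
    have hlk : 0 < Real.log x ^ k := pow_pos hlogx k
    exact div_le_div_of_nonneg_right (mul_le_mul_of_nonneg_right (min_le_right _ _) hx0.le) hlk.le
  refine hle.trans (hfin.trans ?_)
  have hsub : G ⊆ (range (⌊2 * x⌋₊ + 1)).filter (fun n : ℕ => x < n ∧ (n : ℝ) < 2 * x ∧
      (∀ i, ∀ p : ℕ, p.Prime → p ∣ lf (h i) n → x ^ (min c (a / b)) < p) ∧
      ∃ i j : Fin k, i ≠ j ∧ (lf (h i) n).Prime ∧ (lf (h j) n).Prime) := by
    intro n hn
    rw [hG, mem_filter] at hn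
    rw [mem_filter]
    refine ⟨hn.1, hn.2.1, hn.2.2.1, fun i p hp hd => ?_, hn.2.2.2.2⟩
    exact lt_of_le_of_lt (Real.rpow_le_rpow_of_exponent_le hxx.le (min_le_left _ _))
      (hn.2.2.2.1 i p hp hd)
  exact_mod_cast Finset.card_le_card hsub

end MPb51559.BG.LF
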