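import Pool.Agent.Work.MP_b51559_nt.LF.AP.Stmts
import Pool.Agent.Work.MP_b51559_nt.LF.INT

set_option autoImplicit false

/-!
# Block LF/AP, item IN: from natural to integral constant terms
-/

namespace MPb51559.BG.LF

open Finset Filter Topology MeasureTheory
open scoped Classical

namespace I_IN

/-- the main terms -/
theorem main_le (k : ℕ) (c : ℝ) (hc : 0 < c) (x y : ℝ) (hy : 1 < y) (hyx : y ≤ x)
    (hxy : x / 2 ≤ y) : c / 2 * x / Real.log x ^ k ≤ c * y / Real.log y ^ k := by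
  have h1 : 0 < Real.log y := Real.log_pos hy
  have h2 : Real.log y ≤ Real.log x := Real.log_le_log (by linarith) hyx
  have h3 : Real.log y ^ k ≤ Real.log x ^ k := pow_le_pow_left₀ h1.le h2 k
  have h4 : 0 < Real.log y ^ k := pow_pos h1 k
  refine div_le_div₀ (by positivity) ?_ h4 h3
  nlinarith

/-- the powers -/
theorem pow_le (c x y : ℝ) (hc : 0 < c) (hx : 4 ≤ x) (hxy : x / 2 ≤ y) :
    x ^ (c / 2) ≤ y ^ c := by
  have hx0 : 0 ≤ x := by linarith
  have h1 : Real.sqrt x ≤ y := by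
    have h2 : Real.sqrt x ≤ x / 2 := by
      rw [Real.sqrt_le_left (by linarith)]
      nlinarith
    linarith
  calc x ^ (c / 2) = (Real.sqrt x) ^ c := by
        rw [Real.sqrt_eq_rpow, ← Real.rpow_mul hx0]
        congr 1
        ring
    _ ≤ y ^ c := Real.rpow_le_rpow (Real.sqrt_nonneg _) h1 hc.le

end I_IN

theorem prf_AIN : A_IN := by
  intro k hk hT a b hpos hinj hadm
  obtain ⟨M, hM⟩ : ∃ M : ℕ, M = ∑ i, (b i).natAbs := ⟨_, rfl⟩
  have hMb : ∀ i, |b i| ≤ (M : ℤ) := by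
    intro i
    rw [Int.abs_eq_natAbs, hM]
    exact_mod_cast Finset.single_le_sum (f := fun i => (b i).natAbs) (fun _ _ => Nat.zero_le _)
      (mem_univ i)
  have hnn : ∀ i, 0 ≤ b i + a i * M := by
    intro i
    have h1 := neg_le_of_abs_le (hMb i)
    have h2 : (1 : ℤ) ≤ a i := by exact_mod_cast hpos i
    have h3 : (M : ℤ) ≤ a i * M := by nlinarith [Int.natCast_nonneg M]
    linarith
  obtain ⟨h, hh⟩ : ∃ h : Fin k → ℕ × ℕ, h = fun i => (a i, (b i + a i * M).toNat) := ⟨_, rfl⟩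
  have hh1 : ∀ i, (h i).1 = a i := fun i => by rw [hh]
  have hh2 : ∀ i, ((h i).2 : ℤ) = b i + a i * M := fun i => by
    rw [hh]
    exact Int.toNat_of_nonneg (hnn i)
  have hlf : ∀ i (n : ℕ), ((lf (h i) n : ℕ) : ℤ) = a i * (n + M : ℕ) + b i := by
    intro i n
    unfold lf
    push_cast
    rw [hh2 i, hh1 i]
    ring
  have hA : AdmL h := by
    refine ⟨fun i => by rw [hh1 i]; exact hpos i, fun i j hij he => ?_, fun p hp => ?_⟩
    · have h1 : ((h i).1 : ℤ) * (h j).2 = (h j).1 * (h i).2 := by exact_mod_cast he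
      rw [hh1, hh1, hh2, hh2] at h1
      apply INT_indep hinj hpos hadm i j hij
      linarith
    · obtain ⟨v, hv⟩ := hadm p hp
      have hp0 : (p : ℤ) ≠ 0 := by exact_mod_cast hp.ne_zero
      refine ⟨((v - M) % p).toNat, fun i hd => hv i ?_⟩
      have h1 : ((((v - M) % p).toNat : ℕ) : ℤ) = (v - M) % p :=
        Int.toNat_of_nonneg (Int.emod_nonneg _ hp0)
      have h2 : (p : ℤ) ∣ ((lf (h i) ((v - M) % p).toNat : ℕ) : ℤ) := by exact_mod_cast hd
      rw [hlf i, Nat.cast_add, h1] at h2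
      have h3 : (p : ℤ) ∣ (v - M) - (v - M) % p := ⟨(v - M) / p, by
        linarith [Int.mul_ediv_add_emod (v - M) p]⟩
      have h4 : (a i : ℤ) * v + b i = (a i * ((v - M) % p + M) + b i) +
          a i * ((v - M) - (v - M) % p) := by ring
      rw [h4]
      exact dvd_add h2 (h3.mul_left _)
  obtain ⟨c, hc, x0, hx0⟩ := hT h hA
  refine ⟨c / 2, by positivity, ⌈x0⌉₊ + 3 * M + 4, fun x hx => ?_⟩
  have hxx : x0 ≤ ((x - M : ℕ) : ℝ) := by
    have h1 : ⌈x0⌉₊ ≤ x - M := by omega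
    exact (Nat.le_ceil x0).trans (by exact_mod_cast h1)
  have hmain := hx0 _ hxx
  have r1 : (1 : ℝ) < ((x - M : ℕ) : ℝ) := by exact_mod_cast (by omega : 1 < x - M)
  have r2 : ((x - M : ℕ) : ℝ) ≤ (x : ℝ) := by exact_mod_cast (by omega : x - M ≤ x)
  have r3 : (x : ℝ) / 2 ≤ ((x - M : ℕ) : ℝ) := by
    have : (x : ℝ) ≤ 2 * ((x - M : ℕ) : ℝ) := by exact_mod_cast (by omega : x ≤ 2 * (x - M))
    linarith
  have r4 : (4 : ℝ) ≤ x := by exact_mod_cast (by omega : 4 ≤ x)
  refine (I_IN.main_le k c hc x _ r1 r2 r3).trans (hmain.trans ?_)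
  have hpw := I_IN.pow_le c x _ hc r4 r3
  refine Nat.cast_le.2 (Finset.card_le_card_of_injOn (fun n => n + M) ?_ ?_)
  · intro n hn
    obtain ⟨-, h1, h2, h3, i, j, hij, hi, hj⟩ := Finset.mem_filter.1 (Finset.mem_coe.1 hn)
    have h1' : x - M < n := by exact_mod_cast h1
    have h2' : n < 2 * (x - M) := by exact_mod_cast h2
    refine Finset.mem_coe.2 (Finset.mem_filter.2 ⟨Finset.mem_Ioc.2 ⟨?_, ?_⟩, ?_, ?_⟩)
    · show x < n + M
      omega
    · show n + M ≤ 2 * x
      omega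
    · intro i' p hp hd
      refine hpw.trans_lt (h3 i' p hp ?_)
      rw [← hlf i' n] at hd
      exact_mod_cast hd
    · refine ⟨i, j, hij, lf (h i) n, lf (h j) n, hi, hj, ?_, (hlf i n).symm, (hlf j n).symm⟩
      intro he
      have he' : ((lf (h i) n : ℕ) : ℤ) = ((lf (h j) n : ℕ) : ℤ) := by rw [he]
      rw [hlf i, hlf j] at he'
      have e1 := abs_le.1 (hMb i)
      have e2 := abs_le.1 (hMb j)
      have e3 : (2 * M : ℤ) < ((n + M : ℕ) : ℤ) := by
        have : 2 * M < n + M := by omega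
        exact_mod_cast this
      rcases lt_trichotomy (a i) (a j) with h5 | h5 | h5
      · have h6 : (a i : ℤ) + 1 ≤ a j := by exact_mod_cast h5
        nlinarith
      · apply hij
        refine hinj i j h5 ?_
        rw [h5] at he'
        linarith
      · have h6 : (a j : ℤ) + 1 ≤ a i := by exact_mod_cast h5
        nlinarith
  · intro n _ n' _ hnn'
    exact Nat.add_right_cancel hnn'

end MPb51559.BG.LF
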