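import Pool.Agent.Work.MP_b51559_nt.LF.AP.Comp
import Pool.Agent.Work.MP_b51559_nt.LF.AP.I_F1
import Pool.Agent.Work.MP_b51559_nt.LF.AP.I_F2
import Pool.Agent.Work.MP_b51559_nt.LF.AP.I_IN

set_option autoImplicit false

/-!
# Block LF/AP: the general version, `r + 1` primes

The items MN, PO, F1, F2, IN of helper55, helper24, helper63, helper5, helper53 with `r + 1` primes in
place of two.
-/

namespace MPb51559.BG.LF

open Finset Filter Topology MeasureTheory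
open scoped Classical

/-- the criterion for `r + 1` primes -/
def CritR {k : ℕ} (r : ℕ) (P : Sl) (F : (Fin k → ℝ) → ℝ) : Prop :=
  4 * (r : ℝ) * ∫ t, F t ^ 2 < ∑ m, Jm P F m

/-- the numerical input for `r + 1` primes among `k` forms -/
def NUMr (k r : ℕ) : Prop := ∃ (P : Sl) (F : (Fin k → ℝ) → ℝ), P.Ok ∧ Tst k P.T F ∧ CritR r P F

def R_MN : Prop := ∀ r : ℕ, 0 < r → ∀ w, Wt w → ∀ (k : ℕ) (h : Fin k → ℕ × ℕ), 0 < k → AdmL h →
  ∀ (P : Sl) (F : (Fin k → ℝ) → ℝ), P.Ok → Tst k P.T F → CritR r P F → S1Concl w h F →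
  S2Concl w h P F → ∀ A : ℕ, (∀ i, (h i).1 ≤ A) →
  ∃ δ c1 : ℝ, 0 < δ ∧ δ < 1 / 8 ∧ 0 < c1 ∧ Ev fun D0 x =>
  ∀ v0 : ℕ, (∀ i, (lf (h i) v0).Coprime (primorial D0)) → ∀ l : Co (Sx D0 x) k → ℝ,
  l = lam aP (yF (Rx δ x) F) →
  r * Real.log (2 * A * x) * S1 w h D0 v0 x l l + c1 * Nn w k D0 δ x ≤ ∑ m, S2 w h D0 v0 x m l l

def R_PO : Prop := ∀ r : ℕ, 0 < r → ∀ w, Wt w → ∀ (k : ℕ) (h : Fin k → ℕ × ℕ), 0 < k → AdmL h →
  ∀ A : ℕ, (∀ i, (h i).1 ≤ A) → ∃ x0 : ℝ, ∀ x ≥ x0,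
  (∀ (m : Fin k) (n : ℕ), 0 ≤ tm w h x m n ∧ tm w h x m n ≤ Real.log (2 * A * x) * wp w h x n) ∧
  ∀ n : ℕ, r * Real.log (2 * A * x) * wp w h x n < ∑ m, tm w h x m n →
  x < n ∧ (n : ℝ) < 2 * x ∧ ∃ I : Finset (Fin k), r < I.card ∧ ∀ i ∈ I, (lf (h i) n).Prime

def R_F1 : Prop := ∀ r : ℕ, 0 < r → ∀ w, Wt w → ∀ (k : ℕ) (h : Fin k → ℕ × ℕ), 0 < k → AdmL h →
  ∀ (P : Sl) (F : (Fin k → ℝ) → ℝ), P.Ok → Tst k P.T F → CritR r P F → S1Concl w h F →
  S2Concl w h P F → ∀ A : ℕ, (∀ i, (h i).1 ≤ A) →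
  ∃ (D0 : ℕ) (δ c c1 : ℝ), 3 ≤ D0 ∧ Big h D0 ∧ 0 < δ ∧ δ < 1 / 8 ∧ 0 < c ∧ c < 1 ∧ 0 < c1 ∧
  ∃ x0 : ℝ, ∀ x ≥ x0, ∀ v0 : ℕ, (∀ i, (lf (h i) v0).Coprime (primorial D0)) →
  ∀ l : Co (Sx D0 x) k → ℝ, l = lam aP (yF (Rx δ x) F) →
  c1 * Nn w k D0 δ x ≤
    ∑ n ∈ ((range (⌊2 * x⌋₊ + 1)).filter (fun n => n ≡ v0 [MOD primorial D0])).filter
      (fun n => ¬ Bad h D0 x c n),
      ((∑ m, tm w h x m n) - r * Real.log (2 * A * x) * wp w h x n) * (Vn h l n * Vn h l n)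

/-- the counting statement for `r + 1` primes -/
def CountR {k : ℕ} (r : ℕ) (h : Fin k → ℕ × ℕ) : Prop := ∃ c : ℝ, 0 < c ∧ ∃ x0 : ℝ, ∀ x ≥ x0,
  c * x / Real.log x ^ k ≤ (((range (⌊2 * x⌋₊ + 1)).filter (fun n : ℕ => x < n ∧ (n : ℝ) < 2 * x ∧
    (∀ i, ∀ p : ℕ, p.Prime → p ∣ lf (h i) n → x ^ c < p) ∧
    ∃ I : Finset (Fin k), r < I.card ∧ ∀ i ∈ I, (lf (h i) n).Prime)).card : ℝ)

def R_F2 : Prop := ∀ r : ℕ, 0 < r → ∀ w, Wt w → ∀ (k : ℕ) (h : Fin k → ℕ × ℕ), 0 < k → AdmL h →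
  ∀ (P : Sl) (F : (Fin k → ℝ) → ℝ), P.Ok → Tst k P.T F → CritR r P F → S1Concl w h F →
  S2Concl w h P F → CountR r h

def R_IN : Prop := ∀ k r : ℕ, 0 < k → (∀ h : Fin k → ℕ × ℕ, AdmL h → CountR r h) → FCount k r

theorem prf_RMN : R_MN := by
  intro r hr w hw k h hk hA P F hP hT hC h1 h2 AA hAle
  have hA1 : (1 : ℝ) ≤ AA := by
    have h1 := (hA.pos ⟨0, hk⟩).trans_le (hAle ⟨0, hk⟩)
    exact_mod_cast h1
  have hI : 0 ≤ ∫ t, F t ^ 2 := integral_nonneg fun t => sq_nonneg (F t)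
  set I : ℝ := ∫ t, F t ^ 2 with hIdef
  set J : ℝ := ∑ m, Jm P F m with hJdef
  have hC' : 4 * (r : ℝ) * I < J := hC
  have hrR : (0 : ℝ) < r := by exact_mod_cast hr
  have hkR : (0 : ℝ) < k := by exact_mod_cast hk
  set g : ℝ := J - 4 * r * I with hg
  have hg0 : 0 < g := by linarith
  obtain ⟨δ1, hδ1, hδ1', h3⟩ := h2 (g / (4 * k)) (by positivity)
  set A : ℝ := 4 * r * (I + g / (32 * r)) with hAdef
  have hAeq : A = 4 * r * I + g / 8 := by
    rw [hAdef]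
    field_simp
    ring
  set Bv : ℝ := J - g / 4 with hB
  have hA0 : 0 < A := by positivity
  have hAB : A < Bv := by
    rw [hAeq, hB]
    linarith
  set δ : ℝ := min δ1 ((Bv - A) / (8 * (A + Bv))) with hδ
  have hAB0 : 0 < A + Bv := by linarith
  have hδ0 : 0 < δ := by
    refine lt_min hδ1 (div_pos (by linarith) (by linarith))
  have hδle : δ ≤ δ1 := min_le_left _ _
  have hδ8 : δ < 1 / 8 := lt_of_le_of_lt hδle hδ1'
  have hδ4 : 0 < 1 - 4 * δ := by linarith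
  -- the constant
  have hCA : A / (1 - 4 * δ) < Bv := by
    rw [div_lt_iff₀ hδ4]
    have e1 : δ ≤ (Bv - A) / (8 * (A + Bv)) := min_le_right _ _
    rw [le_div_iff₀ (by linarith)] at e1
    have e2 : 8 * δ * (A + Bv) ≤ Bv - A := by linarith
    have e3 : 4 * δ * Bv ≤ 4 * δ * (A + Bv) := by
      apply mul_le_mul_of_nonneg_left (by linarith) (by linarith)
    nlinarith
  set Cc : ℝ := A / (1 - 4 * δ) with hCc
  have hCc0 : 0 < Cc := div_pos hA0 hδ4
  have hc1 : 0 < (Bv - Cc) / 2 := by linarith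
  obtain ⟨D1, hD1⟩ := h1 δ hδ0 hδ8 (g / (32 * r)) (by positivity)
  obtain ⟨D2, hD2⟩ := h3 δ hδ0 hδle
  refine ⟨δ, (Bv - Cc) / 2, hδ0, hδ8, hc1, max D1 D2, fun D0 hD0 => ?_⟩
  obtain ⟨x1, hx1⟩ := hD1 D0 ((le_max_left _ _).trans hD0)
  obtain ⟨x2, hx2⟩ := hD2 D0 ((le_max_right _ _).trans hD0)
  have hlog : ∀ᶠ x : ℝ in atTop, Real.log (2 * AA) * Cc / ((Bv - Cc) / 2) < Real.log x :=
    Real.tendsto_log_atTop.eventually_gt_atTop _
  obtain ⟨x3, hx3⟩ := eventually_atTop.1 hlog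
  refine ⟨max x1 (max (max x2 x3) 2), fun x hx => ?_⟩
  have g2 : x1 ≤ x := le_trans (le_max_left _ _) hx
  have g3 : x2 ≤ x := le_trans (le_trans (le_trans (le_max_left _ _) (le_max_left _ _))
    (le_max_right _ _)) hx
  have g4 : x3 ≤ x := le_trans (le_trans (le_trans (le_max_right _ _) (le_max_left _ _))
    (le_max_right _ _)) hx
  have g5 : 2 ≤ x := le_trans (le_trans (le_max_right _ _) (le_max_right _ _)) hx
  have hx0 : 0 < x := by linarith
  have hlx : 0 < Real.log x := Real.log_pos (by linarith)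
  have hlR : Real.log (Rx δ x) = (1 - 4 * δ) / 4 * Real.log x := by
    rw [Rx, Real.log_rpow hx0]
    ring
  have hlR0 : 0 < Real.log (Rx δ x) := by
    rw [hlR]
    positivity
  have hN := MAIN_Nn hw k D0 (δ := δ) hx0 hlR0
  intro v0 hv0 l hl
  have k1 := hx1 x g2 v0 hv0 l hl
  have k2 := fun m => hx2 x g3 v0 hv0 m l hl
  set S : ℝ := S1 w h D0 v0 x l l with hS
  set N : ℝ := Nn w k D0 δ x with hNdef
  have h5 : N * Bv ≤ ∑ m, S2 w h D0 v0 x m l l := by
    have e1 : N * Bv = ∑ m, N * (Jm P F m - g / (4 * k)) := by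
      rw [← Finset.mul_sum, Finset.sum_sub_distrib, Finset.sum_const, Finset.card_univ,
        Fintype.card_fin, nsmul_eq_mul, hB]
      congr 2
      field_simp
    rw [e1]
    exact Finset.sum_le_sum fun m _ => k2 m
  refine le_trans ?_ h5
  have e0 : Real.log (2 * AA * x) = Real.log (2 * AA) + Real.log x :=
    Real.log_mul (by linarith) hx0.ne'
  have hl2 : 0 < Real.log (2 * AA) := Real.log_pos (by linarith)
  have hl2x : 0 < Real.log (2 * AA * x) := by rw [e0]; linarith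
  -- log(2x) S log R ≤ log(2x) N (I + g/32)
  have h6 : r * Real.log (2 * AA * x) * (S * Real.log (Rx δ x)) ≤
      r * Real.log (2 * AA * x) * (N * (I + g / (32 * r))) :=
    mul_le_mul_of_nonneg_left k1 (by positivity)
  have h7 : r * Real.log (2 * AA * x) * (N * (I + g / (32 * r))) + (Bv - Cc) / 2 * N *
      Real.log (Rx δ x) ≤ N * Bv * Real.log (Rx δ x) := by
    rw [hlR]
    have e3 : A = Cc * (1 - 4 * δ) := by
      rw [hCc, div_mul_cancel₀ _ hδ4.ne']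
    have e4 : (Real.log (2 * AA) + Real.log x) * Cc + (Bv - Cc) / 2 * Real.log x ≤
        Bv * Real.log x := by
      have e5 := hx3 x g4
      rw [div_lt_iff₀ hc1] at e5
      linarith
    have e1 : r * Real.log (2 * AA * x) * (N * (I + g / (32 * r))) + (Bv - Cc) / 2 * N *
        ((1 - 4 * δ) / 4 * Real.log x) = N * ((1 - 4 * δ) / 4) *
          ((Real.log (2 * AA) + Real.log x) * Cc + (Bv - Cc) / 2 * Real.log x) := by
      have e6 : r * (I + g / (32 * r)) = Cc * (1 - 4 * δ) / 4 := by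
        rw [← e3, hAdef]
        ring
      have e7 : r * (Real.log (2 * AA) + Real.log x) * (N * (I + g / (32 * r))) =
          (Real.log (2 * AA) + Real.log x) * (N * (r * (I + g / (32 * r)))) := by ring
      rw [e0, e7, e6]
      ring
    have e2 : N * Bv * ((1 - 4 * δ) / 4 * Real.log x) =
        N * ((1 - 4 * δ) / 4) * (Bv * Real.log x) := by ring
    rw [e1, e2]
    exact mul_le_mul_of_nonneg_left e4 (by positivity)
  have h8 : (r * Real.log (2 * AA * x) * S + (Bv - Cc) / 2 * N) * Real.log (Rx δ x) ≤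
      N * Bv * Real.log (Rx δ x) := by
    have e1 : (r * Real.log (2 * AA * x) * S + (Bv - Cc) / 2 * N) * Real.log (Rx δ x) =
        r * Real.log (2 * AA * x) * (S * Real.log (Rx δ x)) + (Bv - Cc) / 2 * N *
          Real.log (Rx δ x) := by ring
    rw [e1]
    linarith
  exact le_of_mul_le_mul_right h8 hlR0

theorem prf_RPO : R_PO := by
  intro r hr w hw k h hk hA A hAA
  refine ⟨8 * (∑ i, ((h i).2 : ℝ)) + 8, fun x hx => ?_⟩
  have hH0 : ∀ i, (0 : ℝ) ≤ (h i).2 := fun i => Nat.cast_nonneg _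
  have hHs : ∀ i, ((h i).2 : ℝ) ≤ ∑ j, ((h j).2 : ℝ) := fun i =>
    Finset.single_le_sum (f := fun j => ((h j).2 : ℝ)) (fun j _ => hH0 j) (mem_univ i)
  have hsum0 : 0 ≤ ∑ j, ((h j).2 : ℝ) := sum_nonneg fun j _ => hH0 j
  have hx1 : 1 ≤ x := by linarith
  have hx0 : 0 < x := by linarith
  have hA1 : (1 : ℝ) ≤ A := by
    have := (hA.pos ⟨0, hk⟩).trans_le (hAA ⟨0, hk⟩)
    exact_mod_cast this
  have hlog : 0 ≤ Real.log (2 * A * x) := Real.log_nonneg (by nlinarith)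
  have hle : ∀ (m : Fin k) (n : ℕ), tm w h x m n ≤ Real.log (2 * A * x) * wp w h x n :=
    fun m n => UPB_tm_le w hw h hA A hAA x hx1 m n
  refine ⟨fun m n => ⟨?_, hle m n⟩, ?_⟩
  · unfold tm
    split_ifs with hp
    · exact mul_nonneg (Real.log_nonneg (by exact_mod_cast hp.one_lt.le)) (hw.nonneg _)
    · exact le_rfl
  intro n hlt
  have hwp : ∀ m : Fin k, w ((lf (h m) n : ℝ) / ((h m).1 * x)) ≤ wp w h x n :=
    fun m => UPB_wp_ge w h x n m
  have hwp0 : 0 ≤ wp w h x n := (hw.nonneg _).trans (hwp ⟨0, hk⟩)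
  -- what a nonzero term says
  have hterm : ∀ m : Fin k, tm w h x m n ≠ 0 → (lf (h m) n).Prime ∧
      9 / 8 * ((h m).1 * x) < (lf (h m) n : ℝ) ∧ (lf (h m) n : ℝ) < 15 / 8 * ((h m).1 * x) :=
    fun m hm => RS_tm hw hA x hx1 m n hm
  -- many nonzero terms
  obtain ⟨I, hI⟩ : ∃ I : Finset (Fin k), I = univ.filter (fun m => tm w h x m n ≠ 0) := ⟨_, rfl⟩
  have hIs : ∑ m, tm w h x m n = ∑ m ∈ I, tm w h x m n := by
    rw [hI, sum_filter_ne_zero]
  have hIc : r < I.card := by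
    by_contra hc
    have hc' : (I.card : ℝ) ≤ r := by exact_mod_cast not_lt.1 hc
    have h3 : ∑ m ∈ I, tm w h x m n ≤ I.card * (Real.log (2 * A * x) * wp w h x n) := by
      calc ∑ m ∈ I, tm w h x m n ≤ ∑ _m ∈ I, Real.log (2 * A * x) * wp w h x n :=
            sum_le_sum fun m _ => hle m n
        _ = I.card * (Real.log (2 * A * x) * wp w h x n) := by rw [sum_const, nsmul_eq_mul]
    have h4 : (I.card : ℝ) * (Real.log (2 * A * x) * wp w h x n) ≤
        r * (Real.log (2 * A * x) * wp w h x n) :=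
      mul_le_mul_of_nonneg_right hc' (mul_nonneg hlog hwp0)
    rw [hIs] at hlt
    linarith
  obtain ⟨i, hiI⟩ : I.Nonempty := card_pos.1 (by omega)
  have hi : tm w h x i n ≠ 0 := by
    rw [hI, mem_filter] at hiI
    exact hiI.2
  obtain ⟨hpi, hi1, hi2⟩ := hterm i hi
  have ha : (1 : ℝ) ≤ (h i).1 := by exact_mod_cast hA.pos i
  have hlf : (lf (h i) n : ℝ) = (h i).1 * n + (h i).2 := by
    unfold lf
    push_cast
    ring
  have hbi := hHs i
  have hbi0 := hH0 i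
  rw [hlf] at hi1 hi2
  refine ⟨?_, ?_, I, hIc, fun m hm => ?_⟩
  · by_contra hc
    have hc' := not_lt.1 hc
    have h7 : ((h i).1 : ℝ) * n ≤ (h i).1 * x := mul_le_mul_of_nonneg_left hc' (by linarith)
    have h8 : x ≤ ((h i).1 : ℝ) * x := by nlinarith
    linarith
  · by_contra hc
    have hc' := not_lt.1 hc
    have h7 : ((h i).1 : ℝ) * (2 * x) ≤ (h i).1 * n := mul_le_mul_of_nonneg_left hc' (by linarith)
    have h8 : x ≤ ((h i).1 : ℝ) * x := by nlinarith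
    linarith
  · rw [hI, mem_filter] at hm
    exact (hterm m hm.2).1

theorem prf_RF1 (hE2 : A_E2) (hBD : A_BD) : R_F1 := by
  intro r hr w hw k h hk hA P F hP hT hC h1 h2 A hAle
  have hA1 : (1 : ℝ) ≤ A := by
    have h1 := (hA.pos ⟨0, hk⟩).trans_le (hAle ⟨0, hk⟩)
    exact_mod_cast h1
  have hkR : (0 : ℝ) < k := by exact_mod_cast hk
  obtain ⟨δ, c1, hδ0, hδ8, hc1, D1, hD1⟩ := prf_RMN r hr w hw k h hk hA P F hP hT hC h1 h2 A hAle
  obtain ⟨D2, hD2⟩ := hE2 w hw k h hk hA P.T F hP.hT1 hP.hT2 hT δ hδ0 hδ8 (c1 / (32 * k))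
    (by positivity)
  obtain ⟨xP, hxP⟩ := prf_RPO r hr w hw k h hk hA A hAle
  set D0 : ℕ := D1 + D2 + 3 + bigN h with hD0
  have hBig : Big h D0 := big_of h D0 (by omega)
  obtain ⟨x1, hx1⟩ := hD1 D0 (by omega)
  obtain ⟨c, hc0, hcδ, x2, hx2⟩ := hD2 D0 (by omega)
  refine ⟨D0, δ, c, c1 / 2, by omega, hBig, hδ0, hδ8, hc0, by linarith, by positivity,
    max (max x1 x2) (max xP (2 * A + 2)), fun x hx v0 hv0 l hl => ?_⟩
  have hxx1 : x1 ≤ x := ((le_max_left _ _).trans (le_max_left _ _)).trans hx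
  have hxx2 : x2 ≤ x := ((le_max_right _ _).trans (le_max_left _ _)).trans hx
  have hxxP : xP ≤ x := ((le_max_left _ _).trans (le_max_right _ _)).trans hx
  have hxA : 2 * (A : ℝ) + 2 ≤ x := ((le_max_right _ _).trans (le_max_right _ _)).trans hx
  have hx0 : 0 < x := by linarith
  have hxone : 1 < x := by linarith
  have hlogx : 0 < Real.log x := Real.log_pos hxone
  set L : ℝ := Real.log (2 * A * x) with hL
  have hLpos : 0 < L := Real.log_pos (by nlinarith)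
  have hL2 : L ≤ 2 * Real.log x := by
    rw [hL, Real.log_mul (by positivity) hx0.ne']
    have : Real.log (2 * A) ≤ Real.log x := Real.log_le_log (by positivity) (by linarith)
    linarith
  have hlogR : Real.log (Rx δ x) = (1 / 4 - δ) * Real.log x := U.log_Rx δ x hx0
  have hR8 : Real.log x / 8 ≤ Real.log (Rx δ x) := by
    rw [hlogR]
    nlinarith
  have hR0 : 0 < Real.log (Rx δ x) := by linarith
  have hLR : L ≤ 16 * Real.log (Rx δ x) := by linarith
  have hm := hx1 x hxx1 v0 hv0 l hl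
  have he := hx2 x hxx2 v0 hv0 l hl
  have hb := hBD w hw k h hA D0 hBig v0 x c l
  obtain ⟨hp, -⟩ := hxP x hxxP
  set Rng : Finset ℕ := (range (⌊2 * x⌋₊ + 1)).filter (fun n => n ≡ v0 [MOD primorial D0]) with hRng
  set f : ℕ → ℝ := fun n => ((∑ m, tm w h x m n) - r * L * wp w h x n) * (Vn h l n * Vn h l n) with hf
  set T : ℝ := ∑ p ∈ univ.filter (fun p : {p // p ∈ Sx D0 x} => (p : ℝ) ≤ x ^ c), ∑ j,
    S1 w h D0 v0 x (lp p j l) (lp p j l) with hTdef
  -- the weights are nonnegative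
  have hwp0 : ∀ n, 0 ≤ wp w h x n := by
    intro n
    have h3 := hp ⟨0, hk⟩ n
    have h4 : 0 ≤ L * wp w h x n := h3.1.trans h3.2
    exact nonneg_of_mul_nonneg_right h4 hLpos
  -- the total sum
  have htot : c1 * Nn w k D0 δ x ≤ ∑ n ∈ Rng, f n := by
    have hS2 : ∑ m, S2 w h D0 v0 x m l l =
        ∑ n ∈ Rng, (∑ m, tm w h x m n) * (Vn h l n * Vn h l n) := by
      simp only [S2, sum_mul]
      rw [sum_comm]
    have hS1 : r * L * S1 w h D0 v0 x l l =
        ∑ n ∈ Rng, r * L * wp w h x n * (Vn h l n * Vn h l n) := by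
      rw [S1, mul_sum]
      refine sum_congr rfl fun n _ => ?_
      ring
    have e : ∑ n ∈ Rng, f n = (∑ m, S2 w h D0 v0 x m l l) - r * L * S1 w h D0 v0 x l l := by
      rw [hS2, hS1, ← sum_sub_distrib]
      refine sum_congr rfl fun n _ => ?_
      rw [hf]
      ring
    rw [e]
    linarith
  -- the bad sum
  set BS : ℝ := ∑ n ∈ Rng.filter (Bad h D0 x c), wp w h x n * (Vn h l n * Vn h l n) with hBS
  have hBS0 : 0 ≤ BS := sum_nonneg fun n _ => mul_nonneg (hwp0 n) (mul_self_nonneg _)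
  have hbad1 : ∑ n ∈ Rng.filter (Bad h D0 x c), f n ≤ k * L * BS := by
    rw [hBS, mul_sum]
    refine sum_le_sum fun n _ => ?_
    have hV : 0 ≤ Vn h l n * Vn h l n := mul_self_nonneg _
    have hs : ∑ m, tm w h x m n ≤ k * (L * wp w h x n) := by
      calc ∑ m, tm w h x m n ≤ ∑ _m : Fin k, L * wp w h x n := sum_le_sum fun m _ => (hp m n).2
        _ = k * (L * wp w h x n) := by
            rw [sum_const, card_univ, Fintype.card_fin, nsmul_eq_mul]
    have hLw : 0 ≤ r * L * wp w h x n :=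
      mul_nonneg (mul_nonneg (Nat.cast_nonneg _) hLpos.le) (hwp0 n)
    calc f n = ((∑ m, tm w h x m n) - r * L * wp w h x n) * (Vn h l n * Vn h l n) := rfl
      _ ≤ (k * (L * wp w h x n)) * (Vn h l n * Vn h l n) :=
          mul_le_mul_of_nonneg_right (by linarith) hV
      _ = k * L * (wp w h x n * (Vn h l n * Vn h l n)) := by ring
  have hbad2 : k * L * BS ≤ c1 / 2 * Nn w k D0 δ x := by
    have h3 : L * BS ≤ 16 * Real.log (Rx δ x) * BS := mul_le_mul_of_nonneg_right hLR hBS0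
    have h4 : BS * Real.log (Rx δ x) ≤ c1 / (32 * k) * Nn w k D0 δ x :=
      (mul_le_mul_of_nonneg_right hb hR0.le).trans he
    have h5 : L * BS ≤ 16 * (c1 / (32 * k) * Nn w k D0 δ x) := by
      calc L * BS ≤ 16 * Real.log (Rx δ x) * BS := h3
        _ = 16 * (BS * Real.log (Rx δ x)) := by ring
        _ ≤ 16 * (c1 / (32 * k) * Nn w k D0 δ x) := by linarith
    calc k * L * BS = k * (L * BS) := by ring
      _ ≤ k * (16 * (c1 / (32 * k) * Nn w k D0 δ x)) := mul_le_mul_of_nonneg_left h5 hkR.le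
      _ = c1 / 2 * Nn w k D0 δ x := by
          field_simp
          ring
  have hsplit : ∑ n ∈ Rng.filter (Bad h D0 x c), f n +
      ∑ n ∈ Rng.filter (fun n => ¬ Bad h D0 x c n), f n = ∑ n ∈ Rng, f n :=
    sum_filter_add_sum_filter_not Rng (Bad h D0 x c) f
  change c1 / 2 * Nn w k D0 δ x ≤ ∑ n ∈ Rng.filter (fun n => ¬ Bad h D0 x c n), f n
  linarith

theorem prf_RF2 (hV0 : L_V0) (hBAS : C_BAS) (hF1 : R_F1) (hLM : A_LM) (hVB : A_VB) :
    R_F2 := by
  intro r hr w hw k h hk hA P F hP hF hC h1 h2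
  have hAA : ∀ i, (h i).1 ≤ ∑ i, (h i).1 := fun i =>
    Finset.single_le_sum (f := fun i => (h i).1) (fun _ _ => Nat.zero_le _) (mem_univ i)
  obtain ⟨A, hAdef⟩ : ∃ A : ℕ, A = ∑ i, (h i).1 := ⟨_, rfl⟩
  rw [← hAdef] at hAA
  have hA1 : 1 ≤ A := (hA.pos ⟨0, hk⟩).trans_le (hAA ⟨0, hk⟩)
  have hA1' : (1 : ℝ) ≤ A := by exact_mod_cast hA1
  obtain ⟨D0, δ, c, c1, hD3, hBig, hδ0, hδ8, hc0, hc1, hc1p, x1, hx1⟩ :=
    hF1 r hr w hw k h hk hA P F hP hF hC h1 h2 A hAA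
  obtain ⟨v0, hv⟩ := hV0 k h hA D0
  obtain ⟨x2, hx2⟩ := prf_RPO r hr w hw k h hk hA A hAA
  obtain ⟨x3, hx3⟩ := hLM k D0 (by omega)
  obtain ⟨K, x4, hK, hx4⟩ := hVB k h hA c hc0
  obtain ⟨x5, hx5⟩ := I_F2.rpow_add_one_le c hc0 hc1
  obtain ⟨M0, hM0⟩ := hF.bdd
  obtain ⟨M, hMp, hM⟩ : ∃ M : ℝ, 0 < M ∧ ∀ t, |F t| ≤ M :=
    ⟨|M0| + 1, by positivity, fun t => by linarith [hM0 t, le_abs_self M0]⟩
  obtain ⟨B, hBp, hB⟩ := I_F2.w_bdd hw
  have hI : 0 < ∫ u, w u := hw.pos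
  have hW : (0 : ℝ) < (primorial D0 : ℝ) := by exact_mod_cast primorial_pos D0
  have hkap := U.kap_pos D0
  have hδ' : 0 < 1 / 4 - δ := by linarith
  have hkR : (0 : ℝ) < k := by exact_mod_cast hk
  obtain ⟨a, ha, hapos⟩ : ∃ a : ℝ, a = c1 * ((∫ u, w u) / (primorial D0 : ℝ)) *
      (kap D0 * (1 / 4 - δ)) ^ k * (1 / 4 - δ) ∧ 0 < a := ⟨_, rfl, by positivity⟩
  obtain ⟨b, hb, hbpos⟩ : ∃ b : ℝ, b = k * 2 * B * (K * (M * kap D0 ^ k)) ^ 2 ∧ 0 < b :=
    ⟨_, rfl, by positivity⟩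
  refine ⟨min c (a / b), lt_min hc0 (by positivity),
    max (max (max x1 x2) (max x3 x4)) (max x5 (max (2 * A) 2)), fun x hx => ?_⟩
  simp only [ge_iff_le, max_le_iff] at hx
  obtain ⟨⟨⟨hxa, hxb⟩, hxc, hxd⟩, hxe, hxf, hxg⟩ := hx
  have hx0 : 0 < x := by linarith
  have hxx : 1 < x := by linarith
  have hlogx : 0 < Real.log x := Real.log_pos hxx
  have hRx := U.Rx_gt_one δ x hδ8 hxx
  have hSp1 : ∀ p ∈ Sx D0 x, p.Prime := fun p hp => (U.Sx_prime hp).1
  have hL0 : 0 ≤ Real.log (2 * A * x) := Real.log_nonneg (by nlinarith)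
  have hL2 : Real.log (2 * A * x) ≤ 2 * Real.log x := by
    have e1 : 2 * Real.log x = Real.log (x * x) := by
      rw [Real.log_mul hx0.ne' hx0.ne']
      ring
    rw [e1]
    exact Real.log_le_log (by positivity) (mul_le_mul_of_nonneg_right hxf hx0.le)
  -- the sieve weights
  obtain ⟨l, hl⟩ : ∃ l : Co (Sx D0 x) k → ℝ, l = lam aP (yF (Rx δ x) F) := ⟨_, rfl⟩
  have hsum := hx1 x hxa v0 hv l hl
  have hkl : 0 ≤ kl D0 x := by
    unfold kl
    positivity
  have hld : ∀ d, |l d| ≤ (M * kl D0 x ^ k) * mw (fun _ => (2 : ℝ)) d := by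
    intro d
    rw [hl]
    refine hx3 x hxc (yF (Rx δ x) F) M hMp.le (fun r => hM _) (fun r hr => ?_) d
    exact (S1A_nrm hBAS hF hSp1 (Rx δ x) hRx r hr).trans
      (U.Rx_rpow_le δ x P.T hδ0.le hxx.le (by linarith [hP.hT1]) (by linarith [hP.hT2]))
  have hVn : ∀ n : ℕ, 0 < n → (n : ℝ) ≤ 2 * x → ¬ Bad h D0 x c n →
      |Vn h l n| ≤ K * (M * kl D0 x ^ k) := fun n hn0 hn hbad =>
    hx4 x hxd D0 hBig l (M * kl D0 x ^ k) (by positivity) hld n hn0 hn hbad
  -- the counted set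
  set G : Finset ℕ := (range (⌊2 * x⌋₊ + 1)).filter (fun n : ℕ => x < n ∧ (n : ℝ) < 2 * x ∧
    (∀ i, ∀ p : ℕ, p.Prime → p ∣ lf (h i) n → x ^ c < p) ∧
    ∃ I : Finset (Fin k), r < I.card ∧ ∀ i ∈ I, (lf (h i) n).Prime) with hG
  set E : ℝ := k * Real.log (2 * A * x) * B * (K * (M * kl D0 x ^ k)) ^ 2 with hE
  have hE0 : 0 ≤ E := by positivity
  have hterm : ∀ n ∈ ((range (⌊2 * x⌋₊ + 1)).filter (fun n => n ≡ v0 [MOD primorial D0])).filter
      (fun n => ¬ Bad h D0 x c n),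
      ((∑ m, tm w h x m n) - r * Real.log (2 * A * x) * wp w h x n) * (Vn h l n * Vn h l n) ≤
        if n ∈ G then E else 0 := by
    intro n hn
    rw [mem_filter, mem_filter] at hn
    obtain ⟨⟨hnr, hnv⟩, hnb⟩ := hn
    have hV : 0 ≤ Vn h l n * Vn h l n := mul_self_nonneg _
    by_cases hlt : r * Real.log (2 * A * x) * wp w h x n < ∑ m, tm w h x m n
    · obtain ⟨h3, h4, h5⟩ := (hx2 x hxb).2 n hlt
      have hmem : n ∈ G := by
        rw [hG, mem_filter]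
        exact ⟨hnr, h3, h4, fun i p hp hd =>
          I_F2.large_of_not_bad hv hnv hnb (hx5 x hxe) i p hp hd, h5⟩
      rw [if_pos hmem]
      have hn0 : 0 < n := by
        have : (0 : ℝ) < n := by linarith
        exact_mod_cast this
      have hVb := hVn n hn0 h4.le hnb
      have hwp0 : 0 ≤ wp w h x n := (hw.nonneg _).trans (UPB_wp_ge w h x n ⟨0, hk⟩)
      have hwpB : wp w h x n ≤ B := I_F2.wp_le hB hk h x n
      have e1 : ∑ m, tm w h x m n ≤ k * (Real.log (2 * A * x) * B) := by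
        calc ∑ m, tm w h x m n ≤ ∑ _m : Fin k, Real.log (2 * A * x) * B := by
              refine Finset.sum_le_sum fun m _ => ?_
              exact ((hx2 x hxb).1 m n).2.trans (mul_le_mul_of_nonneg_left hwpB hL0)
          _ = k * (Real.log (2 * A * x) * B) := by simp
      have e2 : (∑ m, tm w h x m n) - r * Real.log (2 * A * x) * wp w h x n ≤
          k * Real.log (2 * A * x) * B := by
        have := mul_nonneg (mul_nonneg (Nat.cast_nonneg (α := ℝ) r) hL0) hwp0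
        linarith
      have e3 : Vn h l n * Vn h l n ≤ (K * (M * kl D0 x ^ k)) ^ 2 := by
        rw [← sq, ← sq_abs]
        exact pow_le_pow_left₀ (abs_nonneg _) hVb 2
      exact mul_le_mul e2 e3 hV (by positivity)
    · have h3 : ((∑ m, tm w h x m n) - r * Real.log (2 * A * x) * wp w h x n) *
          (Vn h l n * Vn h l n) ≤ 0 :=
        mul_nonpos_of_nonpos_of_nonneg (by linarith [not_lt.1 hlt]) hV
      refine h3.trans ?_
      split_ifs
      · exact hE0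
      · exact le_rfl
  have hcount : c1 * Nn w k D0 δ x ≤ (G.card : ℝ) * E := by
    refine hsum.trans ((Finset.sum_le_sum hterm).trans ?_)
    rw [← Finset.sum_filter, Finset.sum_const, nsmul_eq_mul]
    refine mul_le_mul_of_nonneg_right ?_ hE0
    exact_mod_cast Finset.card_le_card fun n hn => (mem_filter.1 hn).2
  -- evaluation
  have hN : c1 * Nn w k D0 δ x = a * x * Real.log x ^ (k + 1) := by
    unfold Nn
    rw [U.lk_eq D0 δ x hx0, U.log_Rx δ x hx0, ha]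
    rw [show kap D0 * ((1 / 4 - δ) * Real.log x) = (kap D0 * (1 / 4 - δ)) * Real.log x by ring,
      mul_pow _ (Real.log x) k, pow_succ]
    ring
  have hEb : E ≤ b * Real.log x ^ (2 * k + 1) := by
    rw [hE, hb]
    have e1 : (K * (M * kl D0 x ^ k)) ^ 2 = (K * (M * kap D0 ^ k)) ^ 2 * Real.log x ^ (2 * k) := by
      unfold kl
      rw [mul_pow (kap D0), pow_mul']
      ring
    rw [e1]
    calc k * Real.log (2 * A * x) * B * ((K * (M * kap D0 ^ k)) ^ 2 * Real.log x ^ (2 * k))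
        = (k * B * ((K * (M * kap D0 ^ k)) ^ 2 * Real.log x ^ (2 * k))) *
            Real.log (2 * A * x) := by ring
      _ ≤ (k * B * ((K * (M * kap D0 ^ k)) ^ 2 * Real.log x ^ (2 * k))) * (2 * Real.log x) :=
          mul_le_mul_of_nonneg_left hL2 (by positivity)
      _ = k * 2 * B * (K * (M * kap D0 ^ k)) ^ 2 * Real.log x ^ (2 * k + 1) := by
          rw [pow_succ]
          ring
  have hfin : a / b * x / Real.log x ^ k ≤ (G.card : ℝ) := by
    have hlk : 0 < Real.log x ^ k := pow_pos hlogx k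
    rw [div_le_iff₀ hlk, div_mul_eq_mul_div, div_le_iff₀ hbpos]
    have e1 : a * x * Real.log x ^ (k + 1) ≤
        (G.card : ℝ) * (b * Real.log x ^ (2 * k + 1)) := by
      rw [← hN]
      exact hcount.trans (mul_le_mul_of_nonneg_left hEb (Nat.cast_nonneg _))
    have hlk1 : 0 < Real.log x ^ (k + 1) := pow_pos hlogx _
    refine le_of_mul_le_mul_right ?_ hlk1
    calc a * x * Real.log x ^ (k + 1) ≤ (G.card : ℝ) * (b * Real.log x ^ (2 * k + 1)) := e1
      _ = (G.card : ℝ) * Real.log x ^ k * b * Real.log x ^ (k + 1) := by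
          rw [show 2 * k + 1 = k + (k + 1) by ring, pow_add (Real.log x) k (k + 1)]
          ring
  have hle : min c (a / b) * x / Real.log x ^ k ≤ a / b * x / Real.log x ^ k := by
    have hlk : 0 < Real.log x ^ k := pow_pos hlogx k
    exact div_le_div_of_nonneg_right (mul_le_mul_of_nonneg_right (min_le_right _ _) hx0.le) hlk.le
  refine hle.trans (hfin.trans ?_)
  have hsub : G ⊆ (range (⌊2 * x⌋₊ + 1)).filter (fun n : ℕ => x < n ∧ (n : ℝ) < 2 * x ∧
      (∀ i, ∀ p : ℕ, p.Prime → p ∣ lf (h i) n → x ^ (min c (a / b)) < p) ∧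
      ∃ I : Finset (Fin k), r < I.card ∧ ∀ i ∈ I, (lf (h i) n).Prime) := by
    intro n hn
    rw [hG, mem_filter] at hn
    rw [mem_filter]
    refine ⟨hn.1, hn.2.1, hn.2.2.1, fun i p hp hd => ?_, hn.2.2.2.2⟩
    exact lt_of_le_of_lt (Real.rpow_le_rpow_of_exponent_le hxx.le (min_le_left _ _))
      (hn.2.2.2.1 i p hp hd)
  exact_mod_cast Finset.card_le_card hsub

theorem prf_RIN : R_IN := by
  intro k r hk hT a b hAdm
  obtain ⟨hpos, hinj, hadm⟩ := hAdm
  obtain ⟨M, hM⟩ : ∃ M : ℕ, M = ∑ i, (b i).natAbs := ⟨_, rfl⟩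
  have hMb : ∀ i, |b i| ≤ (M : ℤ) := by
    intro i
    rw [Int.abs_eq_natAbs, hM]
    exact_mod_cast Finset.single_le_sum (f := fun i => (b i).natAbs) (fun _ _ => Nat.zero_le _)
      (mem_univ i)
  have hnn : ∀ i, 0 ≤ b i + a i * M := by
    intro i
    have h1 := neg_le_of_abs_le (hMb i)
    have h2 : (1 : ℤ) ≤ a i := by exact_mod_cast hpos i
    have h3 : (M : ℤ) ≤ a i * M := by nlinarith [Int.natCast_nonneg M]
    linarith
  obtain ⟨h, hh⟩ : ∃ h : Fin k → ℕ × ℕ, h = fun i => (a i, (b i + a i * M).toNat) := ⟨_, rfl⟩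
  have hh1 : ∀ i, (h i).1 = a i := fun i => by rw [hh]
  have hh2 : ∀ i, ((h i).2 : ℤ) = b i + a i * M := fun i => by
    rw [hh]
    exact Int.toNat_of_nonneg (hnn i)
  have hlf : ∀ i (n : ℕ), ((lf (h i) n : ℕ) : ℤ) = a i * (n + M : ℕ) + b i := by
    intro i n
    unfold lf
    push_cast
    rw [hh2 i, hh1 i]
    ring
  have hA : AdmL h := by
    refine ⟨fun i => by rw [hh1 i]; exact hpos i, fun i j hij he => ?_, fun p hp => ?_⟩
    · have h1 : ((h i).1 : ℤ) * (h j).2 = (h j).1 * (h i).2 := by exact_mod_cast he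
      rw [hh1, hh1, hh2, hh2] at h1
      apply INT_indep hinj hpos hadm i j hij
      linarith
    · obtain ⟨v, hv⟩ := hadm p hp
      have hp0 : (p : ℤ) ≠ 0 := by exact_mod_cast hp.ne_zero
      refine ⟨((v - M) % p).toNat, fun i hd => hv i ?_⟩
      have h1 : ((((v - M) % p).toNat : ℕ) : ℤ) = (v - M) % p :=
        Int.toNat_of_nonneg (Int.emod_nonneg _ hp0)
      have h2 : (p : ℤ) ∣ ((lf (h i) ((v - M) % p).toNat : ℕ) : ℤ) := by exact_mod_cast hd
      rw [hlf i, Nat.cast_add, h1] at h2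
      have h3 : (p : ℤ) ∣ (v - M) - (v - M) % p := ⟨(v - M) / p, by
        linarith [Int.mul_ediv_add_emod (v - M) p]⟩
      have h4 : (a i : ℤ) * v + b i = (a i * ((v - M) % p + M) + b i) +
          a i * ((v - M) - (v - M) % p) := by ring
      rw [h4]
      exact dvd_add h2 (h3.mul_left _)
  obtain ⟨c, hc, x0, hx0⟩ := hT h hA
  refine ⟨c / 2, by positivity, ⌈x0⌉₊ + 3 * M + 4, fun x hx => ?_⟩
  have hxx : x0 ≤ ((x - M : ℕ) : ℝ) := by
    have h1 : ⌈x0⌉₊ ≤ x - M := by omega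
    exact (Nat.le_ceil x0).trans (by exact_mod_cast h1)
  have hmain := hx0 _ hxx
  have r1 : (1 : ℝ) < ((x - M : ℕ) : ℝ) := by exact_mod_cast (by omega : 1 < x - M)
  have r2 : ((x - M : ℕ) : ℝ) ≤ (x : ℝ) := by exact_mod_cast (by omega : x - M ≤ x)
  have r3 : (x : ℝ) / 2 ≤ ((x - M : ℕ) : ℝ) := by
    have : (x : ℝ) ≤ 2 * ((x - M : ℕ) : ℝ) := by exact_mod_cast (by omega : x ≤ 2 * (x - M))
    linarith
  have r4 : (4 : ℝ) ≤ x := by exact_mod_cast (by omega : 4 ≤ x)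
  refine (I_IN.main_le k c hc x _ r1 r2 r3).trans (hmain.trans ?_)
  have hpw := I_IN.pow_le c x _ hc r4 r3
  refine Nat.cast_le.2 (Finset.card_le_card_of_injOn (fun n => n + M) ?_ ?_)
  · intro n hn
    obtain ⟨-, h1, h2, h3, I, hIc, hI⟩ := Finset.mem_filter.1 (Finset.mem_coe.1 hn)
    have h1' : x - M < n := by exact_mod_cast h1
    have h2' : n < 2 * (x - M) := by exact_mod_cast h2
    refine Finset.mem_coe.2 (Finset.mem_filter.2 ⟨Finset.mem_Ioc.2 ⟨?_, ?_⟩, ?_, ?_⟩)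
    · show x < n + M
      omega
    · show n + M ≤ 2 * x
      omega
    · intro i' p hp hd
      refine hpw.trans_lt (h3 i' p hp ?_)
      change (p : ℤ) ∣ (a i' : ℤ) * ((n + M : ℕ) : ℤ) + b i' at hd
      rw [← hlf i' n] at hd
      exact_mod_cast hd
    · refine ⟨I, hIc, fun i hi => ⟨lf (h i) n, hI i hi, (hlf i n).symm⟩, fun i _ j _ he => ?_⟩
      by_contra hij
      have he' : (a i : ℤ) * (n + M : ℕ) + b i = a j * (n + M : ℕ) + b j := he
      have e1 := abs_le.1 (hMb i)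
      have e2 := abs_le.1 (hMb j)
      have e3 : (2 * M : ℤ) < ((n + M : ℕ) : ℤ) := by
        have : 2 * M < n + M := by omega
        exact_mod_cast this
      rcases lt_trichotomy (a i) (a j) with h5 | h5 | h5
      · have h6 : (a i : ℤ) + 1 ≤ a j := by exact_mod_cast h5
        nlinarith
      · apply hij
        refine hinj i j h5 ?_
        rw [h5] at he'
        linarith
      · have h6 : (a j : ℤ) + 1 ≤ a i := by exact_mod_cast h5
        nlinarith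
  · intro n _ n' _ hnn'
    exact Nat.add_right_cancel hnn'

end MPb51559.BG.LF
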