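import Pool.Agent.Work.MP_b51559_nt.LF.AP.Stmts

set_option autoImplicit false

/-! Block LF/AP, item BD: the union bound over the small prime factors. -/

namespace MPb51559.BG.LF

open Finset Filter Topology MeasureTheory
open scoped Classical

theorem prf_ABD (hVN : A_VN) : A_BD := by
  intro w hw k h hA D0 hB v0 x c l
  have hS : ∀ p ∈ Sx D0 x, D0 < p := fun p hp => (Finset.mem_filter.1 hp).2.2
  have hwp : ∀ n, 0 ≤ wp w h x n := fun n => Real.iSup_nonneg fun m => hw.nonneg _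
  have hterm : ∀ (p : {p // p ∈ Sx D0 x}) (j : Fin k) (n : ℕ),
      0 ≤ wp w h x n * (Vn h (lp p j l) n * Vn h (lp p j l) n) := fun p j n =>
    mul_nonneg (hwp n) (mul_self_nonneg _)
  have hsw : ∑ p ∈ univ.filter (fun p : {p // p ∈ Sx D0 x} => (p : ℝ) ≤ x ^ c), ∑ j,
      S1 w h D0 v0 x (lp p j l) (lp p j l) =
      ∑ n ∈ (range (⌊2 * x⌋₊ + 1)).filter (fun n => n ≡ v0 [MOD primorial D0]),
        ∑ p ∈ univ.filter (fun p : {p // p ∈ Sx D0 x} => (p : ℝ) ≤ x ^ c), ∑ j,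
          wp w h x n * (Vn h (lp p j l) n * Vn h (lp p j l) n) := by
    symm
    rw [Finset.sum_comm]
    refine Finset.sum_congr rfl fun p _ => ?_
    rw [Finset.sum_comm]
    rfl
  rw [hsw]
  refine le_trans ?_ (Finset.sum_le_sum_of_subset_of_nonneg (Finset.filter_subset (Bad h D0 x c) _)
    fun n _ _ => Finset.sum_nonneg fun p _ => Finset.sum_nonneg fun j _ => hterm p j n)
  refine Finset.sum_le_sum fun n hn => ?_
  obtain ⟨p, hp, hpx, j, hj⟩ := (Finset.mem_filter.1 hn).2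
  have h1 : Vn h (lp (⟨p, hp⟩ : {p // p ∈ Sx D0 x}) j l) n = Vn h l n := by
    rw [hVN D0 (Sx D0 x) k h hS hB hA ⟨p, hp⟩ j l n, if_pos hj]
  have h2 : wp w h x n * (Vn h l n * Vn h l n) =
      wp w h x n * (Vn h (lp (⟨p, hp⟩ : {p // p ∈ Sx D0 x}) j l) n *
        Vn h (lp (⟨p, hp⟩ : {p // p ∈ Sx D0 x}) j l) n) := by rw [h1]
  rw [h2]
  refine (Finset.single_le_sum (f := fun j => wp w h x n *
    (Vn h (lp (⟨p, hp⟩ : {p // p ∈ Sx D0 x}) j l) n *
      Vn h (lp (⟨p, hp⟩ : {p // p ∈ Sx D0 x}) j l) n)) (fun j _ => hterm _ j n)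
    (Finset.mem_univ j)).trans ?_
  exact Finset.single_le_sum (f := fun p : {p // p ∈ Sx D0 x} => ∑ j, wp w h x n *
    (Vn h (lp p j l) n * Vn h (lp p j l) n))
    (fun p _ => Finset.sum_nonneg fun j _ => hterm p j n)
    (Finset.mem_filter.2 ⟨Finset.mem_univ _, hpx⟩)

end MPb51559.BG.LF
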