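import Pool.Agent.Work.MP_b51559_nt.LF.AP.Stmts
import Pool.Agent.Work.MP_b51559_nt.LF.Util
import Pool.Agent.Work.MP_b51559_nt.BG.C.Util

set_option autoImplicit false

/-!
# Block LF/AP: item E1, the sieve sum over the multiples of one prime
-/

namespace MPb51559.BG.LF

open Finset Filter Topology MeasureTheory
open scoped Classical

namespace I_E1

theorem asym (δ c : ℝ) (N : ℕ) (hδ : 0 < δ) (hc : 0 < c) :
    ∃ x0 : ℝ, ∀ x ≥ x0, c * (x ^ (1 - 4 * δ) * Real.log x ^ N) ≤ x ^ (1 - 3 * δ) := by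
  have h1 : (fun x : ℝ => Real.log x ^ (N : ℝ)) =o[atTop] fun x : ℝ => x ^ δ :=
    isLittleO_log_rpow_rpow_atTop _ hδ
  have h2 := h1.bound (one_div_pos.2 hc)
  have h3 : ∀ᶠ x : ℝ in atTop, c * (x ^ (1 - 4 * δ) * Real.log x ^ N) ≤ x ^ (1 - 3 * δ) := by
    filter_upwards [h2, eventually_gt_atTop (1 : ℝ)] with x hx hx1
    have hx0 : 0 < x := by linarith
    have hl : 0 < Real.log x := Real.log_pos hx1
    rw [Real.rpow_natCast, Real.norm_of_nonneg (by positivity),
      Real.norm_of_nonneg (by positivity)] at hx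
    calc c * (x ^ (1 - 4 * δ) * Real.log x ^ N)
        ≤ c * (x ^ (1 - 4 * δ) * (1 / c * x ^ δ)) :=
          mul_le_mul_of_nonneg_left (mul_le_mul_of_nonneg_left hx (by positivity)) hc.le
      _ = x ^ (1 - 4 * δ) * x ^ δ := by field_simp
      _ = x ^ (1 - 3 * δ) := by
          rw [← Real.rpow_add hx0]
          congr 1
          ring
  exact eventually_atTop.1 h3

theorem nrm_le (hBAS : C_BAS) {k : ℕ} {T : ℝ} {F : (Fin k → ℝ) → ℝ} (hF : Tst k T F)
    {S : Finset ℕ} (hS : ∀ p ∈ S, p.Prime) (R : ℝ) (hR : 1 < R) (r : Co S k)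
    (hr : yF R F r ≠ 0) : (nrm r : ℝ) ≤ R ^ T := by
  obtain ⟨-, hn, -, -, -, -, -, -, hsz, -⟩ := hBAS S k hS r
  have h1 := (hF.supp _ hr).2
  rw [← hsz R] at h1
  unfold sz at h1
  have hl : 0 < Real.log R := Real.log_pos hR
  rw [div_le_iff₀ hl] at h1
  have hn' : (0 : ℝ) < nrm r := by exact_mod_cast hn
  rw [← Real.log_rpow (by linarith)] at h1
  exact (Real.log_le_log_iff hn' (by positivity)).1 h1

section
variable {S : Finset ℕ} {k : ℕ}

theorem sum_lp (p : {p // p ∈ S}) (j : Fin k) (l : Co S k → ℝ) :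
    ∑ d, |lp p j l d| ≤ 2 * ∑ d, |l d| := by
  have h1 : ∑ d, |lp p j l d| =
      ∑ d ∈ univ.filter (fun d : Co S k => d p = some j), |l d + l (er p d)| := by
    rw [sum_filter]
    refine sum_congr rfl fun d _ => ?_
    unfold lp
    split_ifs <;> simp
  rw [h1]
  have h2 : ∑ d ∈ univ.filter (fun d : Co S k => d p = some j), |l d| ≤ ∑ d, |l d| :=
    sum_le_sum_of_subset_of_nonneg (filter_subset _ _) fun d _ _ => abs_nonneg _
  have h3 : ∑ d ∈ univ.filter (fun d : Co S k => d p = some j), |l (er p d)| ≤ ∑ d, |l d| := by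
    have hinj : Set.InjOn (er p)
        ((univ.filter (fun d : Co S k => d p = some j) : Finset (Co S k)) : Set (Co S k)) := by
      intro d hd e he hde
      simp only [coe_filter, mem_univ, true_and, Set.mem_ofPred_eq] at hd he
      funext q
      by_cases hq : q = p
      · subst hq
        rw [hd, he]
      · have := congrFun hde q
        unfold er at this
        rwa [Function.update_of_ne hq, Function.update_of_ne hq] at this
    calc ∑ d ∈ univ.filter (fun d : Co S k => d p = some j), |l (er p d)|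
        = ∑ e ∈ (univ.filter (fun d : Co S k => d p = some j)).image (er p), |l e| :=
          (sum_image (f := fun e => |l e|) hinj).symm
      _ ≤ ∑ d, |l d| :=
          sum_le_sum_of_subset_of_nonneg (subset_univ _) fun d _ _ => abs_nonneg _
  calc ∑ d ∈ univ.filter (fun d : Co S k => d p = some j), |l d + l (er p d)|
      ≤ ∑ d ∈ univ.filter (fun d : Co S k => d p = some j), (|l d| + |l (er p d)|) :=
        sum_le_sum fun d _ => abs_add_le _ _
    _ = ∑ d ∈ univ.filter (fun d : Co S k => d p = some j), |l d| +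
        ∑ d ∈ univ.filter (fun d : Co S k => d p = some j), |l (er p d)| := sum_add_distrib
    _ ≤ 2 * ∑ d, |l d| := by linarith

/-- the bound for the square of the difference operator -/
theorem dy_sq (p : {p // p ∈ S}) (hp : (1 : ℝ) < (p : ℝ)) (j : Fin k) (y : Co S k → ℝ) (M : ℝ)
    (hM : ∀ r, |y r| ≤ M) (Z : ℝ) (hZ : ∀ r, y r ≠ 0 → (nrm r : ℝ) ≤ Z) (u : Co S k)
    (hn : ∀ i, (nrm u : ℝ) ≤ nrm (pt p i u)) :
    dy p j y u ^ 2 ≤ 4 * M * |y u - y (pt p j u)| +
      (if (nrm u : ℝ) ≤ Z then 2 * (k * M / ((p : ℝ) - 1)) ^ 2 else 0) := by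
  have hM0 : 0 ≤ M := (abs_nonneg _).trans (hM u)
  have hp1 : 0 < (p : ℝ) - 1 := by linarith
  have h1 : (y u - y (pt p j u)) ^ 2 ≤ 2 * M * |y u - y (pt p j u)| := by
    rw [← sq_abs, sq]
    refine mul_le_mul_of_nonneg_right ?_ (abs_nonneg _)
    calc |y u - y (pt p j u)| ≤ |y u| + |y (pt p j u)| := abs_sub _ _
      _ ≤ 2 * M := by linarith [hM u, hM (pt p j u)]
  have h2 : ((∑ i ∈ univ.erase j, y (pt p i u)) / ((p : ℝ) - 1)) ^ 2 ≤
      (if (nrm u : ℝ) ≤ Z then (k * M / ((p : ℝ) - 1)) ^ 2 else 0) := by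
    split_ifs with hu
    · rw [← sq_abs]
      refine pow_le_pow_left₀ (abs_nonneg _) ?_ 2
      rw [abs_div, abs_of_pos hp1]
      refine div_le_div_of_nonneg_right ?_ hp1.le
      calc |∑ i ∈ univ.erase j, y (pt p i u)| ≤ ∑ i ∈ univ.erase j, |y (pt p i u)| :=
            abs_sum_le_sum_abs _ _
        _ ≤ ∑ i, |y (pt p i u)| :=
            sum_le_sum_of_subset_of_nonneg (erase_subset _ _) fun i _ _ => abs_nonneg _
        _ ≤ ∑ _i : Fin k, M := sum_le_sum fun i _ => hM _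
        _ = k * M := by simp
    · have : ∑ i ∈ univ.erase j, y (pt p i u) = 0 := by
        refine sum_eq_zero fun i _ => ?_
        by_contra hne
        exact hu ((hn i).trans (hZ _ hne))
      rw [this]
      simp
  have h3 : dy p j y u ^ 2 ≤ 2 * (y u - y (pt p j u)) ^ 2 +
      2 * ((∑ i ∈ univ.erase j, y (pt p i u)) / ((p : ℝ) - 1)) ^ 2 := by
    unfold dy
    nlinarith [sq_nonneg ((y u - y (pt p j u)) -
      (∑ i ∈ univ.erase j, y (pt p i u)) / ((p : ℝ) - 1))]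
  have h4 : (if (nrm u : ℝ) ≤ Z then 2 * (k * M / ((p : ℝ) - 1)) ^ 2 else 0) =
      2 * (if (nrm u : ℝ) ≤ Z then (k * M / ((p : ℝ) - 1)) ^ 2 else 0) := by
    split_ifs <;> simp
  rw [h4]
  linarith

end

end I_E1

theorem prf_AE1 (hBAS : C_BAS) (hL1S : C_L1S) (hTOT : C_TOT) (hPERT : C_PERT) (hS1E : L_S1E)
    (hQB : A_QB) (hVP : A_VP) : A_E1 := by
  intro w hw k h hk hinj T F hT1 hT2 hF δ hδ0 hδ8
  obtain ⟨C, xE, hC, hE⟩ := hS1E w hw k h hk hinj
  obtain ⟨xL, hL⟩ := hL1S k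
  obtain ⟨M, hM⟩ := hF.bdd
  have hM0 : 0 ≤ M := (abs_nonneg _).trans (hM (fun _ => 0))
  obtain ⟨D1, hP⟩ := hPERT k k (Nat.cast_nonneg k) 1 one_pos
  obtain ⟨CV, hCV, D2, hV⟩ := hVP k T F hk hT1 hT2 hF δ hδ0 hδ8
  have hI : 0 < ∫ u, w u := hw.pos
  obtain ⟨x3, h3⟩ := I_E1.asym δ (4 * C + 1) (8 * k + 16) hδ0 (by positivity)
  refine ⟨(∫ u, w u) * (24 * M * CV + 32 * (k * M) ^ 2) + 1, by positivity,
    max (max D1 D2) (max (k + 3) (bigN h)), fun D0 hD0 => ?_⟩
  have hD1 : D1 ≤ D0 := ((le_max_left _ _).trans (le_max_left _ _)).trans hD0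
  have hD2 : D2 ≤ D0 := ((le_max_right _ _).trans (le_max_left _ _)).trans hD0
  have hDk : k + 3 ≤ D0 := ((le_max_left _ _).trans (le_max_right _ _)).trans hD0
  have hD3 : 3 ≤ D0 := by omega
  have hDh : Big h D0 := big_of h D0 (((le_max_right _ _).trans (le_max_right _ _)).trans hD0)
  obtain ⟨x1, h1⟩ := hP D0 hD1
  obtain ⟨x2, h2⟩ := hV D0 hD2
  obtain ⟨x4, h4⟩ := hTOT k D0 (by omega)
  have hW : (0 : ℝ) < (primorial D0 : ℝ) := by exact_mod_cast primorial_pos D0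
  refine ⟨max (max (max xE xL) (max x1 x2)) (max (max x3 x4) (max 2 (Real.exp (M + 1)))),
    fun x hx v0 hv p j l hl => ?_⟩
  simp only [ge_iff_le, max_le_iff] at hx
  obtain ⟨⟨⟨hxE, hxL⟩, hx1, hx2⟩, ⟨hx3, hx4⟩, hx5, hx6⟩ := hx
  have hx0 : 0 < x := by linarith
  have hxx : 1 < x := by linarith
  have hlogx : 0 < Real.log x := Real.log_pos hxx
  have hRx := U.Rx_gt_one δ x hδ8 hxx
  have hlogM : M + 1 ≤ Real.log x := by
    rw [Real.le_log_iff_exp_le hx0]; exact hx6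
  have hSp : ∀ p ∈ Sx D0 x, p.Prime ∧ D0 < p := fun p hp =>
    ⟨(U.Sx_prime hp).1, (U.Sx_prime hp).2.1⟩
  have hSp1 : ∀ p ∈ Sx D0 x, p.Prime := fun p hp => (hSp p hp).1
  have hSr : ∀ p ∈ Sx D0 x, (3 : ℝ) < p := fun p hp => by
    have : 3 < p := lt_of_le_of_lt hD3 (hSp p hp).2
    exact_mod_cast this
  have hp3 : (3 : ℝ) < (p : ℝ) := hSr p p.2
  have hp0 : (0 : ℝ) < (p : ℝ) := by linarith
  have hp1 : (0 : ℝ) < (p : ℝ) - 1 := by linarith
  set y : Co (Sx D0 x) k → ℝ := yF (Rx δ x) F with hy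
  -- supports
  have hyR : ∀ r, y r ≠ 0 → (nrm r : ℝ) ≤ (Rx δ x) ^ T := fun r hr =>
    I_E1.nrm_le hBAS hF hSp1 (Rx δ x) hRx r hr
  have hRT : (Rx δ x) ^ T ≤ Real.sqrt x :=
    U.Rx_rpow_le δ x T hδ0.le hxx.le (by linarith) (by linarith)
  have hyM : ∀ r, |y r| ≤ M := fun r => hM _
  -- L1S
  have hRT' : (Rx δ x) ^ T = x ^ ((1 / 4 - δ) * T) := by
    unfold Rx
    rw [← Real.rpow_mul hx0.le]
  have hsum : ∑ d, |l d| ≤ x ^ ((1 / 4 - δ) * T) * Real.log x ^ (4 * k + 8) := by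
    rw [hl]
    refine hL x hxL D0 hD3 ((1 / 4 - δ) * T) (mul_nonneg (by linarith) (by linarith))
      (by nlinarith) y (fun r => ?_) fun r hr => ?_
    · refine (hyM r).trans ?_
      nlinarith
    · rw [← hRT']; exact hyR r hr
  have hsum0 : 0 ≤ ∑ d, |l d| := sum_nonneg fun _ _ => abs_nonneg _
  have hlps := I_E1.sum_lp p j l
  have hlp0 : 0 ≤ ∑ d, |lp p j l d| := sum_nonneg fun _ _ => abs_nonneg _
  have herr : C * (∑ d, |lp p j l d|) * (∑ d, |lp p j l d|) ≤ x ^ (1 - 3 * δ) := by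
    have e1 : (∑ d, |l d|) * (∑ d, |l d|) ≤ x ^ (1 - 4 * δ) * Real.log x ^ (8 * k + 16) := by
      calc (∑ d, |l d|) * (∑ d, |l d|) ≤ (x ^ ((1 / 4 - δ) * T) * Real.log x ^ (4 * k + 8)) *
            (x ^ ((1 / 4 - δ) * T) * Real.log x ^ (4 * k + 8)) :=
            mul_le_mul hsum hsum hsum0 (by positivity)
        _ = x ^ ((1 / 4 - δ) * T + (1 / 4 - δ) * T) * Real.log x ^ (8 * k + 16) := by
            rw [Real.rpow_add hx0]; ring
        _ ≤ x ^ (1 - 4 * δ) * Real.log x ^ (8 * k + 16) := by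
            refine mul_le_mul_of_nonneg_right ?_ (by positivity)
            exact Real.rpow_le_rpow_of_exponent_le hxx.le (by nlinarith)
    have e2 := h3 x hx3
    calc C * (∑ d, |lp p j l d|) * (∑ d, |lp p j l d|)
        = C * ((∑ d, |lp p j l d|) * (∑ d, |lp p j l d|)) := by ring
      _ ≤ C * ((2 * ∑ d, |l d|) * (2 * ∑ d, |l d|)) :=
          mul_le_mul_of_nonneg_left (mul_le_mul hlps hlps hlp0 (by positivity)) hC
      _ = 4 * C * ((∑ d, |l d|) * (∑ d, |l d|)) := by ring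
      _ ≤ (4 * C + 1) * (x ^ (1 - 4 * δ) * Real.log x ^ (8 * k + 16)) :=
          mul_le_mul (by linarith) e1 (by positivity) (by linarith)
      _ ≤ x ^ (1 - 3 * δ) := e2
  -- S1E
  have hS1 := hE x hxE D0 v0 (Sx D0 x) hDh hSp hv (lp p j l) (lp p j l)
  -- the form
  have hmwF : ∀ r : Co (Sx D0 x) k, 0 < mw aF r := fun r =>
    U.mw_pos r fun p hp => by
      unfold aF
      have := hSr p hp
      linarith
  have hq := hQB (Sx D0 x) k (fun q hq => by
    have := (hSp q hq).2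
    omega) p j y
  rw [← hl] at hq
  have hG0 : ∀ u : Co (Sx D0 x) k, 0 ≤ mw (fun q => 1 + (k : ℝ) / ((q : ℝ) - 1)) u := fun u =>
    U.mw_nonneg u fun q hq => by
      have := hSr q hq
      have : 0 < (q : ℝ) - 1 := by linarith
      positivity
  -- the sum of the weights
  have hGs : ∑ u ∈ univ.filter (fun u : Co (Sx D0 x) k => (nrm u : ℝ) ≤ Real.sqrt x),
      mw (fun q => 1 + (k : ℝ) / ((q : ℝ) - 1)) u / mw aF u ≤ 2 * kl D0 x ^ k := by
    have f1 := (h1 x hx1).1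
    have f2 := (h4 x hx4).2.1
    calc ∑ u ∈ univ.filter (fun u : Co (Sx D0 x) k => (nrm u : ℝ) ≤ Real.sqrt x),
          mw (fun q => 1 + (k : ℝ) / ((q : ℝ) - 1)) u / mw aF u
        ≤ ∑ u ∈ univ.filter (fun u : Co (Sx D0 x) k => (nrm u : ℝ) ≤ Real.sqrt x),
          ((mw (fun p => 1 + (k : ℝ) / ((p : ℝ) - 2)) u - 1) / mw aF u + 1 / mw aF u) := by
          refine sum_le_sum fun u _ => ?_
          rw [← add_div, sub_add_cancel]
          refine div_le_div_of_nonneg_right ?_ (hmwF u).le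
          refine U.mw_le_mw u (fun q hq => ?_) fun q hq => ?_
          · have := hSr q hq
            have : 0 < (q : ℝ) - 1 := by linarith
            positivity
          · have e1 := hSr q hq
            have e2 : (0 : ℝ) < (q : ℝ) - 2 := by linarith
            have e3 : (k : ℝ) / ((q : ℝ) - 1) ≤ (k : ℝ) / ((q : ℝ) - 2) :=
              div_le_div_of_nonneg_left (Nat.cast_nonneg k) e2 (by linarith)
            linarith
      _ = ∑ u ∈ univ.filter (fun u : Co (Sx D0 x) k => (nrm u : ℝ) ≤ Real.sqrt x),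
          (mw (fun p => 1 + (k : ℝ) / ((p : ℝ) - 2)) u - 1) / mw aF u +
          ∑ u ∈ univ.filter (fun u : Co (Sx D0 x) k => (nrm u : ℝ) ≤ Real.sqrt x),
            1 / mw aF u := sum_add_distrib
      _ ≤ 2 * kl D0 x ^ k := by linarith
  have hkl0 : 0 ≤ kl D0 x := by
    unfold kl
    have := U.kap_pos D0
    positivity
  -- the diagonal sum
  have hnr : ∀ u : Co (Sx D0 x) k, u p = none → ∀ i, (nrm u : ℝ) ≤ nrm (pt p i u) := by
    intro u hu i
    have b1 := hBAS (Sx D0 x) k hSp1 u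
    have b2 := hBAS (Sx D0 x) k hSp1 (pt p i u)
    obtain ⟨-, -, -, -, -, -, -, -, -, hle, -⟩ := b1
    obtain ⟨-, hpos, -⟩ := b2
    have hLe : Le u (pt p i u) := by
      intro q
      by_cases hq : q = p
      · left
        rw [hq, hu]
      · right
        unfold pt
        rw [Function.update_of_ne hq]
    exact_mod_cast Nat.le_of_dvd hpos (hle _ hLe)
  have hdy : ∑ u ∈ univ.filter (fun u : Co (Sx D0 x) k => u p = none),
      dy p j y u ^ 2 * mw (fun q => 1 + (k : ℝ) / ((q : ℝ) - 1)) u / mw aF u ≤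
      4 * M * (CV * kl D0 x ^ (k - 1) * (Real.log (p : ℝ) + 1)) +
      2 * (k * M / ((p : ℝ) - 1)) ^ 2 * (2 * kl D0 x ^ k) := by
    have g1 := h2 x hx2 p j
    calc ∑ u ∈ univ.filter (fun u : Co (Sx D0 x) k => u p = none),
          dy p j y u ^ 2 * mw (fun q => 1 + (k : ℝ) / ((q : ℝ) - 1)) u / mw aF u
        ≤ ∑ u ∈ univ.filter (fun u : Co (Sx D0 x) k => u p = none),
          (4 * M * (|y u - y (pt p j u)| *
            (mw (fun q => 1 + (k : ℝ) / ((q : ℝ) - 1)) u / mw aF u)) +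
          (if (nrm u : ℝ) ≤ Real.sqrt x then 2 * (k * M / ((p : ℝ) - 1)) ^ 2 *
            (mw (fun q => 1 + (k : ℝ) / ((q : ℝ) - 1)) u / mw aF u) else 0)) := by
          refine sum_le_sum fun u hu => ?_
          have hu' : u p = none := (mem_filter.1 hu).2
          have g2 := I_E1.dy_sq p (by linarith) j y M hyM (Real.sqrt x)
            (fun r hr => (hyR r hr).trans hRT) u (hnr u hu')
          have g3 : 0 ≤ mw (fun q => 1 + (k : ℝ) / ((q : ℝ) - 1)) u / mw aF u :=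
            div_nonneg (hG0 u) (hmwF u).le
          calc dy p j y u ^ 2 * mw (fun q => 1 + (k : ℝ) / ((q : ℝ) - 1)) u / mw aF u
              = dy p j y u ^ 2 * (mw (fun q => 1 + (k : ℝ) / ((q : ℝ) - 1)) u / mw aF u) := by
                ring
            _ ≤ (4 * M * |y u - y (pt p j u)| +
                (if (nrm u : ℝ) ≤ Real.sqrt x then 2 * (k * M / ((p : ℝ) - 1)) ^ 2 else 0)) *
                (mw (fun q => 1 + (k : ℝ) / ((q : ℝ) - 1)) u / mw aF u) :=
                mul_le_mul_of_nonneg_right g2 g3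
            _ = _ := by
                split_ifs <;> ring
      _ = 4 * M * ∑ u ∈ univ.filter (fun u : Co (Sx D0 x) k => u p = none),
            |y u - y (pt p j u)| * (mw (fun q => 1 + (k : ℝ) / ((q : ℝ) - 1)) u / mw aF u) +
          ∑ u ∈ univ.filter (fun u : Co (Sx D0 x) k => u p = none),
            (if (nrm u : ℝ) ≤ Real.sqrt x then 2 * (k * M / ((p : ℝ) - 1)) ^ 2 *
              (mw (fun q => 1 + (k : ℝ) / ((q : ℝ) - 1)) u / mw aF u) else 0) := by
          rw [sum_add_distrib, mul_sum]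
      _ ≤ 4 * M * (CV * kl D0 x ^ (k - 1) * (Real.log (p : ℝ) + 1)) +
          2 * (k * M / ((p : ℝ) - 1)) ^ 2 * (2 * kl D0 x ^ k) := by
          refine add_le_add (mul_le_mul_of_nonneg_left g1 (by positivity)) ?_
          calc ∑ u ∈ univ.filter (fun u : Co (Sx D0 x) k => u p = none),
                (if (nrm u : ℝ) ≤ Real.sqrt x then 2 * (k * M / ((p : ℝ) - 1)) ^ 2 *
                  (mw (fun q => 1 + (k : ℝ) / ((q : ℝ) - 1)) u / mw aF u) else 0)
              ≤ ∑ u : Co (Sx D0 x) k,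
                (if (nrm u : ℝ) ≤ Real.sqrt x then 2 * (k * M / ((p : ℝ) - 1)) ^ 2 *
                  (mw (fun q => 1 + (k : ℝ) / ((q : ℝ) - 1)) u / mw aF u) else 0) := by
                refine sum_le_sum_of_subset_of_nonneg (filter_subset _ _) fun u _ _ => ?_
                have g3 : 0 ≤ mw (fun q => 1 + (k : ℝ) / ((q : ℝ) - 1)) u / mw aF u :=
                  div_nonneg (hG0 u) (hmwF u).le
                split_ifs
                · positivity
                · exact le_rfl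
            _ = 2 * (k * M / ((p : ℝ) - 1)) ^ 2 *
                ∑ u ∈ univ.filter (fun u : Co (Sx D0 x) k => (nrm u : ℝ) ≤ Real.sqrt x),
                  mw (fun q => 1 + (k : ℝ) / ((q : ℝ) - 1)) u / mw aF u := by
                rw [← sum_filter, mul_sum]
            _ ≤ _ := mul_le_mul_of_nonneg_left hGs (by positivity)
  -- arithmetic
  have hlogp : Real.log (p : ℝ) + 1 ≤ 3 * Real.log (p : ℝ) := by
    have : (1 : ℝ) / 2 ≤ Real.log (p : ℝ) := by
      have e1 : Real.log 2 ≤ Real.log (p : ℝ) := Real.log_le_log (by norm_num) (by linarith)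
      have e2 := Real.log_two_gt_d9
      linarith
    linarith
  have hlogp0 : 0 ≤ Real.log (p : ℝ) := Real.log_nonneg (by linarith)
  have hpp : 1 / ((p : ℝ) - 1) ^ 2 ≤ 4 / (p : ℝ) ^ 2 := by
    rw [div_le_div_iff₀ (by positivity) (by positivity)]
    nlinarith
  have hqq : Qf aP (lp p j l) (lp p j l) ≤ (24 * M * CV + 32 * (k * M) ^ 2) *
      (kl D0 x ^ (k - 1) * (Real.log (p : ℝ) / p) + kl D0 x ^ k / (p : ℝ) ^ 3) := by
    have a1 : 4 * M * (CV * kl D0 x ^ (k - 1) * (Real.log (p : ℝ) + 1)) ≤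
        12 * M * CV * kl D0 x ^ (k - 1) * Real.log (p : ℝ) := by
      have : 4 * M * CV * kl D0 x ^ (k - 1) * (Real.log (p : ℝ) + 1) ≤
          4 * M * CV * kl D0 x ^ (k - 1) * (3 * Real.log (p : ℝ)) :=
        mul_le_mul_of_nonneg_left hlogp (by positivity)
      linarith
    have a2 : 2 * (k * M / ((p : ℝ) - 1)) ^ 2 * (2 * kl D0 x ^ k) ≤
        16 * (k * M) ^ 2 * kl D0 x ^ k / (p : ℝ) ^ 2 := by
      have : 4 * (k * M) ^ 2 * kl D0 x ^ k * (1 / ((p : ℝ) - 1) ^ 2) ≤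
          4 * (k * M) ^ 2 * kl D0 x ^ k * (4 / (p : ℝ) ^ 2) :=
        mul_le_mul_of_nonneg_left hpp (by positivity)
      calc 2 * (k * M / ((p : ℝ) - 1)) ^ 2 * (2 * kl D0 x ^ k)
          = 4 * (k * M) ^ 2 * kl D0 x ^ k * (1 / ((p : ℝ) - 1) ^ 2) := by
            rw [div_pow]; ring
        _ ≤ _ := this
        _ = _ := by ring
    calc Qf aP (lp p j l) (lp p j l)
        ≤ 2 / (p : ℝ) * ∑ u ∈ univ.filter (fun u : Co (Sx D0 x) k => u p = none),
          dy p j y u ^ 2 * mw (fun q => 1 + (k : ℝ) / ((q : ℝ) - 1)) u / mw aF u := hq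
      _ ≤ 2 / (p : ℝ) * (12 * M * CV * kl D0 x ^ (k - 1) * Real.log (p : ℝ) +
          16 * (k * M) ^ 2 * kl D0 x ^ k / (p : ℝ) ^ 2) :=
          mul_le_mul_of_nonneg_left (by linarith) (by positivity)
      _ = 24 * M * CV * (kl D0 x ^ (k - 1) * (Real.log (p : ℝ) / p)) +
          32 * (k * M) ^ 2 * (kl D0 x ^ k / (p : ℝ) ^ 3) := by
          field_simp
          ring
      _ ≤ _ := by
          have b1 : 0 ≤ kl D0 x ^ (k - 1) * (Real.log (p : ℝ) / p) := by positivity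
          have b2 : 0 ≤ kl D0 x ^ k / (p : ℝ) ^ 3 := by positivity
          have b3 : 0 ≤ 24 * M * CV := by positivity
          have b4 : 0 ≤ 32 * (k * M) ^ 2 := by positivity
          nlinarith [mul_nonneg b3 b2, mul_nonneg b4 b1]
  have hE0 : 0 ≤ kl D0 x ^ (k - 1) * (Real.log (p : ℝ) / p) + kl D0 x ^ k / (p : ℝ) ^ 3 := by
    positivity
  have g1 := (abs_le.1 hS1).2
  have g2 : x * (∫ u, w u) / (primorial D0 : ℝ) * Qf aP (lp p j l) (lp p j l) ≤
      x * (∫ u, w u) / (primorial D0 : ℝ) * ((24 * M * CV + 32 * (k * M) ^ 2) *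
      (kl D0 x ^ (k - 1) * (Real.log (p : ℝ) / p) + kl D0 x ^ k / (p : ℝ) ^ 3)) :=
    mul_le_mul_of_nonneg_left hqq (by positivity)
  have g3 : 0 ≤ 1 * (x / (primorial D0 : ℝ)) *
      (kl D0 x ^ (k - 1) * (Real.log (p : ℝ) / p) + kl D0 x ^ k / (p : ℝ) ^ 3) := by positivity
  calc S1 w h D0 v0 x (lp p j l) (lp p j l)
      ≤ x * (∫ u, w u) / (primorial D0 : ℝ) * ((24 * M * CV + 32 * (k * M) ^ 2) *
      (kl D0 x ^ (k - 1) * (Real.log (p : ℝ) / p) + kl D0 x ^ k / (p : ℝ) ^ 3)) +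
      x ^ (1 - 3 * δ) + 1 * (x / (primorial D0 : ℝ)) *
      (kl D0 x ^ (k - 1) * (Real.log (p : ℝ) / p) + kl D0 x ^ k / (p : ℝ) ^ 3) := by linarith
    _ = _ := by ring

end MPb51559.BG.LF
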