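import Pool.Agent.Work.MP_b51559_nt.LF.AP.Stmts
import Pool.Agent.Work.MP_b51559_nt.BG.C.Util

set_option autoImplicit false

/-!
# Block LF/AP, item E2: sum over the small primes
-/

namespace MPb51559.BG.LF

open Finset Filter Topology MeasureTheory
open scoped Classical

namespace I_E2

lemma sum_sub_le {S : Finset ℕ} (F : Finset {p // p ∈ S}) (T : Finset ℕ) (g : ℕ → ℝ)
    (hg : ∀ n ∈ T, 0 ≤ g n) (hF : ∀ p ∈ F, (p : ℕ) ∈ T) : ∑ p ∈ F, g p ≤ ∑ n ∈ T, g n := by
  have h1 : ∑ p ∈ F, g p = ∑ n ∈ F.map (Function.Embedding.subtype _), g n := by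
    rw [Finset.sum_map]
    rfl
  rw [h1]
  refine Finset.sum_le_sum_of_subset_of_nonneg ?_ fun n hn _ => hg n hn
  intro n hn
  rw [Finset.mem_map] at hn
  obtain ⟨p, hp, rfl⟩ := hn
  exact hF p hp

lemma cube_sum (D N : ℕ) (hD : 1 ≤ D) :
    ∑ n ∈ (Finset.range N).filter (fun n => D < n), 1 / (n : ℝ) ^ 3 ≤ 1 / (D : ℝ) := by
  have hD' : (1 : ℝ) ≤ D := by exact_mod_cast hD
  have h1 : ∀ N : ℕ, ∑ n ∈ (Finset.range N).filter (fun n => D < n), 1 / (n : ℝ) ^ 3 ≤
      1 / (D : ℝ) - 1 / (max D (N - 1) : ℕ) := by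
    intro N
    induction N with
    | zero => simp
    | succ N ih =>
      rw [Finset.range_add_one, Finset.filter_insert]
      split_ifs with h
      · rw [Finset.sum_insert (by simp)]
        have hN2 : 2 ≤ N := by omega
        have e1 : max D (N - 1) = N - 1 := by omega
        have e2 : max D (N + 1 - 1) = N := by omega
        rw [e1] at ih
        rw [e2]
        have hN : (2 : ℝ) ≤ N := by exact_mod_cast hN2
        have e3 : ((N - 1 : ℕ) : ℝ) = (N : ℝ) - 1 := by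
          rw [Nat.cast_sub (by omega)]
          norm_num
        rw [e3] at ih
        have h2 : 1 / (N : ℝ) ^ 3 ≤ 1 / ((N : ℝ) - 1) - 1 / N := by
          have p1 : (N : ℝ) - 1 ≠ 0 := by linarith
          have p2 : (N : ℝ) ≠ 0 := by linarith
          have e4 : 1 / ((N : ℝ) - 1) - 1 / N = 1 / (((N : ℝ) - 1) * N) := by
            field_simp
            ring
          rw [e4]
          refine one_div_le_one_div_of_le (by nlinarith) ?_
          have : (N : ℝ) ^ 3 = N * N * N := by ring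
          nlinarith
        linarith
      · refine ih.trans ?_
        have h3 : max D (N + 1 - 1) = D ∨ True := Or.inr trivial
        have e1 : max D (N - 1) = D := by omega
        have e2 : max D (N + 1 - 1) = D := by omega
        rw [e1, e2]
  refine (h1 N).trans ?_
  have : (0 : ℝ) ≤ 1 / ((max D (N - 1) : ℕ) : ℝ) := by positivity
  linarith

end I_E2

theorem prf_AE2 (hMS : A_MS) (hE1 : A_E1) : A_E2 := by
  intro w hw k h hk hadm T F hT1 hT2 hF δ hδ0 hδ1 ε hε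
  obtain ⟨C', hC', hMS'⟩ := hMS
  obtain ⟨C, hC, D1', hE⟩ := hE1 w hw k h hk hadm T F hT1 hT2 hF δ hδ0 hδ1
  have hI : 0 < ∫ u, w u := hw.pos
  set I := ∫ u, w u with hIdef
  have hk0 : (0 : ℝ) < k := by exact_mod_cast hk
  have h8 : (0 : ℝ) < 8 ^ k := by positivity
  obtain ⟨M, hM⟩ := exists_nat_gt (3 * k * C * 8 ^ k / (ε * I))
  refine ⟨max (max D1' M) 1, fun D0 hD0 => ?_⟩
  have hD1 : D1' ≤ D0 := (le_max_left _ _).trans ((le_max_left _ _).trans hD0)
  have hDM : M ≤ D0 := (le_max_right _ _).trans ((le_max_left _ _).trans hD0)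
  have hD0' : 1 ≤ D0 := (le_max_right _ _).trans hD0
  have hD0r : (1 : ℝ) ≤ D0 := by exact_mod_cast hD0'
  obtain ⟨x1, hx1⟩ := hE D0 hD1
  have hκ := U.kap_pos D0
  set κ := kap D0 with hκd
  have hWpos : (0 : ℝ) < (primorial D0 : ℝ) := by exact_mod_cast primorial_pos D0
  set W := (primorial D0 : ℝ) with hWd
  set c := min δ (ε * I * κ / (6 * k * C * C' * 8 ^ k)) with hc
  have hcpos : 0 < c := lt_min hδ0 (by positivity)
  have hc1 : c ≤ δ := min_le_left _ _
  have hc2 : 6 * k * C * C' * 8 ^ k * c ≤ ε * I * κ := by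
    have h1 : c ≤ ε * I * κ / (6 * k * C * C' * 8 ^ k) := min_le_right _ _
    rw [le_div_iff₀ (by positivity)] at h1
    linarith
  refine ⟨c, hcpos, hc1, ?_⟩
  -- conditions on x
  have ev1 : ∀ᶠ x : ℝ in atTop, 6 * k * C * C' * 8 ^ k / (ε * I * κ) ≤ Real.log x :=
    Real.tendsto_log_atTop.eventually_ge_atTop _
  have ev2 : ∀ᶠ x : ℝ in atTop, 1 / κ ≤ Real.log x := Real.tendsto_log_atTop.eventually_ge_atTop _
  have ev3 : ∀ᶠ x : ℝ in atTop, 3 * k * W * 8 ^ k / (ε * I) ≤ x ^ (2 * δ) :=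
    (tendsto_rpow_atTop (by linarith)).eventually_ge_atTop _
  obtain ⟨x0, hx0⟩ := eventually_atTop.1 (ev1.and (ev2.and (ev3.and ((eventually_ge_atTop x1).and
    (eventually_gt_atTop (1 : ℝ))))))
  refine ⟨x0, fun x hx v0 hv0 l hl => ?_⟩
  obtain ⟨g1, g2, g3, g4, g5⟩ := hx0 x hx
  have hxpos : 0 < x := by linarith
  set L := Real.log x with hL
  have hLpos : 0 < L := Real.log_pos g5
  have hE' := hx1 x g4 v0 hv0
  set FF := univ.filter (fun p : {p // p ∈ Sx D0 x} => (p : ℝ) ≤ x ^ c) with hFF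
  have hkl : kl D0 x = κ * L := rfl
  set Kl := kl D0 x with hKl
  have hKl1 : 1 ≤ Kl := by
    rw [hkl]
    rw [div_le_iff₀ hκ] at g2
    linarith
  have hKl0 : 0 < Kl := by linarith
  have hxc1 : 1 ≤ x ^ c := Real.one_le_rpow g5.le hcpos.le
  -- the sums over the primes
  have s1 : ∑ p ∈ FF, Real.log ((p : ℕ) : ℝ) / ((p : ℕ) : ℝ) ≤ C' * (c * L + 1) := by
    have h1 := I_E2.sum_sub_le FF ((range (⌊x ^ c⌋₊ + 1)).filter Nat.Prime)
      (fun n => Real.log (n : ℝ) / (n : ℝ)) (fun n hn => by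
        rw [Finset.mem_filter] at hn
        have : (1 : ℝ) ≤ n := by exact_mod_cast hn.2.one_lt.le
        exact div_nonneg (Real.log_nonneg this) (by linarith)) (fun p hp => by
        rw [hFF, Finset.mem_filter] at hp
        rw [Finset.mem_filter, Finset.mem_range]
        exact ⟨Nat.lt_succ_of_le (Nat.le_floor hp.2), (U.Sx_prime p.2).1⟩)
    refine h1.trans ((hMS' (x ^ c) hxc1).trans ?_)
    rw [Real.log_rpow hxpos]
  have s2 : ∑ p ∈ FF, 1 / ((p : ℕ) : ℝ) ^ 3 ≤ 1 / (D0 : ℝ) := by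
    refine (I_E2.sum_sub_le FF ((range ⌊x⌋₊).filter (fun n => D0 < n))
      (fun n => 1 / (n : ℝ) ^ 3) (fun n _ => by positivity) (fun p _ => ?_)).trans
      (I_E2.cube_sum D0 ⌊x⌋₊ hD0')
    have := U.Sx_prime p.2
    rw [Finset.mem_filter, Finset.mem_range]
    exact ⟨this.2.2, this.2.1⟩
  have s3 : (FF.card : ℝ) ≤ x ^ c := by
    have h1 := I_E2.sum_sub_le FF (Finset.Icc 1 ⌊x ^ c⌋₊) (fun _ => (1 : ℝ))
      (fun _ _ => by norm_num) (fun p hp => by
        rw [hFF, Finset.mem_filter] at hp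
        rw [Finset.mem_Icc]
        exact ⟨(U.Sx_prime p.2).1.one_lt.le, Nat.le_floor hp.2⟩)
    rw [Finset.sum_const, Finset.sum_const, nsmul_eq_mul, nsmul_eq_mul, mul_one, mul_one,
      Nat.card_Icc, Nat.add_sub_cancel] at h1
    exact h1.trans (Nat.floor_le (by linarith))
  -- the whole sum
  have hsum : ∑ p ∈ FF, ∑ j, S1 w h D0 v0 x (lp p j l) (lp p j l) ≤
      k * (C * (x / W) * (Kl ^ (k - 1) * (C' * (c * L + 1)) + Kl ^ k * (1 / (D0 : ℝ))) +
        x ^ c * x ^ (1 - 3 * δ)) := by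
    have h1 : ∀ p ∈ FF, ∑ j, S1 w h D0 v0 x (lp p j l) (lp p j l) ≤
        k * (C * (x / W) * (Kl ^ (k - 1) * (Real.log ((p : ℕ) : ℝ) / ((p : ℕ) : ℝ)) +
          Kl ^ k * (1 / ((p : ℕ) : ℝ) ^ 3)) + x ^ (1 - 3 * δ)) := by
      intro p _
      have h2 : ∀ j ∈ (univ : Finset (Fin k)), S1 w h D0 v0 x (lp p j l) (lp p j l) ≤
          C * (x / W) * (Kl ^ (k - 1) * (Real.log ((p : ℕ) : ℝ) / ((p : ℕ) : ℝ)) +
          Kl ^ k * (1 / ((p : ℕ) : ℝ) ^ 3)) + x ^ (1 - 3 * δ) := by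
        intro j _
        have h3 := hE' p j l hl
        rw [mul_one_div]
        exact h3
      refine (Finset.sum_le_sum h2).trans ?_
      rw [Finset.sum_const, Finset.card_univ, Fintype.card_fin, nsmul_eq_mul]
    refine (Finset.sum_le_sum h1).trans ?_
    rw [← Finset.mul_sum, Finset.sum_add_distrib, ← Finset.mul_sum, Finset.sum_add_distrib,
      ← Finset.mul_sum, ← Finset.mul_sum, Finset.sum_const, nsmul_eq_mul]
    refine mul_le_mul_of_nonneg_left ?_ hk0.le
    refine add_le_add ?_ (mul_le_mul_of_nonneg_right s3 (by positivity))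
    refine mul_le_mul_of_nonneg_left ?_ (by positivity)
    exact add_le_add (mul_le_mul_of_nonneg_left s1 (by positivity))
      (mul_le_mul_of_nonneg_left s2 (by positivity))
  have hlogR : 0 < Real.log (Rx δ x) := Real.log_pos (U.Rx_gt_one δ x hδ1 g5)
  have hlk : Kl ^ k / 8 ^ k ≤ lk D0 δ x ^ k := by
    rw [← div_pow]
    refine pow_le_pow_left₀ (by positivity) ?_ k
    have := U.kl_le D0 δ x hδ1 g5
    rw [div_le_iff₀ (by norm_num)]
    linarith
  -- the three parts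
  set B := ε / 3 * (x / W) * I * (Kl ^ k / 8 ^ k) with hB
  have p1 : k * (C * (x / W) * (Kl ^ (k - 1) * (C' * (c * L + 1)))) ≤ B := by
    have h1 : k * C * C' * 8 ^ k * (c * L + 1) ≤ ε / 3 * I * Kl := by
      have h2 : 6 * k * C * C' * 8 ^ k ≤ ε * I * κ * L := by
        rw [div_le_iff₀ (by positivity)] at g1
        linarith
      have h3 : 6 * k * C * C' * 8 ^ k * c * L ≤ ε * I * κ * L :=
        mul_le_mul_of_nonneg_right hc2 hLpos.le
      rw [hkl]
      nlinarith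
    have h4 : Kl ^ k = Kl ^ (k - 1) * Kl := by
      rw [← pow_succ, Nat.sub_add_cancel hk]
    rw [hB, h4]
    have e1 : k * (C * (x / W) * (Kl ^ (k - 1) * (C' * (c * L + 1)))) =
        (x / W) * Kl ^ (k - 1) / 8 ^ k * (k * C * C' * 8 ^ k * (c * L + 1)) := by
      field_simp
    have e2 : ε / 3 * (x / W) * I * (Kl ^ (k - 1) * Kl / 8 ^ k) =
        (x / W) * Kl ^ (k - 1) / 8 ^ k * (ε / 3 * I * Kl) := by ring
    rw [e1, e2]
    exact mul_le_mul_of_nonneg_left h1 (by positivity)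
  have p2 : k * (C * (x / W) * (Kl ^ k * (1 / (D0 : ℝ)))) ≤ B := by
    have h1 : 3 * k * C * 8 ^ k ≤ ε * I * D0 := by
      have h2 : 3 * k * C * 8 ^ k / (ε * I) ≤ D0 := hM.le.trans (by exact_mod_cast hDM)
      rw [div_le_iff₀ (by positivity)] at h2
      linarith
    have e1 : k * (C * (x / W) * (Kl ^ k * (1 / (D0 : ℝ)))) =
        (x / W) * Kl ^ k / (3 * 8 ^ k * D0) * (3 * k * C * 8 ^ k) := by
      field_simp
    have e2 : B = (x / W) * Kl ^ k / (3 * 8 ^ k * D0) * (ε * I * D0) := by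
      rw [hB]
      field_simp
    rw [e1, e2]
    exact mul_le_mul_of_nonneg_left h1 (by positivity)
  have p3 : k * (x ^ c * x ^ (1 - 3 * δ)) ≤ B := by
    have h1 : x ^ c * x ^ (1 - 3 * δ) ≤ x / x ^ (2 * δ) := by
      rw [← Real.rpow_add hxpos]
      have h2 : x / x ^ (2 * δ) = x ^ (1 - 2 * δ) := by
        rw [Real.rpow_sub hxpos, Real.rpow_one]
      rw [h2]
      exact Real.rpow_le_rpow_of_exponent_le g5.le (by linarith)
    have hx2 : 0 < x ^ (2 * δ) := by positivity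
    have h3 : 3 * k * W * 8 ^ k ≤ ε * I * x ^ (2 * δ) := by
      rw [div_le_iff₀ (by positivity)] at g3
      linarith
    have h4 : 1 ≤ Kl ^ k := one_le_pow₀ hKl1
    calc k * (x ^ c * x ^ (1 - 3 * δ)) ≤ k * (x / x ^ (2 * δ)) :=
          mul_le_mul_of_nonneg_left h1 hk0.le
      _ = x / (3 * W * 8 ^ k * x ^ (2 * δ)) * (3 * k * W * 8 ^ k) := by
          field_simp
      _ ≤ x / (3 * W * 8 ^ k * x ^ (2 * δ)) * (ε * I * x ^ (2 * δ)) :=
          mul_le_mul_of_nonneg_left h3 (by positivity)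
      _ = ε / 3 * (x / W) * I * (1 / 8 ^ k) := by
          field_simp
      _ ≤ B := by
          rw [hB]
          refine mul_le_mul_of_nonneg_left ?_ (by positivity)
          exact div_le_div_of_nonneg_right h4 h8.le
  have htot : ∑ p ∈ FF, ∑ j, S1 w h D0 v0 x (lp p j l) (lp p j l) ≤
      ε * (x * I / W * lk D0 δ x ^ k) := by
    have h1 : ε * (x / W) * I * (Kl ^ k / 8 ^ k) ≤ ε * (x / W) * I * lk D0 δ x ^ k :=
      mul_le_mul_of_nonneg_left hlk (by positivity)
    have h2 : ε * (x / W) * I * lk D0 δ x ^ k = ε * (x * I / W * lk D0 δ x ^ k) := by ring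
    have h3 : 3 * B = ε * (x / W) * I * (Kl ^ k / 8 ^ k) := by rw [hB]; ring
    have h4 : k * (C * (x / W) * (Kl ^ (k - 1) * (C' * (c * L + 1)) + Kl ^ k * (1 / (D0 : ℝ))) +
        x ^ c * x ^ (1 - 3 * δ)) = k * (C * (x / W) * (Kl ^ (k - 1) * (C' * (c * L + 1)))) +
        k * (C * (x / W) * (Kl ^ k * (1 / (D0 : ℝ)))) + k * (x ^ c * x ^ (1 - 3 * δ)) := by ring
    rw [h4] at hsum
    linarith
  have hfin := mul_le_mul_of_nonneg_right htot hlogR.le
  refine hfin.trans (le_of_eq ?_)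
  unfold Nn
  ring

end MPb51559.BG.LF
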