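import Pool.Agent.Work.MP_b51559_nt.LF.AP.Stmts
import Pool.Agent.Work.MP_b51559_nt.BG.C.SZ

set_option autoImplicit false

/-! # Block LF/AP, item LM: sharp bound for the sieve weights -/

namespace MPb51559.BG.LF

open Finset Filter Topology MeasureTheory
open scoped Classical

theorem prf_ALM (hTOT : C_TOT) : A_LM := by
  intro k D0 hD0
  obtain ⟨x0, hx0⟩ := hTOT k D0 hD0
  refine ⟨x0, fun x hx y M hM hy hsupp d => ?_⟩
  have hT := (hx0 x hx).2.1
  have hS : ∀ p ∈ Sx D0 x, p.Prime ∧ 3 ≤ p := by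
    intro p hp
    have h := (Finset.mem_filter.mp hp).2
    refine ⟨h.1, ?_⟩
    have := h.2
    omega
  have hS3 : ∀ p ∈ Sx D0 x, (3 : ℝ) ≤ p := fun p hp => by exact_mod_cast (hS p hp).2
  -- the function `a - 1`
  have haF : ∀ r : Co (Sx D0 x) k, mw (fun p => aP p - 1) r = mw aF r := fun r => rfl
  have hFnn : ∀ r : Co (Sx D0 x) k, 0 ≤ mw aF r := fun r =>
    SZ_nonneg _ (fun p hp => by have := hS3 p hp; simp only [aF]; linarith) r
  -- the sum over `r`
  have hsum : ∑ r ∈ univ.filter (fun r : Co (Sx D0 x) k => Le d r ∧ (nrm r : ℝ) ≤ Real.sqrt x),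
      1 / mw aF r ≤ (1 / mw aF d) * kl D0 x ^ k := by
    have h1 : ∑ r ∈ univ.filter
        (fun r : Co (Sx D0 x) k => Le d r ∧ (nrm r : ℝ) ≤ Real.sqrt x), 1 / mw aF r
        = (1 / mw aF d) * ∑ r ∈ univ.filter
          (fun r : Co (Sx D0 x) k => Le d r ∧ (nrm r : ℝ) ≤ Real.sqrt x),
          1 / mw aF (SZ_rem d r) := by
      rw [Finset.mul_sum]
      refine Finset.sum_congr rfl fun r hr => ?_
      rw [SZ_split _ d r (Finset.mem_filter.mp hr).2.1, div_mul_div_comm, one_mul]
    rw [h1]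
    refine mul_le_mul_of_nonneg_left ?_ (div_nonneg zero_le_one (hFnn d))
    refine le_trans ?_ hT
    have h2 : ∑ r ∈ univ.filter
        (fun r : Co (Sx D0 x) k => Le d r ∧ (nrm r : ℝ) ≤ Real.sqrt x), 1 / mw aF (SZ_rem d r)
        = ∑ v ∈ (univ.filter
          (fun r : Co (Sx D0 x) k => Le d r ∧ (nrm r : ℝ) ≤ Real.sqrt x)).image (SZ_rem d),
          1 / mw aF v := by
      rw [Finset.sum_image]
      intro r hr r' hr' he
      exact SZ_inj d r r' (Finset.mem_filter.mp hr).2.1 (Finset.mem_filter.mp hr').2.1 he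
    rw [h2]
    refine Finset.sum_le_sum_of_subset_of_nonneg ?_ fun v _ _ =>
      div_nonneg zero_le_one (hFnn v)
    intro v hv
    obtain ⟨r, hr, rfl⟩ := Finset.mem_image.mp hv
    refine Finset.mem_filter.mpr ⟨Finset.mem_univ _, ?_⟩
    refine le_trans ?_ (Finset.mem_filter.mp hr).2.2
    exact_mod_cast SZ_nrm (fun p hp => (hS p hp).1.one_le) d r
  -- the weight
  have hA : 0 ≤ mw aP d :=
    SZ_nonneg _ (fun p hp => by have := hS3 p hp; simp only [aP]; linarith) d
  have habs : |∑ r ∈ univ.filter (fun r => Le d r), y r / mw (fun p => aP p - 1) r|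
      ≤ M * ∑ r ∈ univ.filter
        (fun r : Co (Sx D0 x) k => Le d r ∧ (nrm r : ℝ) ≤ Real.sqrt x), 1 / mw aF r := by
    refine (Finset.abs_sum_le_sum_abs _ _).trans ?_
    rw [Finset.mul_sum]
    have h1 : ∑ r ∈ univ.filter (fun r => Le d r), |y r / mw (fun p => aP p - 1) r|
        = ∑ r ∈ univ.filter
          (fun r : Co (Sx D0 x) k => Le d r ∧ (nrm r : ℝ) ≤ Real.sqrt x),
          |y r / mw (fun p => aP p - 1) r| := by
      symm
      refine Finset.sum_subset ?_ fun r hr hr' => ?_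
      · intro r hr
        exact Finset.mem_filter.mpr ⟨Finset.mem_univ _, (Finset.mem_filter.mp hr).2.1⟩
      · have h2 : y r = 0 := by
          by_contra h3
          exact hr' (Finset.mem_filter.mpr ⟨Finset.mem_univ _, (Finset.mem_filter.mp hr).2,
            hsupp r h3⟩)
        rw [h2, zero_div, abs_zero]
    rw [h1]
    refine Finset.sum_le_sum fun r _ => ?_
    rw [haF, abs_div, abs_of_nonneg (hFnn r), mul_one_div]
    exact div_le_div_of_nonneg_right (hy r) (hFnn r)
  have h2 : mw aP d / mw aF d ≤ mw (fun _ => (2 : ℝ)) d := by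
    rw [SZ_div]
    refine SZ_mono _ _ (fun p hp => ?_) d
    have e1 := hS3 p hp
    simp only [aP, aF]
    refine ⟨div_nonneg (by linarith) (by linarith), ?_⟩
    rw [div_le_iff₀ (by linarith)]
    linarith
  have hkl : 0 ≤ kl D0 x ^ k := by
    refine le_trans ?_ hT
    exact Finset.sum_nonneg fun r _ => div_nonneg zero_le_one (hFnn r)
  rw [lam, abs_mul, abs_mul, SZ_neg, one_mul, abs_of_nonneg hA]
  calc mw aP d * |∑ r ∈ univ.filter (fun r => Le d r), y r / mw (fun p => aP p - 1) r|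
      ≤ mw aP d * (M * ((1 / mw aF d) * kl D0 x ^ k)) := by
        refine mul_le_mul_of_nonneg_left (habs.trans ?_) hA
        exact mul_le_mul_of_nonneg_left hsum hM
    _ = M * kl D0 x ^ k * (mw aP d / mw aF d) := by ring
    _ ≤ M * kl D0 x ^ k * mw (fun _ => 2) d :=
        mul_le_mul_of_nonneg_left h2 (mul_nonneg hM hkl)

end MPb51559.BG.LF
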