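import Pool.Agent.Work.MP_b51559_nt.LF.AP.Stmts
import Pool.Agent.Work.MP_b51559_nt.BG.C.Util

set_option autoImplicit false

/-!
# Block LF/AP, item QB: the quadratic form of `lp`
-/

namespace MPb51559.BG.LF

open Finset Filter Topology MeasureTheory
open scoped Classical

namespace I_QB

variable {S : Finset ℕ} {k : ℕ}

theorem mw_pt (g : ℕ → ℝ) (p : {p // p ∈ S}) (i : Fin k) (u : Co S k) (hu : u p = none) :
    mw g (pt p i u) = g p * mw g u := by
  unfold mw
  have h1 : ∀ q : {p // p ∈ S}, (if pt p i u q = none then (1 : ℝ) else g q) =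
      (if q = p then g q else 1) * (if u q = none then 1 else g q) := by
    intro q
    unfold pt
    by_cases hq : q = p
    · subst hq
      rw [Function.update_self, if_neg (by simp), if_pos rfl, hu, if_pos rfl, mul_one]
    · rw [Function.update_of_ne hq, if_neg hq, one_mul]
  rw [Finset.prod_congr rfl fun q _ => h1 q, Finset.prod_mul_distrib,
    Finset.prod_ite_eq' Finset.univ p (fun q => g q), if_pos (Finset.mem_univ p)]

theorem er_pt (p : {p // p ∈ S}) (i : Fin k) (u : Co S k) (hu : u p = none) :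
    er p (pt p i u) = u := by
  unfold er pt
  rw [Function.update_idem, ← hu, Function.update_eq_self]

theorem pt_self (p : {p // p ∈ S}) (i : Fin k) (u : Co S k) : pt p i u p = some i := by
  unfold pt
  rw [Function.update_self]

/-- the computation with real numbers -/
theorem real_le (D F M P K : ℝ) (hP : 1 < P) (hF : 0 < F) (hM : 0 < M) (hK : K ≤ P) :
    (D / P) ^ 2 * M / F + (-((P - 1) / P * D)) ^ 2 * ((1 + K / (P - 1)) * M) / ((P - 1) * F) ≤
      2 / P * (D ^ 2 * M / F) := by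
  have h0 : 0 < P := by linarith
  have h1 : 0 < P - 1 := by linarith
  have h2 : (D / P) ^ 2 * M / F + (-((P - 1) / P * D)) ^ 2 * ((1 + K / (P - 1)) * M) /
      ((P - 1) * F) = (P + K) / P ^ 2 * (D ^ 2 * M / F) := by
    field_simp
    ring
  rw [h2]
  refine mul_le_mul_of_nonneg_right ?_ (by positivity)
  rw [div_le_div_iff₀ (by positivity) h0]
  nlinarith

end I_QB

open I_QB

theorem prf_AQB (hINV : C_INV) (hQN : C_QN) (hSP : A_SP) (hYT : A_YT) : A_QB := by
  intro S k hS p j y
  have hS1 : ∀ q ∈ S, (1 : ℝ) < (q : ℝ) := fun q hq => by exact_mod_cast (hS q hq).1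
  have ha : ∀ q ∈ S, aP q ≠ 0 ∧ aP q - 1 ≠ 0 := by
    intro q hq
    have h1 := hS1 q hq
    constructor
    · show (q : ℝ) ≠ 0
      linarith
    · show (q : ℝ) - 1 ≠ 0
      linarith
  obtain ⟨l, hl⟩ : ∃ l : Co S k → ℝ, l = lp p j (lam aP y) := ⟨_, rfl⟩
  obtain ⟨z, hz⟩ : ∃ z : Co S k → ℝ, z = ytr aP l := ⟨_, rfl⟩
  have hlz : lam aP z = l := by rw [hz]; exact (hINV S k aP ha l).2
  have hzu : ∀ u, z u = if u p = none then dy p j y u / p else
      if u p = some j then -(((p : ℝ) - 1) / p * dy p j y (er p u)) else 0 := by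
    intro u
    rw [hz, hl]
    exact hYT S k (fun q hq => (hS q hq).1) p j y u
  have hq := hQN S k aP (fun q hq => hS1 q hq) z
  rw [hlz] at hq
  rw [← hl]
  obtain ⟨f, hf⟩ : ∃ f : Co S k → ℝ, f = fun r => z r ^ 2 *
    mw (fun q => 1 + (k : ℝ) / ((q : ℝ) - 1)) r / mw aF r := ⟨_, rfl⟩
  have h1 : Qf aP l l ≤ ∑ r, f r := by
    have h2 := (abs_le.1 hq).2
    have h3 : ∑ r, f r = ∑ r, z r ^ 2 / mw (fun p => aP p - 1) r +
        ∑ r, z r ^ 2 / mw (fun p => aP p - 1) r *
          (mw (fun p => 1 + (k : ℝ) / (aP p - 1)) r - 1) := by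
      rw [← Finset.sum_add_distrib]
      refine Finset.sum_congr rfl fun r _ => ?_
      have h4 : mw (fun p => aP p - 1) r = mw aF r := rfl
      have h5 : mw (fun p => 1 + (k : ℝ) / (aP p - 1)) r =
        mw (fun q => 1 + (k : ℝ) / ((q : ℝ) - 1)) r := rfl
      rw [hf, h4, h5]
      ring
    rw [h3]
    linarith
  refine h1.trans ?_
  rw [hSP S k p f, Finset.mul_sum]
  refine Finset.sum_le_sum fun u hu => ?_
  have hu' : u p = none := (Finset.mem_filter.1 hu).2
  have h6 : ∑ i, f (pt p i u) = f (pt p j u) := by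
    refine Finset.sum_eq_single j (fun i _ hij => ?_) (fun h => absurd (Finset.mem_univ j) h)
    rw [hf]
    simp only
    rw [hzu, pt_self, if_neg (by simp), if_neg (by simpa using hij)]
    simp
  rw [h6, hf]
  simp only
  rw [hzu u, if_pos hu', hzu (pt p j u), pt_self, if_neg (by simp), if_pos rfl, er_pt p j u hu',
    mw_pt _ p j u hu', mw_pt _ p j u hu']
  have hP : (1 : ℝ) < ((p : ℕ) : ℝ) := hS1 p p.2
  have hK : (k : ℝ) ≤ ((p : ℕ) : ℝ) := by exact_mod_cast (hS p p.2).2
  have hF : 0 < mw aF u := U.mw_pos u fun q hq => by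
    have := hS1 q hq
    show (0 : ℝ) < (q : ℝ) - 1
    linarith
  have hM : 0 < mw (fun q => 1 + (k : ℝ) / ((q : ℝ) - 1)) u := U.mw_pos u fun q hq => by
    have := hS1 q hq
    have h7 : 0 ≤ (k : ℝ) / ((q : ℝ) - 1) := div_nonneg (Nat.cast_nonneg k) (by linarith)
    linarith
  exact real_le (dy p j y u) (mw aF u) _ (p : ℝ) (k : ℝ) hP hF hM hK

end MPb51559.BG.LF
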