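import Pool.Agent.Work.MP_b51559_nt.LF.AP.Stmts

set_option autoImplicit false

/-! Item SH (helper70): short logarithmic sums of the one dimensional weight. -/

namespace MPb51559.BG.LF

open Finset Filter Topology MeasureTheory
open scoped Classical

namespace I_SH

noncomputable def rho (k q : ℕ) : ℝ := (((k : ℝ) + 1) * q - 1) / ((q : ℝ) - 1) ^ 2

lemma rho_nonneg (k q : ℕ) (hq : 2 ≤ q) : 0 ≤ rho k q := by
  have h1 : (2 : ℝ) ≤ q := by exact_mod_cast hq
  have h2 : (0 : ℝ) ≤ k := Nat.cast_nonneg k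
  unfold rho
  refine div_nonneg ?_ (sq_nonneg _)
  nlinarith

lemma rho_le (k q : ℕ) (hq : 2 ≤ q) :
    rho k q / q ≤ 4 * ((k : ℝ) + 1) * (1 / (q : ℝ) ^ 2) := by
  have h1 : (2 : ℝ) ≤ q := by exact_mod_cast hq
  have h2 : (0 : ℝ) ≤ k := Nat.cast_nonneg k
  have hq0 : (0 : ℝ) < q := by linarith
  have hq1 : (0 : ℝ) < (q : ℝ) - 1 := by linarith
  have h3 : rho k q ≤ 4 * ((k : ℝ) + 1) / q := by
    unfold rho
    rw [div_le_div_iff₀ (by positivity) hq0]
    have h4 : (q : ℝ) ^ 2 ≤ 4 * ((q : ℝ) - 1) ^ 2 := by nlinarith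
    have h5 := mul_le_mul_of_nonneg_left h4 (by linarith : (0 : ℝ) ≤ (k : ℝ) + 1)
    nlinarith
  calc rho k q / q ≤ 4 * ((k : ℝ) + 1) / q / q := div_le_div_of_nonneg_right h3 hq0.le
    _ = 4 * ((k : ℝ) + 1) * (1 / (q : ℝ) ^ 2) := by
      field_simp

lemma fac (k q : ℕ) (hq : 2 ≤ q) :
    (1 + (k : ℝ) / ((q : ℝ) - 1)) / ((q : ℝ) - 1) = (1 + rho k q) / q := by
  have h1 : (2 : ℝ) ≤ q := by exact_mod_cast hq
  have hq0 : (q : ℝ) ≠ 0 := by linarith
  have hq1 : (q : ℝ) - 1 ≠ 0 := by linarith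
  unfold rho
  field_simp
  ring

lemma gk_eq (k n : ℕ) (hn : Squarefree n) :
    gk k n = (1 / (n : ℝ)) * ∑ A ∈ n.primeFactors.powerset, ∏ q ∈ A, rho k q := by
  have h1 : ∀ q ∈ n.primeFactors, (1 + (k : ℝ) / ((q : ℝ) - 1)) / ((q : ℝ) - 1) =
      (1 + rho k q) / q := fun q hq => fac k q (Nat.prime_of_mem_primeFactors hq).two_le
  rw [gk, prod_congr rfl h1, prod_div_distrib, prod_one_add]
  have h2 : (∏ q ∈ n.primeFactors, (q : ℝ)) = n := by
    rw [← Nat.cast_prod, Nat.prod_primeFactors_of_squarefree hn]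
  rw [h2, one_div, inv_mul_eq_div]

lemma harm (a b : ℕ) (ha : 1 ≤ a) (hab : a ≤ b) :
    ∑ m ∈ Ioc a b, 1 / (m : ℝ) ≤ Real.log b - Real.log a := by
  induction b, hab using Nat.le_induction with
  | base => simp
  | succ b hab ih =>
    rw [← Finset.insert_Ioc_right_eq_Ioc_add_one (by omega), sum_insert (by simp)]
    have hb : (0 : ℝ) < b := by exact_mod_cast (by omega : 0 < b)
    have h1 := Real.one_sub_inv_le_log_of_pos (x := ((b + 1 : ℕ) : ℝ) / b) (by positivity)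
    rw [Real.log_div (by positivity) (by positivity)] at h1
    have h2 : 1 - (((b + 1 : ℕ) : ℝ) / b)⁻¹ = 1 / ((b + 1 : ℕ) : ℝ) := by
      push_cast
      field_simp
      ring
    rw [h2] at h1
    linarith

lemma win (T : Finset ℕ) (a L : ℝ) (hL : 0 ≤ L)
    (h : ∀ m ∈ T, 1 ≤ m ∧ a ≤ Real.log m ∧ Real.log m ≤ a + L) :
    ∑ m ∈ T, 1 / (m : ℝ) ≤ 1 + L := by
  rcases T.eq_empty_or_nonempty with rfl | hne
  · simp only [sum_empty]
    linarith
  · set m₀ := T.min' hne with hm₀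
    set M := T.max' hne with hM
    have h0 := h m₀ (T.min'_mem hne)
    have h1 := h M (T.max'_mem hne)
    have hle : m₀ ≤ M := T.min'_le M (T.max'_mem hne)
    have hsub : T ⊆ insert m₀ (Ioc m₀ M) := by
      intro m hm
      have h2 := T.min'_le m hm
      have h3 := T.le_max' m hm
      rw [mem_insert, mem_Ioc]
      omega
    calc ∑ m ∈ T, 1 / (m : ℝ) ≤ ∑ m ∈ insert m₀ (Ioc m₀ M), 1 / (m : ℝ) :=
          sum_le_sum_of_subset_of_nonneg hsub fun _ _ _ => by positivity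
      _ = 1 / (m₀ : ℝ) + ∑ m ∈ Ioc m₀ M, 1 / (m : ℝ) := sum_insert (by simp)
      _ ≤ 1 + (Real.log M - Real.log m₀) := by
          refine add_le_add ?_ (harm m₀ M h0.1 hle)
          have : (1 : ℝ) ≤ m₀ := by exact_mod_cast h0.1
          rw [div_le_one (by linarith)]
          exact this
      _ ≤ 1 + L := by linarith [h0.2.1, h1.2.2]

lemma winc (T : Finset ℕ) (a L : ℝ) (hL : 0 ≤ L) (c : ℕ) (hc : 1 ≤ c)
    (h : ∀ m ∈ T, 1 ≤ m ∧ a ≤ Real.log m ∧ Real.log m ≤ a + L) (hd : ∀ m ∈ T, c ∣ m) :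
    ∑ m ∈ T, 1 / (m : ℝ) ≤ (1 + L) / c := by
  have hc0 : (0 : ℝ) < c := by exact_mod_cast hc
  have hinj : Set.InjOn (fun m => m / c) (T : Set ℕ) := by
    intro m hm m' hm' he
    obtain ⟨u, rfl⟩ := hd m hm
    obtain ⟨u', rfl⟩ := hd m' hm'
    simp only [Nat.mul_div_cancel_left _ (by omega : 0 < c)] at he
    rw [he]
  have h1 : ∑ m ∈ T, 1 / (m : ℝ) = (∑ m ∈ T.image (fun m => m / c), 1 / (m : ℝ)) / c := by
    rw [sum_image fun x hx y hy he => hinj hx hy he, sum_div]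
    refine sum_congr rfl fun m hm => ?_
    obtain ⟨u, rfl⟩ := hd m hm
    rw [Nat.mul_div_cancel_left _ (by omega : 0 < c)]
    push_cast
    rw [div_div, mul_comm]
  rw [h1]
  refine div_le_div_of_nonneg_right (win _ (a - Real.log c) L hL fun m hm => ?_) hc0.le
  obtain ⟨n, hn, rfl⟩ := mem_image.1 hm
  obtain ⟨u, rfl⟩ := hd n hn
  have h2 := h _ hn
  simp only [Nat.mul_div_cancel_left _ (by omega : 0 < c)]
  have hu : 1 ≤ u := by
    rcases Nat.eq_zero_or_pos u with h0 | h0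
    · rw [h0] at h2
      omega
    · exact h0
  have hu0 : (0 : ℝ) < u := by exact_mod_cast hu
  have h3 : Real.log ((c * u : ℕ) : ℝ) = Real.log c + Real.log u := by
    push_cast
    rw [Real.log_mul hc0.ne' hu0.ne']
  rw [h3] at h2
  exact ⟨hu, by linarith [h2.2.1], by linarith [h2.2.2]⟩

end I_SH

open I_SH in
/-- **SH** -/
theorem prf_ASH : A_SH := by
  intro k
  have hsum : Summable fun n : ℕ => 1 / (n : ℝ) ^ 2 :=
    Real.summable_one_div_nat_pow.2 (by norm_num)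
  refine ⟨Real.exp (4 * ((k : ℝ) + 1) * ∑' n : ℕ, 1 / (n : ℝ) ^ 2), Real.exp_pos _, ?_⟩
  intro S hS z L v hL
  set W := (SqF S z).filter (fun n : ℕ => v - L ≤ Real.log n ∧ Real.log n ≤ v) with hW
  have hmem : ∀ n ∈ W, 1 ≤ n ∧ Squarefree n ∧ (∀ p, p.Prime → p ∣ n → p ∈ S) ∧
      v - L ≤ Real.log n ∧ Real.log n ≤ v := by
    intro n hn
    rw [hW, mem_filter, SqF, mem_filter, mem_Icc] at hn
    exact ⟨hn.1.1.1, hn.1.2.1, hn.1.2.2, hn.2⟩
  have hrho : ∀ A ∈ S.powerset, 0 ≤ ∏ q ∈ A, rho k q := fun A hA =>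
    prod_nonneg fun q hq => rho_nonneg k q (hS q (mem_powerset.1 hA hq)).two_le
  have h1 : ∀ n ∈ W, gk k n ≤
      ∑ A ∈ S.powerset, if (∏ q ∈ A, q) ∣ n then (∏ q ∈ A, rho k q) * (1 / (n : ℝ)) else 0 := by
    intro n hn
    obtain ⟨hn1, hn2, hn3, _⟩ := hmem n hn
    rw [gk_eq k n hn2, ← sum_filter, mul_sum]
    have hsub : n.primeFactors.powerset ⊆ S.powerset.filter fun A => (∏ q ∈ A, q) ∣ n := by
      intro A hA
      rw [mem_powerset] at hA
      rw [mem_filter, mem_powerset]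
      refine ⟨fun q hq => ?_, ?_⟩
      · have := hA hq
        exact hn3 q (Nat.prime_of_mem_primeFactors this) (Nat.dvd_of_mem_primeFactors this)
      · have h2 := Nat.prod_primeFactors_of_squarefree hn2
        calc (∏ q ∈ A, q) ∣ ∏ q ∈ n.primeFactors, q := prod_dvd_prod_of_subset _ _ _ hA
          _ = n := h2
          _ ∣ n := dvd_rfl
    calc ∑ A ∈ n.primeFactors.powerset, 1 / (n : ℝ) * ∏ q ∈ A, rho k q ≤
        ∑ A ∈ S.powerset.filter (fun A => (∏ q ∈ A, q) ∣ n), 1 / (n : ℝ) * ∏ q ∈ A, rho k q :=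
          sum_le_sum_of_subset_of_nonneg hsub fun A hA _ =>
            mul_nonneg (by positivity) (hrho A (mem_filter.1 hA).1)
      _ = _ := sum_congr rfl fun A _ => mul_comm _ _
  have h2 : ∀ A ∈ S.powerset, ∑ n ∈ W, (if (∏ q ∈ A, q) ∣ n then
      (∏ q ∈ A, rho k q) * (1 / (n : ℝ)) else 0) ≤
      (1 + L) * ∏ q ∈ A, (rho k q / q) := by
    intro A hA
    rw [← sum_filter, ← mul_sum]
    have hc : 1 ≤ ∏ q ∈ A, q := Nat.one_le_iff_ne_zero.2
      (prod_ne_zero_iff.2 fun q hq => (hS q (mem_powerset.1 hA hq)).ne_zero)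
    have h3 := winc (W.filter fun n => (∏ q ∈ A, q) ∣ n) (v - L) L hL (∏ q ∈ A, q) hc
      (fun n hn => by
        obtain ⟨hn1, _, _, hn4, hn5⟩ := hmem n (mem_filter.1 hn).1
        exact ⟨hn1, hn4, by linarith⟩)
      (fun n hn => (mem_filter.1 hn).2)
    refine (mul_le_mul_of_nonneg_left h3 (hrho A hA)).trans (le_of_eq ?_)
    rw [prod_div_distrib, Nat.cast_prod]
    ring
  calc ∑ n ∈ W, gk k n ≤ ∑ n ∈ W, ∑ A ∈ S.powerset, (if (∏ q ∈ A, q) ∣ n then
      (∏ q ∈ A, rho k q) * (1 / (n : ℝ)) else 0) := sum_le_sum h1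
    _ = ∑ A ∈ S.powerset, ∑ n ∈ W, (if (∏ q ∈ A, q) ∣ n then
      (∏ q ∈ A, rho k q) * (1 / (n : ℝ)) else 0) := sum_comm
    _ ≤ ∑ A ∈ S.powerset, (1 + L) * ∏ q ∈ A, (rho k q / q) := sum_le_sum h2
    _ = (1 + L) * ∏ q ∈ S, (1 + rho k q / q) := by rw [← mul_sum, prod_one_add]
    _ ≤ (1 + L) * Real.exp (4 * ((k : ℝ) + 1) * ∑' n : ℕ, 1 / (n : ℝ) ^ 2) := by
        refine mul_le_mul_of_nonneg_left ?_ (by linarith)
        calc ∏ q ∈ S, (1 + rho k q / q) ≤ ∏ q ∈ S, Real.exp (rho k q / q) := by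
              refine prod_le_prod (fun q hq => ?_) fun q hq => ?_
              · have := rho_nonneg k q (hS q hq).two_le
                positivity
              · rw [add_comm]
                exact Real.add_one_le_exp _
          _ = Real.exp (∑ q ∈ S, rho k q / q) := (Real.exp_sum _ _).symm
          _ ≤ _ := by
              refine Real.exp_le_exp.2 ?_
              calc ∑ q ∈ S, rho k q / q ≤ ∑ q ∈ S, 4 * ((k : ℝ) + 1) * (1 / (q : ℝ) ^ 2) :=
                    sum_le_sum fun q hq => rho_le k q (hS q hq).two_le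
                _ = 4 * ((k : ℝ) + 1) * ∑ q ∈ S, 1 / (q : ℝ) ^ 2 := by rw [mul_sum]
                _ ≤ _ := mul_le_mul_of_nonneg_left
                    (hsum.sum_le_tsum S fun _ _ => by positivity) (by positivity)
    _ = _ := by ring

end MPb51559.BG.LF
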