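import Pool.Agent.Work.MP_b51559_nt.LF.AP.Stmts

set_option autoImplicit false

/-!
# Block LF/AP, item SP: sum over colourings split by the colour of a prime
-/

namespace MPb51559.BG.LF

open Finset Filter Topology MeasureTheory
open scoped Classical

theorem prf_ASP : A_SP := by
  intro S k p f
  have h1 : ∑ u, f u = ∑ o : Option (Fin k), ∑ u ∈ univ.filter (fun u : Co S k => u p = o), f u :=
    (Finset.sum_fiberwise univ (fun u : Co S k => u p) f).symm
  rw [h1, Fintype.sum_option, Finset.sum_add_distrib]
  congr 1
  rw [Finset.sum_comm]
  apply Finset.sum_congr rfl
  intro i _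
  apply Finset.sum_nbij' (fun u => er p u) (fun u => pt p i u)
  · intro u _
    simp [er]
  · intro u _
    simp [pt]
  · intro u hu
    simp only [Finset.mem_filter, Finset.mem_univ, true_and] at hu
    unfold er pt
    rw [Function.update_idem, ← hu, Function.update_eq_self]
  · intro u hu
    simp only [Finset.mem_filter, Finset.mem_univ, true_and] at hu
    unfold er pt
    rw [Function.update_idem, ← hu, Function.update_eq_self]
  · intro u hu
    simp only [Finset.mem_filter, Finset.mem_univ, true_and] at hu
    congr 1
    unfold er pt
    rw [Function.update_idem, ← hu, Function.update_eq_self]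

end MPb51559.BG.LF
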