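import Pool.Agent.Work.MP_b51559_nt.LF.AP.Stmts

set_option autoImplicit false

/-!
# Block LF/AP, item V1 (helper56): shifts of a function of bounded variation
-/

namespace MPb51559.BG.LF

open Finset Filter Topology MeasureTheory
open scoped Classical

namespace I_V1

/-- the variation up to `s` -/
noncomputable def Pv (f : ℝ → ℝ) (s : ℝ) : ℝ := (eVariationOn f (Set.Iic s)).toReal

theorem fin {V : NNReal} {f : ℝ → ℝ} (hV : eVariationOn f Set.univ ≤ V) (s : Set ℝ) :
    eVariationOn f s ≠ ⊤ :=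
  ne_top_of_le_ne_top ENNReal.coe_ne_top ((eVariationOn.mono f (Set.subset_univ s)).trans hV)

theorem Pv_nonneg (f : ℝ → ℝ) (s : ℝ) : 0 ≤ Pv f s := ENNReal.toReal_nonneg

theorem Pv_le {V : NNReal} {f : ℝ → ℝ} (hV : eVariationOn f Set.univ ≤ V) (s : ℝ) :
    Pv f s ≤ V := by
  have h1 : eVariationOn f (Set.Iic s) ≤ (V : ENNReal) :=
    (eVariationOn.mono f (Set.subset_univ _)).trans hV
  have h2 := ENNReal.toReal_mono ENNReal.coe_ne_top h1
  rw [ENNReal.coe_toReal] at h2
  exact h2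

theorem Pv_add {V : NNReal} {f : ℝ → ℝ} (hV : eVariationOn f Set.univ ≤ V) {a b : ℝ}
    (hab : a ≤ b) : |f a - f b| ≤ Pv f b - Pv f a := by
  have h1 : eVariationOn f (Set.Iic b) =
      eVariationOn f (Set.Iic a) + eVariationOn f (Set.Icc a b) := by
    rw [← eVariationOn.union f (s := Set.Iic a) (t := Set.Icc a b) (x := a) isGreatest_Iic
      (isLeast_Icc hab), Set.Iic_union_Icc_eq_Iic hab]
  have h2 : Pv f b = Pv f a + (eVariationOn f (Set.Icc a b)).toReal := by
    rw [Pv, h1, ENNReal.toReal_add (fin hV _) (fin hV _), Pv]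
  have h3 : edist (f a) (f b) ≤ eVariationOn f (Set.Icc a b) :=
    eVariationOn.edist_le f (Set.left_mem_Icc.2 hab) (Set.right_mem_Icc.2 hab)
  have h4 := ENNReal.toReal_mono (fin hV _) h3
  rw [← dist_edist, Real.dist_eq] at h4
  rw [h2]
  linarith

theorem Pv_mono {V : NNReal} {f : ℝ → ℝ} (hV : eVariationOn f Set.univ ≤ V) :
    Monotone (Pv f) := by
  intro a b hab
  have := Pv_add hV hab
  have h2 := abs_nonneg (f a - f b)
  linarith

theorem core (A : Finset ℕ) (g t : ℕ → ℝ) (η B V : ℝ) (P : ℝ → ℝ) (hP : Monotone P)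
    (hP0 : ∀ s, 0 ≤ P s) (hPV : ∀ s, P s ≤ V) (hη : 0 ≤ η) (hg : ∀ n ∈ A, 0 ≤ g n)
    (hB : ∀ v : ℝ, ∑ n ∈ A.filter (fun n => v - η ≤ t n ∧ t n ≤ v), g n ≤ B) :
    ∑ n ∈ A, g n * (P (t n + η) - P (t n)) ≤ B * V := by
  have hB0 : 0 ≤ B :=
    (Finset.sum_nonneg (fun n hn => hg n (Finset.mem_filter.1 hn).1)).trans (hB 0)
  have hV0 : 0 ≤ V := (hP0 0).trans (hPV 0)
  have hpt : ∀ c : ℝ, ∑ n ∈ A, (Set.Ioc (P (t n)) (P (t n + η))).indicator (fun _ => g n) c ≤
      (Set.Ioc 0 V).indicator (fun _ => B) c := by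
    intro c
    have h1 : ∑ n ∈ A, (Set.Ioc (P (t n)) (P (t n + η))).indicator (fun _ => g n) c =
        ∑ n ∈ A.filter (fun n => c ∈ Set.Ioc (P (t n)) (P (t n + η))), g n := by
      rw [Finset.sum_filter]
      refine Finset.sum_congr rfl fun n _ => ?_
      rw [Set.indicator_apply]
    rw [h1]
    rcases (A.filter (fun n => c ∈ Set.Ioc (P (t n)) (P (t n + η)))).eq_empty_or_nonempty with
      h2 | h2
    · rw [h2, Finset.sum_empty]
      exact Set.indicator_nonneg (fun _ _ => hB0) c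
    · obtain ⟨m, hm, hmax⟩ := Finset.exists_max_image _ t h2
      rw [Finset.mem_filter] at hm
      have h3 : c ∈ Set.Ioc 0 V := ⟨(hP0 _).trans_lt hm.2.1, hm.2.2.trans (hPV _)⟩
      rw [Set.indicator_of_mem h3]
      refine le_trans ?_ (hB (t m))
      refine Finset.sum_le_sum_of_subset_of_nonneg ?_ ?_
      · intro n hn
        have h4 := hmax n hn
        rw [Finset.mem_filter] at hn ⊢
        refine ⟨hn.1, ?_, h4⟩
        by_contra h5
        push Not at h5
        have h6 : P (t n + η) ≤ P (t m) := hP (by linarith)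
        have h7 := hn.2.2
        have h8 := hm.2.1
        linarith
      · intro n hn _
        exact hg n (Finset.mem_filter.1 hn).1
  have hint : ∀ (a b e : ℝ), Integrable ((Set.Ioc a b).indicator (fun _ => e)) := by
    intro a b e
    rw [integrable_indicator_iff measurableSet_Ioc]
    exact integrableOn_const (by rw [Real.volume_Ioc]; exact ENNReal.ofReal_ne_top)
  have hval : ∀ (a b e : ℝ), a ≤ b → ∫ c, (Set.Ioc a b).indicator (fun _ => e) c = (b - a) * e := by
    intro a b e hab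
    rw [integral_indicator_const e measurableSet_Ioc, Real.volume_real_Ioc_of_le hab, smul_eq_mul]
  have h5 : ∫ c, ∑ n ∈ A, (Set.Ioc (P (t n)) (P (t n + η))).indicator (fun _ => g n) c ≤
      ∫ c, (Set.Ioc 0 V).indicator (fun _ => B) c :=
    integral_mono (integrable_finsetSum _ fun n _ => hint _ _ _) (hint _ _ _) hpt
  rw [integral_finsetSum _ (fun n _ => hint _ _ _), hval 0 V B hV0] at h5
  have h6 : ∑ n ∈ A, ∫ c, (Set.Ioc (P (t n)) (P (t n + η))).indicator (fun _ => g n) c =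
      ∑ n ∈ A, g n * (P (t n + η) - P (t n)) := by
    refine Finset.sum_congr rfl fun n _ => ?_
    rw [hval _ _ _ (hP (by linarith)), mul_comm]
  rw [h6] at h5
  linarith

end I_V1

theorem prf_AV1 : A_V1 := by
  intro A g t η B V f hη hg hB hV
  refine le_trans (Finset.sum_le_sum fun n hn => ?_)
    (I_V1.core A g t η B V (I_V1.Pv f) (I_V1.Pv_mono hV) (I_V1.Pv_nonneg f)
      (I_V1.Pv_le hV) hη hg hB)
  exact mul_le_mul_of_nonneg_left (I_V1.Pv_add hV (by linarith)) (hg n hn)

end MPb51559.BG.LF
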