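import Pool.Agent.Work.MP_b51559_nt.LF.AP.Stmts
import Pool.Agent.Work.MP_b51559_nt.LF.Util

set_option autoImplicit false

/-! # Block LF/AP, item VB: the sieve sum at a good number -/

namespace MPb51559.BG.LF

open Finset Filter Topology MeasureTheory
open scoped Classical

namespace I_VB

/-- the primes of the sieve which divide the value of the form `j` -/
noncomputable def Vj {k : ℕ} (h : Fin k → ℕ × ℕ) (D0 : ℕ) (x : ℝ) (n : ℕ) (j : Fin k) : Finset ℕ :=
  (Sx D0 x).filter (fun p => p ∣ lf (h j) n)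

theorem card_Vj (k : ℕ) (h : Fin k → ℕ × ℕ) (hA : AdmL h) (c : ℝ) (hc : 0 < c) :
    ∃ x0 : ℝ, ∀ x ≥ x0, ∀ D0 n : ℕ, 0 < n → (n : ℝ) ≤ 2 * x → ¬ Bad h D0 x c n →
      ∀ j, (Vj h D0 x n j).card ≤ ⌊2 / c⌋₊ := by
  refine ⟨2 * (∑ i, ((h i).1 : ℝ)) + (∑ i, ((h i).2 : ℝ)) + 2, ?_⟩
  intro x hx D0 n hn hnx hbad j
  have hA0 : 0 ≤ ∑ i, ((h i).1 : ℝ) := Finset.sum_nonneg fun _ _ => Nat.cast_nonneg _
  have hB0 : 0 ≤ ∑ i, ((h i).2 : ℝ) := Finset.sum_nonneg fun _ _ => Nat.cast_nonneg _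
  have hx1 : 1 < x := by linarith
  have hAj : ((h j).1 : ℝ) ≤ ∑ i, ((h i).1 : ℝ) :=
    Finset.single_le_sum (f := fun i => ((h i).1 : ℝ)) (fun _ _ => Nat.cast_nonneg _) (mem_univ j)
  have hBj : ((h j).2 : ℝ) ≤ ∑ i, ((h i).2 : ℝ) :=
    Finset.single_le_sum (f := fun i => ((h i).2 : ℝ)) (fun _ _ => Nat.cast_nonneg _) (mem_univ j)
  have hlf : (lf (h j) n : ℝ) ≤ x ^ 2 := by
    unfold lf
    push_cast
    have h1 : ((h j).1 : ℝ) * n ≤ (∑ i, ((h i).1 : ℝ)) * (2 * x) :=
      mul_le_mul hAj hnx (Nat.cast_nonneg _) hA0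
    have h2 : ((h j).2 : ℝ) ≤ (∑ i, ((h i).2 : ℝ)) * x := by nlinarith
    nlinarith
  have hpos : 0 < lf (h j) n := by
    unfold lf
    have := Nat.mul_pos (hA.pos j) hn
    omega
  have hdvd : ∏ p ∈ Vj h D0 x n j, p ∣ lf (h j) n := by
    refine Finset.prod_primes_dvd _ (fun p hp => ?_) (fun p hp => ?_)
    · have h1 := (Finset.mem_filter.1 hp).1
      unfold Sx at h1
      exact (Finset.mem_filter.1 h1).2.1.prime
    · exact (Finset.mem_filter.1 hp).2
  have hle : ((∏ p ∈ Vj h D0 x n j, p : ℕ) : ℝ) ≤ x ^ 2 :=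
    le_trans (by exact_mod_cast Nat.le_of_dvd hpos hdvd) hlf
  rw [Nat.cast_prod] at hle
  have hxc : 0 < x ^ c := Real.rpow_pos_of_pos (by linarith) _
  have hlow : (x ^ c) ^ (Vj h D0 x n j).card ≤ ∏ p ∈ Vj h D0 x n j, (p : ℝ) := by
    rw [← Finset.prod_const]
    refine Finset.prod_le_prod (fun _ _ => hxc.le) fun p hp => ?_
    have hp' := Finset.mem_filter.1 hp
    by_contra hcon
    rw [not_le] at hcon
    exact hbad ⟨p, hp'.1, hcon.le, j, hp'.2⟩
  have h3 : (x ^ c) ^ (Vj h D0 x n j).card ≤ x ^ (2 : ℝ) := by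
    rw [Real.rpow_two]
    exact hlow.trans hle
  rw [← Real.rpow_natCast (x ^ c), ← Real.rpow_mul (by linarith),
    Real.rpow_le_rpow_left_iff hx1] at h3
  refine Nat.le_floor ?_
  rw [le_div_iff₀ hc]
  linarith

/-- the coloured primes -/
noncomputable def cs {S : Finset ℕ} {k : ℕ} (d : Co S k) : Finset {p // p ∈ S} :=
  univ.filter (fun p => d p ≠ none)

theorem mw_eq {S : Finset ℕ} {k : ℕ} (d : Co S k) :
    mw (fun _ => (2 : ℝ)) d = 2 ^ (cs d).card := by
  unfold mw cs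
  rw [Finset.prod_ite, Finset.prod_const, Finset.prod_const, one_pow, one_mul]

theorem main {S : Finset ℕ} {k : ℕ} (h : Fin k → ℕ × ℕ) (hA : AdmL h) (D0 : ℕ) (hB : Big h D0)
    (hS : ∀ p ∈ S, D0 < p) (n N : ℕ)
    (hN : ∀ j, (S.filter (fun p => p ∣ lf (h j) n)).card ≤ N) (l : Co S k → ℝ) (M : ℝ)
    (hM : 0 ≤ M) (hl : ∀ d, |l d| ≤ M * mw (fun _ => (2 : ℝ)) d) :
    |Vn h l n| ≤ 4 ^ (k * N) * M := by
  set V : Finset ℕ := univ.biUnion (fun j => S.filter (fun p => p ∣ lf (h j) n)) with hV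
  have hVc : V.card ≤ k * N := by
    refine (Finset.card_biUnion_le).trans ?_
    refine (Finset.sum_le_sum fun j _ => hN j).trans ?_
    rw [Finset.sum_const, Finset.card_univ, Fintype.card_fin, smul_eq_mul]
  have hsub : ∀ d : Co S k, Adh h d n → (cs d).map (Function.Embedding.subtype _) ⊆ V := by
    intro d hd q hq
    obtain ⟨p, hp, rfl⟩ := Finset.mem_map.1 hq
    have hp' : d p ≠ none := (Finset.mem_filter.1 hp).2
    obtain ⟨i, hi⟩ := Option.ne_none_iff_exists'.1 hp'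
    rw [hV, Finset.mem_biUnion]
    exact ⟨i, mem_univ _, Finset.mem_filter.2 ⟨p.2, hd p i hi⟩⟩
  have hcard : ∀ d : Co S k, Adh h d n → (cs d).card ≤ V.card := by
    intro d hd
    rw [← Finset.card_map (Function.Embedding.subtype _)]
    exact Finset.card_le_card (hsub d hd)
  have hinj : ∀ d e : Co S k, Adh h d n → Adh h e n → cs d = cs e → d = e := by
    intro d e hd he hde
    funext p
    rcases hdp : d p with _ | i
    · have h1 : p ∉ cs e := by
        rw [← hde]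
        intro h2
        exact (Finset.mem_filter.1 h2).2 hdp
      by_contra h2
      exact h1 (Finset.mem_filter.2 ⟨mem_univ _, fun h3 => h2 h3.symm⟩)
    · have h1 : p ∈ cs e := by
        rw [← hde]
        exact Finset.mem_filter.2 ⟨mem_univ _, by rw [hdp]; simp⟩
      obtain ⟨j, hj⟩ := Option.ne_none_iff_exists'.1 (Finset.mem_filter.1 h1).2
      rw [hj, eq_of_dvd hA hB (hS p p.2) (hd p i hdp) (he p j hj)]
  have hnum : (univ.filter (fun d : Co S k => Adh h d n)).card ≤ 2 ^ V.card := by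
    rw [← Finset.card_powerset]
    refine Finset.card_le_card_of_injOn
      (fun d => (cs d).map (Function.Embedding.subtype _)) ?_ ?_
    · intro d hd
      have hd' := (Finset.mem_filter.1 hd).2
      exact Finset.mem_coe.2 (Finset.mem_powerset.2 (hsub d hd'))
    · intro d hd e he hde
      exact hinj d e (Finset.mem_filter.1 hd).2 (Finset.mem_filter.1 he).2
        (Finset.map_injective _ hde)
  unfold Vn
  calc |∑ d ∈ univ.filter (fun d => Adh h d n), l d|
      ≤ ∑ d ∈ univ.filter (fun d => Adh h d n), |l d| := Finset.abs_sum_le_sum_abs _ _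
    _ ≤ ∑ d ∈ univ.filter (fun d : Co S k => Adh h d n), M * 2 ^ V.card := by
        refine Finset.sum_le_sum fun d hd => (hl d).trans ?_
        rw [mw_eq]
        refine mul_le_mul_of_nonneg_left ?_ hM
        exact pow_le_pow_right₀ (by norm_num) (hcard d (Finset.mem_filter.1 hd).2)
    _ = (univ.filter (fun d : Co S k => Adh h d n)).card * (M * 2 ^ V.card) := by
        rw [Finset.sum_const, nsmul_eq_mul]
    _ ≤ 2 ^ V.card * (M * 2 ^ V.card) := by
        refine mul_le_mul_of_nonneg_right ?_ (by positivity)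
        exact_mod_cast hnum
    _ = 4 ^ V.card * M := by
        have : (4 : ℝ) ^ V.card = 2 ^ V.card * 2 ^ V.card := by
          rw [← mul_pow]
          norm_num
        rw [this]
        ring
    _ ≤ 4 ^ (k * N) * M := by
        refine mul_le_mul_of_nonneg_right ?_ hM
        exact pow_le_pow_right₀ (by norm_num) hVc

end I_VB

/-- Item VB. -/
theorem prf_AVB : A_VB := by
  intro k h hA c hc
  obtain ⟨x0, hx0⟩ := I_VB.card_Vj k h hA c hc
  refine ⟨4 ^ (k * ⌊2 / c⌋₊), x0, by positivity, ?_⟩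
  intro x hx D0 hB l M hM hl n hn hnx hbad
  exact I_VB.main h hA D0 hB (fun p hp => (Finset.mem_filter.1 hp).2.2) n _
    (hx0 x hx D0 n hn hnx hbad) l M hM hl

end MPb51559.BG.LF
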