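import Pool.Agent.Work.MP_b51559_nt.LF.AP.Stmts
import Pool.Agent.Work.MP_b51559_nt.LF.Util

set_option autoImplicit false

/-! # Block LF/AP: item VN (the sieve sum on the multiples of a prime) -/

namespace MPb51559.BG.LF

open Finset Filter Topology MeasureTheory
open scoped Classical

namespace I_VN

section
variable {S : Finset ℕ} {k : ℕ}

theorem er_p (p : {p // p ∈ S}) (d : Co S k) : er p d p = none := by
  unfold er
  rw [Function.update_self]

theorem pt_p (p : {p // p ∈ S}) (j : Fin k) (d : Co S k) : pt p j d p = some j := by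
  unfold pt
  rw [Function.update_self]

theorem er_ne (p q : {p // p ∈ S}) (d : Co S k) (h : q ≠ p) : er p d q = d q := by
  unfold er
  rw [Function.update_of_ne h]

theorem pt_ne (p q : {p // p ∈ S}) (j : Fin k) (d : Co S k) (h : q ≠ p) : pt p j d q = d q := by
  unfold pt
  rw [Function.update_of_ne h]

theorem er_pt (p : {p // p ∈ S}) (j : Fin k) (d : Co S k) (h : d p = none) :
    er p (pt p j d) = d := by
  funext q
  by_cases hq : q = p
  · rw [hq, er_p, h]
  · rw [er_ne p q _ hq, pt_ne p q j _ hq]

theorem pt_er (p : {p // p ∈ S}) (j : Fin k) (d : Co S k) (h : d p = some j) :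
    pt p j (er p d) = d := by
  funext q
  by_cases hq : q = p
  · rw [hq, pt_p, h]
  · rw [pt_ne p q j _ hq, er_ne p q _ hq]

theorem adh_er (h : Fin k → ℕ × ℕ) (p : {p // p ∈ S}) (d : Co S k) (n : ℕ) (hd : Adh h d n) :
    Adh h (er p d) n := by
  intro q i hq
  by_cases hqp : q = p
  · rw [hqp, er_p] at hq
    cases hq
  · rw [er_ne p q _ hqp] at hq
    exact hd q i hq

theorem adh_pt (h : Fin k → ℕ × ℕ) (p : {p // p ∈ S}) (j : Fin k) (d : Co S k) (n : ℕ)
    (hp : (p : ℕ) ∣ lf (h j) n) (hd : Adh h d n) : Adh h (pt p j d) n := by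
  intro q i hq
  by_cases hqp : q = p
  · rw [hqp, pt_p] at hq
    rw [← Option.some.inj hq, hqp]
    exact hp
  · rw [pt_ne p q j _ hqp] at hq
    exact hd q i hq

end

end I_VN

open I_VN in
theorem prf_AVN : A_VN := by
  intro D0 S k h hS hB hA p j l n
  unfold Vn lp
  rw [← Finset.sum_filter]
  by_cases hp : (p : ℕ) ∣ lf (h j) n
  · rw [if_pos hp, Finset.sum_add_distrib]
    have h1 : ∑ d ∈ (univ.filter (fun d : Co S k => Adh h d n)).filter (fun d => d p = some j),
        l (er p d) =
        ∑ d ∈ (univ.filter (fun d : Co S k => Adh h d n)).filter (fun d => ¬ d p = some j),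
          l d := by
      refine Finset.sum_nbij' (er p) (pt p j) ?_ ?_ ?_ ?_ ?_
      · intro d hd
        rw [Finset.mem_filter, Finset.mem_filter] at hd ⊢
        refine ⟨⟨Finset.mem_univ _, adh_er h p d n hd.1.2⟩, ?_⟩
        rw [er_p]
        exact fun h => by cases h
      · intro d hd
        rw [Finset.mem_filter, Finset.mem_filter] at hd ⊢
        exact ⟨⟨Finset.mem_univ _, adh_pt h p j d n hp hd.1.2⟩, pt_p p j d⟩
      · intro d hd
        rw [Finset.mem_filter] at hd
        exact pt_er p j d hd.2
      · intro d hd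
        rw [Finset.mem_filter, Finset.mem_filter] at hd
        apply er_pt p j d
        cases hdp : d p with
        | none => rfl
        | some i =>
          exfalso
          have h2 : (p : ℕ) ∣ lf (h i) n := hd.1.2 p i hdp
          have h3 : i = j := eq_of_dvd hA hB (hS p p.2) h2 hp
          exact hd.2 (by rw [hdp, h3])
      · intro d _
        rfl
    rw [h1]
    exact Finset.sum_filter_add_sum_filter_not _ _ _
  · rw [if_neg hp]
    refine Finset.sum_eq_zero ?_
    intro d hd
    rw [Finset.mem_filter, Finset.mem_filter] at hd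
    exact absurd (hd.1.2 p j hd.2) hp

end MPb51559.BG.LF
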