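import Pool.Agent.Work.MP_b51559_nt.LF.AP.Stmts
import Pool.Agent.Work.MP_b51559_nt.BG.C.Util
import Pool.Agent.Work.MP_b51559_nt.BG.C.MSU

set_option autoImplicit false

/-! # Block LF/AP, item VP: the variation sum -/

namespace MPb51559.BG.LF

open Finset Filter Topology MeasureTheory
open scoped Classical

namespace I_VP

section
variable {S : Finset ℕ} {k : ℕ}

/-- the weight of the diagonal sum -/
noncomputable def GG (u : Co S k) : ℝ := mw (fun q => 1 + (k : ℝ) / ((q : ℝ) - 1)) u / mw aF u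

theorem prt_pos (hS : ∀ p ∈ S, p.Prime) (j : Fin k) (u : Co S k) : 0 < prt j u := by
  unfold prt
  refine Finset.prod_pos fun p _ => ?_
  split_ifs
  · exact (hS p p.2).pos
  · exact one_pos

theorem primeFactors_prt (hS : ∀ p ∈ S, p.Prime) (j : Fin k) (u : Co S k) :
    (prt j u).primeFactors = (univ.filter fun p : {p // p ∈ S} => u p = some j).map
      ⟨Subtype.val, Subtype.val_injective⟩ := by
  ext q
  rw [Nat.mem_primeFactors, Finset.mem_map]
  constructor
  · rintro ⟨hq, hd, _⟩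
    unfold prt at hd
    rw [hq.prime.dvd_finsetProd_iff] at hd
    obtain ⟨p, _, hp⟩ := hd
    by_cases hu : u p = some j
    · rw [if_pos hu] at hp
      exact ⟨p, Finset.mem_filter.2 ⟨Finset.mem_univ _, hu⟩,
        ((Nat.prime_dvd_prime_iff_eq hq (hS p p.2)).1 hp).symm⟩
    · rw [if_neg hu] at hp
      exact absurd (Nat.dvd_one.1 hp) hq.one_lt.ne'
  · rintro ⟨p, hp, rfl⟩
    have hu := (Finset.mem_filter.1 hp).2
    exact ⟨hS p p.2, (MSU_dvd_prt hS j u p).2 hu, (prt_pos hS j u).ne'⟩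

theorem mw_split (hS : ∀ p ∈ S, p.Prime) {j : Fin k} {u r : Co S k} (h : dl j u = r)
    (f : ℕ → ℝ) : mw f u = mw f r * ∏ q ∈ (prt j u).primeFactors, f q := by
  rw [primeFactors_prt hS, Finset.prod_map, Finset.prod_filter]
  unfold mw
  rw [← Finset.prod_mul_distrib]
  refine Finset.prod_congr rfl fun p _ => ?_
  simp only [Function.Embedding.coeFn_mk]
  rcases MSU_dl h p with ⟨hu, hr⟩ | ⟨hu, hr⟩
  · rw [if_neg (by rw [hu]; simp), if_pos hr, if_pos hu, one_mul]
  · rw [if_neg hu, hr, mul_one]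

theorem GG_split (hS : ∀ p ∈ S, p.Prime) {j : Fin k} {u r : Co S k} (h : dl j u = r) :
    GG u = GG r * gk k (prt j u) := by
  unfold GG gk
  rw [mw_split hS h, mw_split hS h aF, Finset.prod_div_distrib, mul_div_mul_comm]
  rfl

theorem GG_nonneg (hS : ∀ p ∈ S, p.Prime) (u : Co S k) : 0 ≤ GG u := by
  have h1 : ∀ p ∈ S, (0 : ℝ) < (p : ℝ) - 1 := by
    intro p hp
    have : (1 : ℝ) < p := by exact_mod_cast (hS p hp).one_lt
    linarith
  unfold GG
  refine div_nonneg (U.mw_nonneg u fun p hp => ?_) (U.mw_nonneg u fun p hp => (h1 p hp).le)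
  have := h1 p hp
  positivity

theorem gk_nonneg (n : ℕ) : 0 ≤ gk k n := by
  unfold gk
  refine Finset.prod_nonneg fun q hq => ?_
  have h1 : (1 : ℝ) < q := by exact_mod_cast (Nat.prime_of_mem_primeFactors hq).one_lt
  have h2 : (0 : ℝ) < (q : ℝ) - 1 := by linarith
  positivity

theorem dl_pt {p : {p // p ∈ S}} {j : Fin k} {u : Co S k} (hu : u p = none) :
    dl j (pt p j u) = dl j u := by
  funext q
  unfold dl pt
  by_cases hq : q = p
  · subst hq
    rw [Function.update_self, if_pos rfl, if_neg (by rw [hu]; simp), hu]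
  · rw [Function.update_of_ne hq]

theorem prt_pt {p : {p // p ∈ S}} {j : Fin k} {u : Co S k} (hu : u p = none) :
    prt j (pt p j u) = prt j u * p := by
  unfold prt pt
  rw [← Finset.mul_prod_erase univ _ (Finset.mem_univ p),
    ← Finset.mul_prod_erase univ (fun q : {p // p ∈ S} => if u q = some j then (q : ℕ) else 1)
      (Finset.mem_univ p), Function.update_self, if_pos rfl, hu, if_neg (by simp), one_mul,
    mul_comm]
  congr 1
  refine Finset.prod_congr rfl fun q hq => ?_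
  rw [Function.update_of_ne (Finset.ne_of_mem_erase hq)]

theorem le_pt {p : {p // p ∈ S}} {j : Fin k} {u : Co S k} (hu : u p = none) :
    Le u (pt p j u) := by
  intro q
  by_cases hq : q = p
  · left
    rw [hq, hu]
  · right
    unfold pt
    rw [Function.update_of_ne hq]

theorem dl_le (j : Fin k) (u : Co S k) : Le (dl j u) u := by
  intro q
  unfold dl
  by_cases hq : u q = some j
  · left
    rw [if_pos hq]
  · right
    rw [if_neg hq]

theorem dl_noC (j : Fin k) (u : Co S k) : NoC j (dl j u) := by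
  intro q
  unfold dl
  by_cases hq : u q = some j
  · rw [if_pos hq]
    simp
  · rw [if_neg hq]
    exact hq

theorem nrm_le (hB : C_BAS) (hS : ∀ p ∈ S, p.Prime) {u v : Co S k} (h : Le u v) :
    (nrm u : ℝ) ≤ nrm v := by
  have h1 := (hB S k hS u).2.2.2.2.2.2.2.2.2.1 v h
  have h2 := (hB S k hS v).2.1
  exact_mod_cast Nat.le_of_dvd h2 h1

/-- the sum over one group -/
theorem group (hB : C_BAS) (hM : C_MSU) (hS : ∀ p ∈ S, p.Prime ∧ 2 < p) {j : Fin k}
    {r : Co S k} (hr : NoC j r) (p : {p // p ∈ S}) (R z : ℝ) (F : (Fin k → ℝ) → ℝ)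
    (A : Finset (Co S k))
    (hA : ∀ u ∈ A, dl j u = r ∧ u p = none ∧ (nrm u : ℝ) ≤ z) :
    ∑ u ∈ A, |yF R F u - yF R F (pt p j u)| * GG u ≤
      GG r * ∑ n ∈ SqF S z, gk k n *
        |F (Function.update (tv R r) j (Real.log n / Real.log R)) -
          F (Function.update (tv R r) j (Real.log n / Real.log R +
            Real.log (p : ℝ) / Real.log R))| := by
  have hSp : ∀ p ∈ S, p.Prime := fun p hp => (hS p hp).1
  obtain ⟨φ, hφ⟩ : ∃ φ : ℕ → ℝ, φ = fun n : ℕ => gk k n *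
        |F (Function.update (tv R r) j (Real.log n / Real.log R)) -
          F (Function.update (tv R r) j (Real.log n / Real.log R +
            Real.log (p : ℝ) / Real.log R))| := ⟨_, rfl⟩
  have hφ0 : ∀ n, 0 ≤ φ n := by
    intro n
    rw [hφ]
    exact mul_nonneg (gk_nonneg n) (abs_nonneg _)
  have htv : ∀ u : Co S k, dl j u = r →
      tv R u = Function.update (tv R r) j (Real.log (prt j u : ℝ) / Real.log R) := fun u hu =>
    (hM S k hS j (fun _ => 0) 0 0 r hr le_rfl (fun _ => by simp)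
      (fun n hn => absurd rfl hn)).2 R u hu
  have hterm : ∀ u ∈ A, |yF R F u - yF R F (pt p j u)| * GG u = GG r * φ (prt j u) := by
    intro u hu
    obtain ⟨h1, h2, _⟩ := hA u hu
    have h3 : dl j (pt p j u) = r := by rw [dl_pt h2, h1]
    have hp0 : ((prt j u : ℕ) : ℝ) ≠ 0 := by
      exact_mod_cast (prt_pos hSp j u).ne'
    have hp1 : ((p : ℕ) : ℝ) ≠ 0 := by
      exact_mod_cast (hSp p p.2).ne_zero
    unfold yF
    rw [htv u h1, htv _ h3, prt_pt h2, GG_split hSp h1, hφ]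
    push_cast
    rw [Real.log_mul hp0 hp1, add_div]
    ring
  rw [Finset.sum_congr rfl hterm, ← Finset.mul_sum]
  refine mul_le_mul_of_nonneg_left ?_ (GG_nonneg hSp r)
  have hinj : ∀ u ∈ A, ∀ v ∈ A, prt j u = prt j v → u = v := by
    intro u hu v hv huv
    funext q
    have h2 : u q = some j ↔ v q = some j := by
      rw [← MSU_dvd_prt hSp j u q, ← MSU_dvd_prt hSp j v q, huv]
    rcases MSU_dl (hA u hu).1 q with ⟨h3, h4⟩ | ⟨h3, h4⟩
    · rw [h3, h2.1 h3]
    · rcases MSU_dl (hA v hv).1 q with ⟨h5, h6⟩ | ⟨h5, h6⟩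
      · exact absurd (h2.2 h5) h3
      · rw [h4, h6]
  have himg : ∑ u ∈ A, φ (prt j u) = ∑ n ∈ A.image (prt j), φ n := by
    rw [Finset.sum_image]
    intro u hu v hv huv
    exact hinj u hu v hv huv
  rw [himg]
  refine (Finset.sum_le_sum_of_subset_of_nonneg (t := SqF S z) ?_ fun n _ _ => hφ0 n).trans
    (le_of_eq (by rw [hφ]))
  intro n hn
  obtain ⟨u, hu, rfl⟩ := Finset.mem_image.1 hn
  have hb := hB S k hSp u
  have hd := (hb.2.2.2.2.2.2.2.1 j).2
  have hle : (prt j u : ℝ) ≤ z := by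
    have h1 : prt j u ≤ nrm u := Nat.le_of_dvd hb.2.1 hd
    have h2 : (prt j u : ℝ) ≤ nrm u := by exact_mod_cast h1
    exact h2.trans (hA u hu).2.2
  unfold SqF
  rw [Finset.mem_filter, Finset.mem_Icc]
  refine ⟨⟨prt_pos hSp j u, Nat.le_floor hle⟩, hb.1.squarefree_of_dvd hd, ?_⟩
  intro q hq hqn
  obtain ⟨h2, _⟩ := (hb.2.2.1 q hq).1 (dvd_trans hqn hd)
  exact h2

end

end I_VP

open I_VP

theorem prf_AVP (hB : C_BAS) (hM : C_MSU) (hT : C_TOT) (hP : C_PERT) (hV1 : A_V1) (hSH : A_SH) :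
    A_VP := by
  intro k T F hk hT1 hT2 hF δ hδ0 hδ1
  obtain ⟨V, hV⟩ := hF.bv
  obtain ⟨C1, hC1, hSH1⟩ := hSH k
  obtain ⟨D1, hD1⟩ := hP k (k : ℝ) (Nat.cast_nonneg k) 1 one_pos
  refine ⟨2 * C1 * ((V : ℝ) + 1), by positivity, max D1 3, fun D0 hD0 => ?_⟩
  have hD3 : 3 ≤ D0 := (le_max_right _ _).trans hD0
  obtain ⟨x1, hx1⟩ := hD1 D0 ((le_max_left _ _).trans hD0)
  obtain ⟨x2, hx2⟩ := hT k D0 (by omega)
  refine ⟨max (max x1 x2) 2, fun x hx p j => ?_⟩
  have hxx1 : x1 ≤ x := ((le_max_left _ _).trans (le_max_left _ _)).trans hx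
  have hxx2 : x2 ≤ x := ((le_max_right _ _).trans (le_max_left _ _)).trans hx
  have hxx3 : (2 : ℝ) ≤ x := (le_max_right _ _).trans hx
  have hx0 : (1 : ℝ) < x := by linarith
  have hS : ∀ q ∈ Sx D0 x, q.Prime ∧ 2 < q := fun q hq =>
    ⟨(U.Sx_prime hq).1, by have := (U.Sx_prime hq).2.1; omega⟩
  have hSp : ∀ q ∈ Sx D0 x, q.Prime := fun q hq => (hS q hq).1
  set R := Rx δ x with hR
  have hR1 : 1 < R := U.Rx_gt_one δ x hδ1 hx0
  have hlR : 0 < Real.log R := Real.log_pos hR1
  -- supports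
  have hsup : ∀ u : Co (Sx D0 x) k, yF R F u ≠ 0 → (nrm u : ℝ) ≤ Real.sqrt x := by
    intro u hu
    have h1 := (hF.supp _ hu).2
    have hb := hB _ k hSp u
    rw [← hb.2.2.2.2.2.2.2.2.1 R] at h1
    unfold sz at h1
    rw [div_le_iff₀ hlR] at h1
    have h2 : (0 : ℝ) < nrm u := by exact_mod_cast hb.2.1
    have h3 : (nrm u : ℝ) ≤ R ^ T := by
      rw [← Real.log_le_log_iff h2 (Real.rpow_pos_of_pos (by linarith) _),
        Real.log_rpow (by linarith)]
      exact h1
    exact h3.trans (U.Rx_rpow_le δ x T hδ0.le hx0.le (by linarith) hT2.le)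
  set A : Finset (Co (Sx D0 x) k) :=
    univ.filter (fun u : Co (Sx D0 x) k => u p = none ∧ (nrm u : ℝ) ≤ Real.sqrt x) with hAd
  set B : Finset (Co (Sx D0 x) k) :=
    univ.filter (fun r : Co (Sx D0 x) k => NoC j r ∧ (nrm r : ℝ) ≤ Real.sqrt x) with hBd
  -- reduction to `A`
  have h1 : ∑ u ∈ univ.filter (fun u : Co (Sx D0 x) k => u p = none),
      |yF R F u - yF R F (pt p j u)| *
        (mw (fun q => 1 + (k : ℝ) / ((q : ℝ) - 1)) u / mw aF u) =
      ∑ u ∈ A, |yF R F u - yF R F (pt p j u)| * GG u := by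
    symm
    refine Finset.sum_subset_zero_on_sdiff ?_ ?_ fun u _ => rfl
    · intro u hu
      have := (Finset.mem_filter.1 hu).2.1
      exact Finset.mem_filter.2 ⟨Finset.mem_univ _, this⟩
    · intro u hu
      rw [Finset.mem_sdiff, Finset.mem_filter] at hu
      have hup : u p = none := hu.1.2
      have hnu : ¬ (nrm u : ℝ) ≤ Real.sqrt x := fun h =>
        hu.2 (Finset.mem_filter.2 ⟨Finset.mem_univ _, hup, h⟩)
      have e1 : yF R F u = 0 := by
        by_contra h
        exact hnu (hsup u h)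
      have e2 : yF R F (pt p j u) = 0 := by
        by_contra h
        exact hnu ((nrm_le hB hSp (le_pt hup)).trans (hsup _ h))
      rw [e1, e2, sub_zero, abs_zero, zero_mul]
  rw [h1]
  -- the groups
  have h2 : ∀ u ∈ A, dl j u ∈ B := by
    intro u hu
    have := (Finset.mem_filter.1 hu).2
    exact Finset.mem_filter.2 ⟨Finset.mem_univ _, dl_noC j u,
      (nrm_le hB hSp (dl_le j u)).trans this.2⟩
  rw [← Finset.sum_fiberwise_of_maps_to h2]
  have hlp : 0 ≤ Real.log ((p : ℕ) : ℝ) := Real.log_natCast_nonneg _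
  have hη : 0 ≤ Real.log ((p : ℕ) : ℝ) / Real.log R := div_nonneg hlp hlR.le
  have h3 : ∀ r ∈ B, ∑ u ∈ A.filter (fun u => dl j u = r),
      |yF R F u - yF R F (pt p j u)| * GG u ≤
      GG r * (C1 * (Real.log ((p : ℕ) : ℝ) + 1) * V) := by
    intro r hr
    have hr' := (Finset.mem_filter.1 hr).2
    refine (group hB hM hS hr'.1 p R (Real.sqrt x) F _ ?_).trans ?_
    · intro u hu
      obtain ⟨hu1, hu2⟩ := Finset.mem_filter.1 hu
      have := (Finset.mem_filter.1 hu1).2
      exact ⟨hu2, this.1, this.2⟩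
    · refine mul_le_mul_of_nonneg_left ?_ (GG_nonneg hSp r)
      refine hV1 (SqF (Sx D0 x) (Real.sqrt x)) (gk k) (fun n => Real.log (n : ℝ) / Real.log R)
        (Real.log ((p : ℕ) : ℝ) / Real.log R) (C1 * (Real.log ((p : ℕ) : ℝ) + 1)) V
        (fun s => F (Function.update (tv R r) j s)) hη (fun n _ => gk_nonneg n) (fun v => ?_)
        (hV (tv R r) j)
      have e1 : (SqF (Sx D0 x) (Real.sqrt x)).filter (fun n : ℕ =>
          v - Real.log ((p : ℕ) : ℝ) / Real.log R ≤ Real.log (n : ℝ) / Real.log R ∧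
            Real.log (n : ℝ) / Real.log R ≤ v) =
          (SqF (Sx D0 x) (Real.sqrt x)).filter (fun n : ℕ =>
            v * Real.log R - Real.log ((p : ℕ) : ℝ) ≤ Real.log (n : ℝ) ∧
              Real.log (n : ℝ) ≤ v * Real.log R) := by
        refine Finset.filter_congr fun n _ => ?_
        have e2 : v - Real.log ((p : ℕ) : ℝ) / Real.log R =
            (v * Real.log R - Real.log ((p : ℕ) : ℝ)) / Real.log R := by
          rw [sub_div, mul_div_cancel_right₀ _ hlR.ne']
        rw [e2, div_le_div_iff_of_pos_right hlR, div_le_iff₀ hlR]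
      rw [e1]
      exact hSH1 (Sx D0 x) hSp (Real.sqrt x) (Real.log ((p : ℕ) : ℝ)) (v * Real.log R) hlp
  refine (Finset.sum_le_sum h3).trans ?_
  rw [← Finset.sum_mul]
  -- the total weight
  have h4 : ∑ r ∈ B, GG r ≤ 2 * kl D0 x ^ (k - 1) := by
    have e1 := (hx1 x hxx1).2 j
    have e2 := (hx2 x hxx2).2.2 j
    have e3 : ∑ r ∈ B, GG r ≤ ∑ r ∈ B,
        ((mw (fun p => 1 + (k : ℝ) / ((p : ℝ) - 2)) r - 1) / mw aF r + 1 / mw aF r) := by
      refine Finset.sum_le_sum fun r _ => ?_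
      rw [← add_div, sub_add_cancel]
      unfold GG
      refine div_le_div_of_nonneg_right ?_ (U.mw_nonneg r fun q hq => ?_)
      · refine U.mw_le_mw r (fun q hq => ?_) fun q hq => ?_
        · have : (2 : ℝ) < q := by exact_mod_cast (hS q hq).2
          have h5 : (0 : ℝ) < (q : ℝ) - 1 := by linarith
          positivity
        · have : (2 : ℝ) < q := by exact_mod_cast (hS q hq).2
          have h5 : (0 : ℝ) < (q : ℝ) - 2 := by linarith
          have h6 : (q : ℝ) - 2 ≤ (q : ℝ) - 1 := by linarith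
          have h7 : (k : ℝ) / ((q : ℝ) - 1) ≤ (k : ℝ) / ((q : ℝ) - 2) :=
            div_le_div_of_nonneg_left (Nat.cast_nonneg k) h5 h6
          linarith
      · have : (2 : ℝ) < q := by exact_mod_cast (hS q hq).2
        unfold aF
        linarith
    rw [Finset.sum_add_distrib] at e3
    rw [one_mul] at e1
    linarith
  have hkl : 0 ≤ kl D0 x ^ (k - 1) := by
    refine pow_nonneg ?_ _
    unfold kl
    exact mul_nonneg (U.kap_pos D0).le (Real.log_nonneg hx0.le)
  have hc0 : 0 ≤ C1 * (Real.log ((p : ℕ) : ℝ) + 1) := by positivity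
  calc (∑ r ∈ B, GG r) * (C1 * (Real.log ((p : ℕ) : ℝ) + 1) * V)
      ≤ (2 * kl D0 x ^ (k - 1)) * (C1 * (Real.log ((p : ℕ) : ℝ) + 1) * V) :=
        mul_le_mul_of_nonneg_right h4 (mul_nonneg hc0 V.2)
    _ ≤ (2 * kl D0 x ^ (k - 1)) * (C1 * (Real.log ((p : ℕ) : ℝ) + 1) * ((V : ℝ) + 1)) := by
        refine mul_le_mul_of_nonneg_left (mul_le_mul_of_nonneg_left (by linarith) hc0)
          (by positivity)
    _ = 2 * C1 * ((V : ℝ) + 1) * kl D0 x ^ (k - 1) * (Real.log ((p : ℕ) : ℝ) + 1) := by ring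

end MPb51559.BG.LF
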