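import Pool.Agent.Work.MP_b51559_nt.LF.AP.Stmts
import Pool.Agent.Work.MP_b51559_nt.BG.C.INV

set_option autoImplicit false

/-!
# Block LF/AP, item YT: the diagonal variables of `lp`
-/

namespace MPb51559.BG.LF

open Finset Filter Topology MeasureTheory
open scoped Classical

namespace I_YT

variable {S : Finset ℕ} {k : ℕ}

/-- the product of the local factors at the primes other than `p` -/
noncomputable def K (a : ℕ → ℝ) (p : {p // p ∈ S}) (d r : Co S k) : ℝ :=
  ∏ q ∈ univ.erase p, INV_gl (a q) (d q) (r q)

theorem K_pt (a : ℕ → ℝ) (p : {p // p ∈ S}) (d r : Co S k) (i : Fin k) :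
    K a p d (pt p i r) = K a p d r := by
  unfold K pt
  refine prod_congr rfl fun q hq => ?_
  rw [Function.update_of_ne (mem_erase.mp hq).1]

theorem K_er (a : ℕ → ℝ) (p : {p // p ∈ S}) (d r : Co S k) :
    K a p (er p d) r = K a p d r := by
  unfold K er
  refine prod_congr rfl fun q hq => ?_
  rw [Function.update_of_ne (mem_erase.mp hq).1]

theorem pt_self (p : {p // p ∈ S}) (r : Co S k) (i : Fin k) : pt p i r p = some i := by
  unfold pt
  rw [Function.update_self]

theorem er_self (p : {p // p ∈ S}) (r : Co S k) : er p r p = none := by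
  unfold er
  rw [Function.update_self]

theorem er_pt (p : {p // p ∈ S}) (r : Co S k) (i : Fin k) (h : r p = none) :
    er p (pt p i r) = r := by
  unfold er pt
  rw [Function.update_idem, ← h, Function.update_eq_self]

theorem prod_eq (a : ℕ → ℝ) (p : {p // p ∈ S}) (d r : Co S k) :
    ∏ q : {p // p ∈ S}, INV_gl (a q) (d q) (r q) = INV_gl (a p) (d p) (r p) * K a p d r := by
  unfold K
  rw [mul_prod_erase univ (fun q : {p // p ∈ S} => INV_gl (a q) (d q) (r q)) (mem_univ p)]

/-- `lam`, split at the prime `p` -/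
theorem key (hSP : A_SP) (a : ℕ → ℝ) (p : {p // p ∈ S}) (y : Co S k → ℝ) (d : Co S k) :
    lam a y d = ∑ r ∈ univ.filter (fun r : Co S k => r p = none),
      K a p d r * (y r * INV_gl (a p) (d p) none +
        ∑ i, y (pt p i r) * INV_gl (a p) (d p) (some i)) := by
  rw [INV_lam, hSP S k p]
  refine sum_congr rfl fun r hr => ?_
  have hr' : r p = none := (mem_filter.mp hr).2
  rw [prod_eq a p d r, hr', mul_add, mul_sum]
  congr 1
  · ring
  · refine sum_congr rfl fun i _ => ?_
    rw [prod_eq a p d (pt p i r), pt_self, K_pt]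
    ring

theorem gl_none_none (a : ℝ) : INV_gl (k := k) a none none = 1 := by
  simp [INV_gl]

theorem gl_none_some (a : ℝ) (i : Fin k) : INV_gl a none (some i) = (a - 1)⁻¹ := by
  simp [INV_gl]

theorem gl_some_none (a : ℝ) (i : Fin k) : INV_gl a (some i) none = 0 := by
  simp [INV_gl]

theorem gl_some_some (a : ℝ) (i j : Fin k) :
    INV_gl a (some i) (some j) = if j = i then -a * (a - 1)⁻¹ else 0 := by
  by_cases h : j = i
  · simp [INV_gl, h]
  · rw [if_neg h]
    unfold INV_gl
    rw [if_neg]
    rintro (h1 | h1)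
    · exact absurd h1 (by simp)
    · exact h (Option.some.inj h1).symm

/-- the right hand side -/
noncomputable def z (p : {p // p ∈ S}) (j : Fin k) (y : Co S k → ℝ) (u : Co S k) : ℝ :=
  if u p = none then dy p j y u / p else
    if u p = some j then -(((p : ℝ) - 1) / p * dy p j y (er p u)) else 0

theorem z_none (p : {p // p ∈ S}) (j : Fin k) (y : Co S k → ℝ) (r : Co S k) (h : r p = none) :
    z p j y r = dy p j y r / p := by
  unfold z
  rw [if_pos h]

theorem z_pt (p : {p // p ∈ S}) (j : Fin k) (y : Co S k → ℝ) (r : Co S k) (h : r p = none)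
    (i : Fin k) : z p j y (pt p i r) =
      if i = j then -(((p : ℝ) - 1) / p * dy p j y r) else 0 := by
  unfold z
  rw [pt_self, if_neg (by simp), er_pt p r i h]
  by_cases hij : i = j
  · rw [if_pos hij, if_pos (by rw [hij])]
  · rw [if_neg hij, if_neg (fun h1 => hij (Option.some.inj h1))]

theorem lam_z (hSP : A_SP) (hS : ∀ q ∈ S, 1 < q) (p : {p // p ∈ S}) (j : Fin k)
    (y : Co S k → ℝ) : lam aP (z p j y) = lp p j (lam aP y) := by
  have hp1 : (1 : ℝ) < (p : ℕ) := by exact_mod_cast hS _ p.2
  have hp0 : ((p : ℕ) : ℝ) ≠ 0 := by linarith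
  have hp2 : ((p : ℕ) : ℝ) - 1 ≠ 0 := by
    intro h
    linarith
  have haP : aP (p : ℕ) = ((p : ℕ) : ℝ) := rfl
  funext d
  unfold lp
  rw [key hSP aP p (z p j y) d]
  rcases hd : d p with _ | i
  · -- no colour
    rw [if_neg (by simp)]
    refine sum_eq_zero fun r hr => ?_
    have hr' : r p = none := (mem_filter.mp hr).2
    have e : ∑ i, z p j y (pt p i r) * INV_gl (aP p) none (some i) =
        -(((p : ℝ) - 1) / p * dy p j y r) * ((p : ℝ) - 1)⁻¹ := by
      have e1 : ∀ i ∈ (univ : Finset (Fin k)), z p j y (pt p i r) * INV_gl (aP p) none (some i) =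
          if i = j then -(((p : ℝ) - 1) / p * dy p j y r) * ((p : ℝ) - 1)⁻¹ else 0 := by
        intro i _
        rw [z_pt p j y r hr' i, gl_none_some, haP]
        split_ifs
        · rfl
        · rw [zero_mul]
      rw [sum_congr rfl e1, sum_ite_eq' univ j, if_pos (mem_univ j)]
    rw [e, gl_none_none, z_none p j y r hr']
    field_simp
    ring
  · by_cases hij : i = j
    · subst hij
      rw [if_pos rfl, key hSP aP p y d, key hSP aP p y (er p d), ← sum_add_distrib]
      refine sum_congr rfl fun r hr => ?_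
      have hr' : r p = none := (mem_filter.mp hr).2
      rw [hd, er_self, K_er, ← mul_add, gl_some_none, gl_none_none, mul_zero, mul_zero, zero_add,
        zero_add, mul_one]
      congr 1
      have e1 : ∀ f : Fin k → ℝ, ∑ i', f i' * INV_gl (aP p) (some i) (some i') =
          f i * (-(p : ℝ) * ((p : ℝ) - 1)⁻¹) := by
        intro f
        have e2 : ∀ i' ∈ (univ : Finset (Fin k)), f i' * INV_gl (aP p) (some i) (some i') =
            if i' = i then f i * (-(p : ℝ) * ((p : ℝ) - 1)⁻¹) else 0 := by
          intro i' _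
          rw [gl_some_some, haP]
          split_ifs with h
          · rw [h]
          · rw [mul_zero]
        rw [sum_congr rfl e2, sum_ite_eq' univ i, if_pos (mem_univ i)]
      rw [e1, e1, z_pt p i y r hr' i, if_pos rfl]
      have e3 : ∑ i', y (pt p i' r) * INV_gl (aP p) none (some i') =
          (∑ i', y (pt p i' r)) * ((p : ℝ) - 1)⁻¹ := by
        rw [sum_mul]
        refine sum_congr rfl fun i' _ => ?_
        rw [gl_none_some, haP]
      rw [e3, ← add_sum_erase univ (fun i' => y (pt p i' r)) (mem_univ i)]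
      unfold dy
      field_simp
      ring
    · rw [if_neg (fun h1 => hij (Option.some.inj h1))]
      refine sum_eq_zero fun r hr => ?_
      have hr' : r p = none := (mem_filter.mp hr).2
      rw [gl_some_none, mul_zero, zero_add]
      have e1 : ∑ i', z p j y (pt p i' r) * INV_gl (aP p) (some i) (some i') = 0 := by
        refine sum_eq_zero fun i' _ => ?_
        rw [z_pt p j y r hr' i', gl_some_some]
        by_cases h1 : i' = j
        · rw [if_neg (show ¬ i' = i from fun h2 => hij (h2.symm.trans h1)), mul_zero]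
        · rw [if_neg h1, zero_mul]
      rw [e1, mul_zero]

end I_YT

theorem prf_AYT (hINV : C_INV) (hSP : A_SP) : A_YT := by
  intro S k hS p j y u
  have h1 := I_YT.lam_z hSP hS p j y
  have h2 : ∀ q ∈ S, aP q ≠ 0 ∧ aP q - 1 ≠ 0 := by
    intro q hq
    have h3 : (1 : ℝ) < q := by exact_mod_cast hS q hq
    have h4 : aP q = (q : ℝ) := rfl
    rw [h4]
    constructor
    · linarith
    · intro h5
      linarith
  rw [← h1, (hINV S k aP h2 (I_YT.z p j y)).1]
  rfl

end MPb51559.BG.LF
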