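import Pool.Agent.Work.MP_b51559_nt.LF.All
import Pool.Agent.Work.MP_b51559_nt.LF.AP.GenR
import Pool.Agent.Work.MP_b51559_nt.LF.AP.I_SP
import Pool.Agent.Work.MP_b51559_nt.LF.AP.I_VN
import Pool.Agent.Work.MP_b51559_nt.LF.AP.I_YT
import Pool.Agent.Work.MP_b51559_nt.LF.AP.I_QB
import Pool.Agent.Work.MP_b51559_nt.LF.AP.I_V1
import Pool.Agent.Work.MP_b51559_nt.LF.AP.I_SH
import Pool.Agent.Work.MP_b51559_nt.LF.AP.I_VP
import Pool.Agent.Work.MP_b51559_nt.LF.AP.I_MS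
import Pool.Agent.Work.MP_b51559_nt.LF.AP.I_E1
import Pool.Agent.Work.MP_b51559_nt.LF.AP.I_E2
import Pool.Agent.Work.MP_b51559_nt.LF.AP.I_BD
import Pool.Agent.Work.MP_b51559_nt.LF.AP.I_LM
import Pool.Agent.Work.MP_b51559_nt.LF.AP.I_VB

set_option autoImplicit false

/-!
# Block LF/AP: the sieve theorem for linear forms, with almost prime companions, a count, `r + 1` primes
-/

namespace MPb51559.BG.LF

open Finset Filter Topology MeasureTheory

theorem lall_AYT : A_YT := prf_AYT prf_INV prf_ASP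
theorem lall_AQB : A_QB := prf_AQB prf_INV all_QN prf_ASP lall_AYT
theorem lall_AVP : A_VP := prf_AVP prf_BAS (prf_MSU prf_BAS) all_TOT all_PERT prf_AV1 prf_ASH
theorem lall_AE1 : A_E1 := prf_AE1 prf_BAS all_L1S all_TOT all_PERT lall_S1E lall_AQB lall_AVP
theorem lall_AE2 : A_E2 := prf_AE2 prf_AMS lall_AE1
theorem lall_ABD : A_BD := prf_ABD prf_AVN
theorem lall_ALM : A_LM := prf_ALM all_TOT
theorem lall_RF1 : R_F1 := prf_RF1 lall_AE2 lall_ABD
theorem lall_RF2 : R_F2 := prf_RF2 prf_V0 prf_BAS lall_RF1 lall_ALM prf_AVB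

/-- the sieve theorem for `k` admissible linear forms and `r + 1` primes -/
theorem sieveR (k r : ℕ) (hk : 2 ≤ k) (hr : 0 < r) (hN : NUMr k r) : FCount k r := by
  refine prf_RIN k r (by omega) fun h hAdm => ?_
  obtain ⟨P, F, hOk, hF, hCrit⟩ := hN
  obtain ⟨w, hw⟩ := prf_Wex
  have hk0 : 0 < k := by omega
  have h1 : S1Concl w h F := lall_S1A w hw k h hk0 hAdm P.T F hOk.hT1 hOk.hT2 hF
  have h2 : UppConcl w h F := lall_KB w hw k h hk0 hAdm P.T F hOk.hT1 hOk.hT2 hF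
  have h3 : GramConcl w h F := lall_GRM w hw k h hk0 hAdm P.T F hOk.hT1 hOk.hT2 hF
  have h4 : YmConcl P.T F := by
    intro δ hδ0 hδ1
    obtain ⟨C, _, hC⟩ := all_YM k P.T F hOk.hT1 hOk.hT2 hF δ hδ0 hδ1
    obtain ⟨D1, hD1⟩ := hC 1 one_pos
    refine ⟨D1, fun D0 hD0 => ?_⟩
    obtain ⟨x0, hx0⟩ := hD1 D0 hD0
    exact ⟨x0, fun x hx m r => (hx0 x hx m r).2.1⟩
  have h5 : S2Concl w h P F := prf_S2A prf_INV prf_RS prf_DEC prf_LIN prf_AL prf_ALD
    (prf_GII prf_MG) (prf_JD prf_MG) w hw k h hk0 hAdm P F hOk hF h3 h2 h4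
  exact lall_RF2 r hr w hw k h hk0 hAdm P F hOk hF hCrit h1 h5

/-- two primes among 49 forms -/
theorem fcount49 : FCount 49 1 := by
  refine sieveR 49 1 (by norm_num) one_pos ?_
  obtain ⟨P, F, hOk, hF, hC⟩ := all_NUM
  refine ⟨P, F, hOk, hF, ?_⟩
  unfold CritR
  rw [Nat.cast_one, mul_one]
  exact hC

end MPb51559.BG.LF
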