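import Pool.Agent.Work.MP_b51559_nt.LF.AP.Stmts

set_option autoImplicit false

/-!
# Block LF/AP: composite values of further forms

From the counting theorem for `k` forms to the same theorem with a finite set of further forms whose
values are all composite.
-/

namespace MPb51559.BG.LF

open Finset Filter Topology
open scoped Classical

/-- the event: all values are free of prime factors up to `y`, more than `r` values are (distinct)
primes -/
def Evt {k : ℕ} (r : ℕ) (y : ℝ) (f : Fin k → ℤ) : Prop :=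
  (∀ i, ∀ p : ℕ, p.Prime → (p : ℤ) ∣ f i → y < p) ∧
  ∃ I : Finset (Fin k), r < I.card ∧ (∀ i ∈ I, ∃ p : ℕ, p.Prime ∧ f i = p) ∧
    ∀ i ∈ I, ∀ j ∈ I, f i = f j → i = j

/-- admissible forms with integral constant terms -/
structure AdmZ {k : ℕ} (a : Fin k → ℕ) (b : Fin k → ℤ) : Prop where
  pos : ∀ i, 0 < a i
  inj : ∀ i j, a i = a j → b i = b j → i = j
  adm : ∀ p : ℕ, p.Prime → ∃ v : ℤ, ∀ i, ¬ (p : ℤ) ∣ a i * v + b i

/-- the counting theorem for `k` forms and `r + 1` primes -/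
def FCount (k r : ℕ) : Prop := ∀ (a : Fin k → ℕ) (b : Fin k → ℤ), AdmZ a b →
  ∃ c : ℝ, 0 < c ∧ ∃ N : ℕ, ∀ x : ℕ, N ≤ x → c * x / Real.log x ^ k ≤
    (((Finset.Ioc x (2 * x)).filter (fun n : ℕ =>
      Evt r ((x : ℝ) ^ c) (fun i => (a i : ℤ) * n + b i))).card : ℝ)

namespace Comp

/-- primes beyond a bound, one for each element of a finite set, distinct -/
theorem exists_primes {ι : Type} (G : Finset ι) (B : ℕ) : ∃ q : ι → ℕ, (∀ g ∈ G, (q g).Prime ∧ B < q g) ∧
    ∀ g ∈ G, ∀ g' ∈ G, q g = q g' → g = g' := by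
  induction G using Finset.induction_on generalizing B with
  | empty => exact ⟨fun _ => 0, by simp, by simp⟩
  | insert g G hg ih =>
    obtain ⟨q, hq1, hq2⟩ := ih B
    obtain ⟨p, hp1, hp2⟩ := Nat.exists_infinite_primes (B + 1 + ∑ g ∈ G, q g)
    refine ⟨fun i => if i = g then p else q i, ?_, ?_⟩
    · intro i hi
      by_cases h : i = g
      · simp only [h, if_true]
        exact ⟨hp2, by omega⟩
      · simp only [h, if_false]
        exact hq1 i ((Finset.mem_insert.1 hi).resolve_left h)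
    · intro i hi i' hi' he
      have key : ∀ j ∈ G, q j < p := by
        intro j hj
        have := Finset.single_le_sum (f := fun g => q g) (fun _ _ => Nat.zero_le _) hj
        have h3 : q j ≤ ∑ g ∈ G, q g := this
        omega
      by_cases h : i = g <;> by_cases h' : i' = g
      · rw [h, h']
      · simp only [h, h', if_true, if_false] at he
        have := key i' ((Finset.mem_insert.1 hi').resolve_left h')
        omega
      · simp only [h, h', if_true, if_false] at he
        have := key i ((Finset.mem_insert.1 hi).resolve_left h)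
        omega
      · simp only [h, h', if_false] at he
        exact hq2 i ((Finset.mem_insert.1 hi).resolve_left h) i'
          ((Finset.mem_insert.1 hi').resolve_left h') he

/-- Chinese remainder theorem for the further forms -/
theorem exists_class (G : Finset (ℤ × ℤ)) (q : ℤ × ℤ → ℕ) (hq : ∀ g ∈ G, (q g).Prime)
    (hinj : ∀ g ∈ G, ∀ g' ∈ G, q g = q g' → g = g') (hc : ∀ g ∈ G, ¬ ((q g : ℤ) ∣ g.1)) :
    ∃ v : ℤ, ∀ g ∈ G, (q g : ℤ) ∣ g.1 * v + g.2 := by
  induction G using Finset.induction_on with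
  | empty => exact ⟨0, by simp⟩
  | insert g G hg ih =>
    obtain ⟨v, hv⟩ := ih (fun i hi => hq i (Finset.mem_insert_of_mem hi))
      (fun i hi j hj => hinj i (Finset.mem_insert_of_mem hi) j (Finset.mem_insert_of_mem hj))
      (fun i hi => hc i (Finset.mem_insert_of_mem hi))
    obtain ⟨Q, hQ⟩ : ∃ Q : ℕ, Q = ∏ i ∈ G, q i := ⟨_, rfl⟩
    have hgp := hq g (Finset.mem_insert_self g G)
    have h1 : ¬ (q g ∣ Q) := by
      rw [hQ, hgp.prime.dvd_finsetProd_iff]
      rintro ⟨i, hi, hd⟩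
      have h2 := (Nat.prime_dvd_prime_iff_eq hgp (hq i (Finset.mem_insert_of_mem hi))).1 hd
      have h3 := hinj g (Finset.mem_insert_self g G) i (Finset.mem_insert_of_mem hi) h2
      exact hg (h3 ▸ hi)
    have h2 : ¬ ((q g : ℤ) ∣ g.1 * Q) := by
      intro hd
      rcases (Nat.prime_iff_prime_int.1 hgp).dvd_or_dvd hd with h | h
      · exact hc g (Finset.mem_insert_self g G) h
      · exact h1 (by exact_mod_cast h)
    have h3 : IsCoprime (q g : ℤ) (g.1 * Q) :=
      (Nat.prime_iff_prime_int.1 hgp).irreducible.coprime_iff_not_dvd.2 h2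
    obtain ⟨w, u, huw⟩ := h3
    refine ⟨v + Q * (-(u * (g.1 * v + g.2))), fun i hi => ?_⟩
    rcases Finset.mem_insert.1 hi with rfl | hi
    · have e : i.1 * (v + Q * (-(u * (i.1 * v + i.2)))) + i.2 =
          (q i : ℤ) * (w * (i.1 * v + i.2)) := by
        have : u * (i.1 * Q) = 1 - w * (q i : ℤ) := by linarith
        calc i.1 * (v + Q * (-(u * (i.1 * v + i.2)))) + i.2 =
            (i.1 * v + i.2) * (1 - u * (i.1 * Q)) := by ring
          _ = _ := by rw [this]; ring
      rw [e]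
      exact Dvd.intro _ rfl
    · have e : i.1 * (v + Q * (-(u * (g.1 * v + g.2)))) + i.2 = (i.1 * v + i.2) +
          Q * (i.1 * (-(u * (g.1 * v + g.2)))) := by ring
      rw [e]
      refine dvd_add (hv i hi) (dvd_mul_of_dvd_left ?_ _)
      have : q i ∣ Q := by rw [hQ]; exact Finset.dvd_prod_of_mem _ hi
      exact_mod_cast this

end Comp

/-- the counting theorem with composite values of further forms -/
theorem fcount_comp {k r : ℕ} (H : FCount k r) (a : Fin k → ℕ) (b : Fin k → ℤ) (hA : AdmZ a b)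
    (G : Finset (ℤ × ℤ)) (hG : ∀ g ∈ G, 0 < g.1 ∧ ∀ i, g.1 * b i ≠ a i * g.2) :
    ∃ c : ℝ, 0 < c ∧ ∃ N : ℕ, ∀ x : ℕ, N ≤ x → c * x / Real.log x ^ k ≤
      (((Finset.Ioc x (2 * x)).filter (fun n : ℕ =>
        Evt r ((x : ℝ) ^ c) (fun i => (a i : ℤ) * n + b i) ∧
        ∀ g ∈ G, ¬ Prime (g.1 * n + g.2))).card : ℝ) := by
  -- the primes
  obtain ⟨B, hB⟩ : ∃ B : ℕ, B = ∑ g ∈ G, (g.1.natAbs + ∑ i, (g.1 * b i - a i * g.2).natAbs) :=
    ⟨_, rfl⟩
  obtain ⟨q, hq1, hq2⟩ := Comp.exists_primes G B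
  have hB1 : ∀ g ∈ G, g.1.natAbs < q g ∧ ∀ i, (g.1 * b i - a i * g.2).natAbs < q g := by
    intro g hg
    have e1 : g.1.natAbs + ∑ i, (g.1 * b i - a i * g.2).natAbs ≤ B := by
      rw [hB]
      exact Finset.single_le_sum (f := fun g : ℤ × ℤ => g.1.natAbs +
        ∑ i, (g.1 * b i - a i * g.2).natAbs) (fun _ _ => Nat.zero_le _) hg
    have e2 := (hq1 g hg).2
    refine ⟨by omega, fun i => ?_⟩
    have e3 : (g.1 * b i - a i * g.2).natAbs ≤ ∑ i, (g.1 * b i - a i * g.2).natAbs :=
      Finset.single_le_sum (f := fun i => (g.1 * b i - a i * g.2).natAbs)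
        (fun _ _ => Nat.zero_le _) (Finset.mem_univ i)
    omega
  have hnd : ∀ (m : ℤ) (p : ℕ), m ≠ 0 → m.natAbs < p → ¬ ((p : ℤ) ∣ m) := by
    intro m p hm hlt hd
    have := Int.natAbs_dvd_natAbs.2 hd
    rw [Int.natAbs_natCast] at this
    exact absurd (Nat.le_of_dvd (Int.natAbs_pos.2 hm) this) (not_le.2 hlt)
  have hc1 : ∀ g ∈ G, ¬ ((q g : ℤ) ∣ g.1) := fun g hg => hnd _ _ (hG g hg).1.ne' (hB1 g hg).1
  have hc2 : ∀ g ∈ G, ∀ i, ¬ ((q g : ℤ) ∣ g.1 * b i - a i * g.2) := fun g hg i =>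
    hnd _ _ (sub_ne_zero.2 ((hG g hg).2 i)) ((hB1 g hg).2 i)
  obtain ⟨v0, hv0⟩ := Comp.exists_class G q (fun g hg => (hq1 g hg).1) hq2 hc1
  obtain ⟨Q, hQ⟩ : ∃ Q : ℕ, Q = ∏ g ∈ G, q g := ⟨_, rfl⟩
  have hQ0 : 0 < Q := by
    rw [hQ]
    exact Finset.prod_pos fun g hg => (hq1 g hg).1.pos
  have hqQ : ∀ g ∈ G, q g ∣ Q := fun g hg => by rw [hQ]; exact Finset.dvd_prod_of_mem _ hg
  have hQZ : (Q : ℤ) ≠ 0 := by exact_mod_cast hQ0.ne'
  obtain ⟨v, hv⟩ : ∃ v : ℕ, (v : ℤ) = v0 % Q :=
    ⟨(v0 % Q).toNat, Int.toNat_of_nonneg (Int.emod_nonneg _ hQZ)⟩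
  have hvQ : v < Q := by
    have : v0 % (Q : ℤ) < Q := Int.emod_lt_of_pos _ (by exact_mod_cast hQ0)
    rw [← hv] at this
    exact_mod_cast this
  have hvg : ∀ g ∈ G, (q g : ℤ) ∣ g.1 * v + g.2 := by
    intro g hg
    have e : g.1 * v + g.2 = (g.1 * v0 + g.2) + Q * (-(g.1 * (v0 / Q))) := by
      rw [hv, Int.emod_def]
      ring
    rw [e]
    exact dvd_add (hv0 g hg) (dvd_mul_of_dvd_left (by exact_mod_cast hqQ g hg) _)
  -- the new forms
  have hA' : AdmZ (fun i => a i * Q) (fun i => a i * v + b i) := by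
    refine ⟨fun i => Nat.mul_pos (hA.pos i) hQ0, fun i j h1 h2 => ?_, fun p hp => ?_⟩
    · have h3 : a i = a j := Nat.eq_of_mul_eq_mul_right hQ0 h1
      refine hA.inj i j h3 ?_
      rw [h3] at h2
      exact add_left_cancel h2
    · by_cases hpQ : p ∣ Q
      · rw [hQ, hp.prime.dvd_finsetProd_iff] at hpQ
        obtain ⟨g, hg, hd⟩ := hpQ
        have h1 := (Nat.prime_dvd_prime_iff_eq hp (hq1 g hg).1).1 hd
        refine ⟨0, fun i hd' => ?_⟩
        rw [mul_zero, zero_add, h1] at hd'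
        apply hc2 g hg i
        have e : g.1 * b i - a i * g.2 = g.1 * (a i * v + b i) - a i * (g.1 * v + g.2) := by ring
        rw [e]
        exact dvd_sub (hd'.mul_left _) ((hvg g hg).mul_left _)
      · obtain ⟨u, hu⟩ := hA.adm p hp
        have h1 : ¬ ((p : ℤ) ∣ (Q : ℤ)) := by
          intro h
          exact hpQ (by exact_mod_cast h)
        obtain ⟨s, t, hst⟩ : IsCoprime (p : ℤ) (Q : ℤ) :=
          (Nat.prime_iff_prime_int.1 hp).irreducible.coprime_iff_not_dvd.2 h1
        refine ⟨t * (u - v), fun i hd => hu i ?_⟩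
        have e : (a i : ℤ) * u + b i = (((a i * Q : ℕ) : ℤ) * (t * (u - v)) + (a i * v + b i)) +
            p * (a i * (s * (u - v))) := by
          push_cast
          have : t * (Q : ℤ) = 1 - s * p := by linarith
          calc (a i : ℤ) * u + b i = a i * ((t * Q) * (u - v)) + (a i * v + b i) +
              a i * ((1 - t * Q) * (u - v)) := by ring
            _ = a i * ((t * Q) * (u - v)) + (a i * v + b i) + a i * ((s * p) * (u - v)) := by
                rw [show 1 - t * (Q : ℤ) = s * p by linarith]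
            _ = _ := by ring
        rw [e]
        exact dvd_add hd (Dvd.intro _ rfl)
  obtain ⟨c', hc', N', hN'⟩ := H _ _ hA'
  have hQr : (0 : ℝ) < Q := by exact_mod_cast hQ0
  -- x / log^k x is large
  have hlarge : ∀ᶠ x : ℕ in atTop, 4 * Q / c' ≤ (x : ℝ) / Real.log x ^ k := by
    have h1 : (fun x : ℝ => Real.log x ^ (k : ℝ)) =o[atTop] fun x : ℝ => x ^ (1 : ℝ) :=
      isLittleO_log_rpow_rpow_atTop _ one_pos
    have h2 := h1.bound (show (0 : ℝ) < c' / (4 * Q) by positivity)
    have h3 : ∀ᶠ x : ℝ in atTop, 4 * Q / c' ≤ x / Real.log x ^ k := by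
      filter_upwards [h2, eventually_gt_atTop (1 : ℝ)] with x hx hx1
      have hl : 0 < Real.log x := Real.log_pos hx1
      rw [Real.rpow_natCast, Real.rpow_one, Real.norm_of_nonneg (by positivity),
        Real.norm_of_nonneg (by linarith)] at hx
      rw [le_div_iff₀ (by positivity)]
      calc 4 * Q / c' * Real.log x ^ k ≤ 4 * Q / c' * (c' / (4 * Q) * x) :=
            mul_le_mul_of_nonneg_left hx (by positivity)
        _ = x := by field_simp
    exact tendsto_natCast_atTop_atTop.eventually h3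
  obtain ⟨N1, hN1⟩ := eventually_atTop.1 hlarge
  obtain ⟨c, hcdef⟩ : ∃ c : ℝ, c = min (c' / (4 * Q)) (c' / 2) := ⟨_, rfl⟩
  have hc0 : 0 < c := by rw [hcdef]; exact lt_min (by positivity) (by positivity)
  have hc4 : c ≤ c' / (4 * Q) := by rw [hcdef]; exact min_le_left _ _
  have hc5 : c ≤ c' / 2 := by rw [hcdef]; exact min_le_right _ _
  refine ⟨c, hc0, N1 + Q * (N' + 4) + (2 * Q) ^ 2 + ∑ g ∈ G, (g.2.natAbs + q g), fun x hx => ?_⟩
  have hxN1 : N1 ≤ x := by omega
  have hxQ : Q * (N' + 4) ≤ x := by omega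
  have hxQ2 : (2 * Q) ^ 2 ≤ x := by omega
  have hxg : ∀ g ∈ G, g.2.natAbs + q g ≤ x := by
    intro g hg
    have := Finset.single_le_sum (f := fun g : ℤ × ℤ => g.2.natAbs + q g)
      (fun _ _ => Nat.zero_le _) hg
    have h3 : g.2.natAbs + q g ≤ ∑ g ∈ G, (g.2.natAbs + q g) := this
    omega
  obtain ⟨x', hx'⟩ : ∃ x' : ℕ, x' = x / Q := ⟨_, rfl⟩
  have hx'N : N' + 4 ≤ x' := by
    rw [hx', Nat.le_div_iff_mul_le hQ0]
    linarith [Nat.mul_comm Q (N' + 4)]
  have hlow : x < Q * (x' + 1) := by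
    rw [hx']
    exact Nat.lt_mul_div_succ x hQ0
  have hup : Q * x' ≤ x := by
    rw [hx']
    exact Nat.mul_div_le x Q
  have hcount := hN' x' (by omega)
  -- sizes
  have hx'r : (x : ℝ) / (2 * Q) ≤ x' := by
    have h1 : (x : ℝ) < Q * (x' + 1) := by exact_mod_cast hlow
    have h2 : (1 : ℝ) ≤ x' := by
      have : 1 ≤ x' := by omega
      exact_mod_cast this
    rw [div_le_iff₀ (by positivity)]
    nlinarith
  have hx4 : (4 : ℝ) ≤ x' := by
    have : 4 ≤ x' := by omega
    exact_mod_cast this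
  have hx'x : (x' : ℝ) ≤ x := by
    have : x' ≤ x := by
      rw [hx']
      exact Nat.div_le_self _ _
    exact_mod_cast this
  have hxr0 : (0 : ℝ) < x := by linarith
  have hlog' : 0 < Real.log x' := Real.log_pos (by linarith)
  have hlogle : Real.log x' ≤ Real.log x := Real.log_le_log (by linarith) hx'x
  have hlog : 0 < Real.log x := by linarith
  -- the exponent
  have hexp : (x : ℝ) ^ c ≤ (x' : ℝ) ^ c' := by
    have h1 : Real.sqrt x ≤ x' := by
      refine le_trans ?_ hx'r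
      have h2 : (2 * Q : ℝ) ≤ Real.sqrt x := by
        apply Real.le_sqrt_of_sq_le
        exact_mod_cast hxQ2
      rw [le_div_iff₀ (by positivity)]
      calc Real.sqrt x * (2 * Q) ≤ Real.sqrt x * Real.sqrt x :=
            mul_le_mul_of_nonneg_left h2 (Real.sqrt_nonneg _)
        _ = x := Real.mul_self_sqrt hxr0.le
    calc (x : ℝ) ^ c ≤ (x : ℝ) ^ (c' / 2) :=
          Real.rpow_le_rpow_of_exponent_le (by linarith) hc5
      _ = (Real.sqrt x) ^ c' := by
          rw [Real.sqrt_eq_rpow, ← Real.rpow_mul hxr0.le]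
          congr 1
          ring
      _ ≤ (x' : ℝ) ^ c' := Real.rpow_le_rpow (Real.sqrt_nonneg _) h1 hc'.le
  -- the injection
  have hcard : ((Finset.Ioc x' (2 * x')).filter (fun n : ℕ => Evt r ((x' : ℝ) ^ c')
      (fun i => ((a i * Q : ℕ) : ℤ) * n + (a i * v + b i)))).card ≤
      ((Finset.Ioc x (2 * x)).filter (fun n : ℕ =>
        Evt r ((x : ℝ) ^ c) (fun i => (a i : ℤ) * n + b i) ∧
        ∀ g ∈ G, ¬ Prime (g.1 * n + g.2))).card + 1 := by
    have h1 : ((((Finset.Ioc x' (2 * x')).filter (fun n : ℕ => Evt r ((x' : ℝ) ^ c')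
        (fun i => ((a i * Q : ℕ) : ℤ) * n + (a i * v + b i)))).erase (2 * x')).image
        (fun n => Q * n + v)) ⊆ (Finset.Ioc x (2 * x)).filter (fun n : ℕ =>
        Evt r ((x : ℝ) ^ c) (fun i => (a i : ℤ) * n + b i) ∧
        ∀ g ∈ G, ¬ Prime (g.1 * n + g.2)) := by
      intro m hm
      rw [Finset.mem_image] at hm
      obtain ⟨n, hn, rfl⟩ := hm
      rw [Finset.mem_erase, Finset.mem_filter, Finset.mem_Ioc] at hn
      obtain ⟨hn1, ⟨hn2, hn3⟩, hn4⟩ := hn
      have hval : ∀ i, ((a i * Q : ℕ) : ℤ) * n + (a i * v + b i) =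
          (a i : ℤ) * ((Q * n + v : ℕ) : ℤ) + b i := by
        intro i
        push_cast
        ring
      have hgt : x < Q * n + v := by
        have : Q * (x' + 1) ≤ Q * n := Nat.mul_le_mul_left _ hn2
        omega
      have hle : Q * n + v ≤ 2 * x := by
        have h2 : n + 1 ≤ 2 * x' := by omega
        have h3 : Q * (n + 1) ≤ Q * (2 * x') := Nat.mul_le_mul_left _ h2
        have h4 : Q * (n + 1) = Q * n + Q := by ring
        have h5 : Q * (2 * x') = 2 * (Q * x') := by ring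
        omega
      rw [Finset.mem_filter, Finset.mem_Ioc]
      refine ⟨⟨hgt, hle⟩, ⟨fun i p hp hd => ?_, ?_⟩, fun g hg hpr => ?_⟩
      · refine lt_of_le_of_lt hexp (hn4.1 i p hp ?_)
        show (p : ℤ) ∣ ((a i * Q : ℕ) : ℤ) * n + (a i * v + b i)
        rw [hval i]
        exact hd
      · obtain ⟨I, hI, hI2, hI3⟩ := hn4.2
        refine ⟨I, hI, fun i hi => ?_, fun i hi j hj he => ?_⟩
        · obtain ⟨p, hp, he⟩ := hI2 i hi
          exact ⟨p, hp, (hval i).symm.trans he⟩
        · exact hI3 i hi j hj ((hval i).trans (he.trans (hval j).symm))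
      · have hd : (q g : ℤ) ∣ g.1 * ((Q * n + v : ℕ) : ℤ) + g.2 := by
          have e : g.1 * ((Q * n + v : ℕ) : ℤ) + g.2 = (g.1 * v + g.2) + Q * (g.1 * n) := by
            push_cast
            ring
          rw [e]
          exact dvd_add (hvg g hg) (dvd_mul_of_dvd_left (by exact_mod_cast hqQ g hg) _)
        have hbig : (q g : ℤ) < g.1 * ((Q * n + v : ℕ) : ℤ) + g.2 := by
          have e1 : (1 : ℤ) ≤ g.1 := (hG g hg).1
          have e2 := hxg g hg
          have e3 : ((g.2.natAbs + q g : ℕ) : ℤ) < ((Q * n + v : ℕ) : ℤ) := by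
            have : g.2.natAbs + q g < Q * n + v := by omega
            exact_mod_cast this
          have e4 := neg_abs_le g.2
          push_cast at e3 ⊢
          have e5 : (0 : ℤ) ≤ Q * n + v := by positivity
          have e6 : (Q * n + v : ℤ) ≤ g.1 * (Q * n + v) := le_mul_of_one_le_left e5 e1
          linarith
        have hqp : Prime (q g : ℤ) := Nat.prime_iff_prime_int.1 (hq1 g hg).1
        have hass := (hqp.dvd_prime_iff_associated hpr).1 hd
        have hnat := Int.associated_iff_natAbs.1 hass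
        rw [Int.natAbs_natCast] at hnat
        have : ((g.1 * ((Q * n + v : ℕ) : ℤ) + g.2).natAbs : ℤ) =
            g.1 * ((Q * n + v : ℕ) : ℤ) + g.2 := by
          rw [Int.natCast_natAbs, abs_of_nonneg]
          have : (0 : ℤ) ≤ q g := Int.natCast_nonneg _
          linarith
        rw [← this, ← hnat] at hbig
        exact lt_irrefl _ hbig
    have h2 := Finset.card_le_card h1
    rw [Finset.card_image_of_injective _ (fun n n' hnn => by
      have h3 : Q * n + v = Q * n' + v := hnn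
      exact Nat.eq_of_mul_eq_mul_left hQ0 (Nat.add_right_cancel h3))] at h2
    have h3 := Finset.pred_card_le_card_erase (s := (Finset.Ioc x' (2 * x')).filter
      (fun n : ℕ => Evt r ((x' : ℝ) ^ c')
        (fun i => ((a i * Q : ℕ) : ℤ) * n + (a i * v + b i)))) (a := 2 * x')
    omega
  have hcard' : ((((Finset.Ioc x' (2 * x')).filter (fun n : ℕ => Evt r ((x' : ℝ) ^ c')
      (fun i => ((a i * Q : ℕ) : ℤ) * n + (a i * v + b i)))).card : ℕ) : ℝ) ≤
      (((Finset.Ioc x (2 * x)).filter (fun n : ℕ =>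
        Evt r ((x : ℝ) ^ c) (fun i => (a i : ℤ) * n + b i) ∧
        ∀ g ∈ G, ¬ Prime (g.1 * n + g.2))).card : ℝ) + 1 := by exact_mod_cast hcard
  have hcount' : c' * x' / Real.log x' ^ k ≤ (((Finset.Ioc x (2 * x)).filter (fun n : ℕ =>
        Evt r ((x : ℝ) ^ c) (fun i => (a i : ℤ) * n + b i) ∧
        ∀ g ∈ G, ¬ Prime (g.1 * n + g.2))).card : ℝ) + 1 := hcount.trans hcard'
  have hone : c * x / Real.log x ^ k + 1 ≤ 2 * (c' / (4 * Q)) * (x / Real.log x ^ k) := by
    have h1 := hN1 x hxN1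
    have h2 : 1 ≤ c' / (4 * Q) * (x / Real.log x ^ k) := by
      calc (1 : ℝ) = c' / (4 * Q) * (4 * Q / c') := by field_simp
        _ ≤ _ := mul_le_mul_of_nonneg_left h1 (by positivity)
    have h3 : c * x / Real.log x ^ k ≤ c' / (4 * Q) * (x / Real.log x ^ k) := by
      have : c * (x / Real.log x ^ k) ≤ c' / (4 * Q) * (x / Real.log x ^ k) :=
        mul_le_mul_of_nonneg_right hc4 (by positivity)
      calc c * x / Real.log x ^ k = c * (x / Real.log x ^ k) := by ring
        _ ≤ _ := this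
    linarith
  have hfin2 : 2 * (c' / (4 * Q)) * (x / Real.log x ^ k) ≤ c' * x' / Real.log x' ^ k := by
    have h1 : c' * x / (2 * Q) / Real.log x ^ k ≤ c' * x' / Real.log x' ^ k := by
      have e1 : c' * x / (2 * Q) ≤ c' * x' := by
        have := mul_le_mul_of_nonneg_left hx'r hc'.le
        calc c' * x / (2 * Q) = c' * (x / (2 * Q)) := by ring
          _ ≤ _ := this
      have e2 : Real.log x' ^ k ≤ Real.log x ^ k := pow_le_pow_left₀ hlog'.le hlogle k
      exact div_le_div₀ (by positivity) e1 (by positivity) e2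
    refine le_trans (le_of_eq ?_) h1
    field_simp
    ring
  linarith

end MPb51559.BG.LF
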