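import Pool.Agent.Work.MP_b51559_nt.LF.AP.All

set_option autoImplicit false

/-!
# Block LF/AP: the final theorem for 49 forms, without definitions
-/

namespace MPb51559.BG.LF

open Finset
open scoped Classical

theorem forms49_full (a : Fin 49 → ℕ) (b : Fin 49 → ℤ) (ha : ∀ i, 0 < a i)
    (hab : ∀ i j, a i = a j → b i = b j → i = j)
    (hadm : ∀ p : ℕ, p.Prime → ∃ v : ℤ, ∀ i, ¬ (p : ℤ) ∣ a i * v + b i)
    (G : Finset (ℤ × ℤ)) (hG : ∀ g ∈ G, 0 < g.1 ∧ ∀ i, g.1 * b i ≠ a i * g.2) :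
    ∃ c : ℝ, 0 < c ∧ ∃ N : ℕ, ∀ x : ℕ, N ≤ x → c * x / Real.log x ^ 49 ≤
      Set.ncard {n : ℕ | x < n ∧ n ≤ 2 * x ∧
        (∀ i, ∀ p : ℕ, p.Prime → (p : ℤ) ∣ a i * n + b i → (x : ℝ) ^ c < p) ∧
        (∃ i j : Fin 49, ∃ p q : ℕ, p.Prime ∧ q.Prime ∧ p < q ∧
          (a i : ℤ) * n + b i = p ∧ (a j : ℤ) * n + b j = q) ∧
        ∀ g ∈ G, ¬ Prime (g.1 * (n : ℤ) + g.2)} := by
  obtain ⟨c, hc, N, hN⟩ := fcount_comp fcount49 a b ⟨ha, hab, hadm⟩ G hG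
  refine ⟨c, hc, N, fun x hx => (hN x hx).trans ?_⟩
  have hset : {n : ℕ | x < n ∧ n ≤ 2 * x ∧
        (∀ i, ∀ p : ℕ, p.Prime → (p : ℤ) ∣ a i * n + b i → (x : ℝ) ^ c < p) ∧
        (∃ i j : Fin 49, ∃ p q : ℕ, p.Prime ∧ q.Prime ∧ p < q ∧
          (a i : ℤ) * n + b i = p ∧ (a j : ℤ) * n + b j = q) ∧
        ∀ g ∈ G, ¬ Prime (g.1 * (n : ℤ) + g.2)} =
      (((Finset.Ioc x (2 * x)).filter (fun n : ℕ => (x < n ∧ n ≤ 2 * x ∧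
        (∀ i, ∀ p : ℕ, p.Prime → (p : ℤ) ∣ a i * n + b i → (x : ℝ) ^ c < p) ∧
        (∃ i j : Fin 49, ∃ p q : ℕ, p.Prime ∧ q.Prime ∧ p < q ∧
          (a i : ℤ) * n + b i = p ∧ (a j : ℤ) * n + b j = q) ∧
        ∀ g ∈ G, ¬ Prime (g.1 * (n : ℤ) + g.2)))) : Finset ℕ) := by
    ext n
    rw [Set.mem_setOf_eq, Finset.mem_coe, Finset.mem_filter, Finset.mem_Ioc]
    constructor
    · intro h
      exact ⟨⟨h.1, h.2.1⟩, h⟩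
    · intro h
      exact h.2
  rw [hset, Set.ncard_coe_finset]
  refine Nat.cast_le.2 (Finset.card_le_card fun n hn => ?_)
  rw [Finset.mem_filter] at hn ⊢
  obtain ⟨hn1, ⟨hn2, I, hI, hI2, hI3⟩, hn4⟩ := hn
  refine ⟨hn1, (Finset.mem_Ioc.1 hn1).1, (Finset.mem_Ioc.1 hn1).2, hn2, ?_, hn4⟩
  obtain ⟨i, hi, j, hj, hij⟩ := Finset.one_lt_card.1 hI
  obtain ⟨p, hp, hpe⟩ := hI2 i hi
  obtain ⟨q, hq, hqe⟩ := hI2 j hj
  have hpq : p ≠ q := by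
    intro he
    apply hij
    apply hI3 i hi j hj
    rw [hpe, hqe, he]
  rcases lt_or_gt_of_ne hpq with h | h
  · exact ⟨i, j, p, q, hp, hq, h, hpe, hqe⟩
  · exact ⟨j, i, q, p, hq, hp, h, hqe, hpe⟩

end MPb51559.BG.LF
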