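import Pool.Agent.Work.MP_b51559_nt.LF.AP.Stmts

set_option autoImplicit false

/-!
# LF/AP: the statement A_MS (a Mertens type bound)
-/

namespace MPb51559.BG.LF.I_MS

open Finset Nat

/-- Mertens-type bound. -/
lemma sum_log_div (z : ℕ) (hz : 1 ≤ z) :
    ∑ p ∈ (range (z + 1)).filter Nat.Prime, Real.log p / p ≤ Real.log z + Real.log 4 := by
  have hz0 : (0 : ℝ) < z := by exact_mod_cast hz
  have h1 : ∑ p ∈ (range (z + 1)).filter Nat.Prime, ((z / p : ℕ) : ℝ) * Real.log p ≤ z * Real.log z := by
    have h2 : Real.log (z ! : ℕ) ≤ z * Real.log z := by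
      rw [← Real.log_pow]
      apply Real.log_le_log
      · exact_mod_cast Nat.factorial_pos z
      · exact_mod_cast Nat.factorial_le_pow z
    refine le_trans ?_ h2
    rw [Real.log_nat_eq_sum_factorization, Finsupp.sum]
    have hsub : (z !).factorization.support ⊆ (range (z + 1)).filter Nat.Prime := by
      intro p hp
      rw [Nat.support_factorization, Nat.mem_primeFactors] at hp
      rw [mem_filter, mem_range]
      have := (hp.1.dvd_factorial).1 hp.2.1
      exact ⟨by omega, hp.1⟩
    rw [Finset.sum_subset hsub (by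
      intro p _ hp
      rw [Finsupp.notMem_support_iff] at hp
      rw [hp]; simp)]
    apply Finset.sum_le_sum
    intro p hp
    rw [mem_filter, mem_range] at hp
    have hp1 := hp.2.one_lt
    have h3 : z / p ≤ (z !).factorization p := by
      rw [Nat.factorization_factorial hp.2 (Nat.lt_succ_self (Nat.log p z))]
      have hmem : 1 ∈ Ico 1 (Nat.log p z).succ := by
        rw [mem_Ico]
        have : 0 < Nat.log p z := Nat.log_pos hp1 (by omega)
        omega
      have := Finset.single_le_sum (f := fun i => z / p ^ i) (fun i _ => Nat.zero_le _) hmem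
      simpa using this
    have h4 : 0 ≤ Real.log p := Real.log_natCast_nonneg p
    have h5 : ((z / p : ℕ) : ℝ) ≤ ((z !).factorization p : ℝ) := by exact_mod_cast h3
    exact mul_le_mul_of_nonneg_right h5 h4
  have h2 : ∑ p ∈ (range (z + 1)).filter Nat.Prime, Real.log p ≤ z * Real.log 4 := by
    rw [← Real.log_pow, ← Real.log_prod]
    · apply Real.log_le_log
      · apply Finset.prod_pos
        intro p hp
        rw [mem_filter] at hp
        exact_mod_cast hp.2.pos
      · have h7 := primorial_le_four_pow z
        unfold primorial at h7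
        have h8 : ((∏ p ∈ (range (z + 1)).filter Nat.Prime, p : ℕ) : ℝ) ≤ ((4 ^ z : ℕ) : ℝ) := by
          exact_mod_cast h7
        push_cast at h8
        exact h8
    · intro p hp
      rw [mem_filter] at hp
      exact_mod_cast hp.2.pos.ne'
  have h3 : ∑ p ∈ (range (z + 1)).filter Nat.Prime, (z : ℝ) * (Real.log p / p) ≤
      ∑ p ∈ (range (z + 1)).filter Nat.Prime, (((z / p : ℕ) : ℝ) * Real.log p + Real.log p) := by
    apply Finset.sum_le_sum
    intro p hp
    rw [mem_filter] at hp
    have hp0 : (0 : ℝ) < p := by exact_mod_cast hp.2.pos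
    have h4 : 0 ≤ Real.log p := Real.log_natCast_nonneg p
    have h5 : (z : ℝ) / p ≤ ((z / p : ℕ) : ℝ) + 1 := by
      rw [div_le_iff₀ hp0]
      have h6 : z < (z / p + 1) * p := by
        have := Nat.lt_div_mul_add (a := z) hp.2.pos
        linarith
      have h7 : (z : ℝ) < (((z / p : ℕ) : ℝ) + 1) * p := by exact_mod_cast h6
      exact h7.le
    calc (z : ℝ) * (Real.log p / p) = (z / p) * Real.log p := by ring
      _ ≤ (((z / p : ℕ) : ℝ) + 1) * Real.log p := by gcongr
      _ = _ := by ring
  rw [← Finset.mul_sum, Finset.sum_add_distrib] at h3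
  have h4 : (z : ℝ) * ∑ p ∈ (range (z + 1)).filter Nat.Prime, Real.log p / p ≤
      z * (Real.log z + Real.log 4) := by
    rw [mul_add]
    linarith
  exact le_of_mul_le_mul_left h4 hz0

end MPb51559.BG.LF.I_MS

namespace MPb51559.BG.LF

open Finset Filter Topology MeasureTheory
open scoped Classical

theorem prf_AMS : A_MS := by
  unfold A_MS
  refine ⟨1 + Real.log 4, ?_, ?_⟩
  · have h4 : 0 ≤ Real.log 4 := Real.log_nonneg (by norm_num)
    linarith
  · intro z hz
    have h4 : 0 ≤ Real.log 4 := Real.log_nonneg (by norm_num)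
    have hlz : 0 ≤ Real.log z := Real.log_nonneg hz
    have hfl : 1 ≤ ⌊z⌋₊ := (Nat.one_le_floor_iff z).2 hz
    have h1 := I_MS.sum_log_div ⌊z⌋₊ hfl
    have h2 : Real.log (⌊z⌋₊ : ℝ) ≤ Real.log z := by
      apply Real.log_le_log
      · exact_mod_cast hfl
      · exact Nat.floor_le (by linarith)
    have h3 : Real.log z + Real.log 4 ≤ (1 + Real.log 4) * (Real.log z + 1) := by nlinarith
    have h5 : (∑ p ∈ (range (⌊z⌋₊ + 1)).filter Nat.Prime, Real.log (p : ℝ) / p) ≤
        Real.log (⌊z⌋₊ : ℝ) + Real.log 4 := by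
      refine le_trans (le_of_eq ?_) h1
      apply Finset.sum_congr
      · ext p
        simp only [Finset.mem_filter]
      · intro p _
        rfl
    linarith

end MPb51559.BG.LF
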