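import Pool.Agent.Work.MP_b51559_nt.LF.AP.Stmts
import Pool.Agent.Work.MP_b51559_nt.LF.UPB

set_option autoImplicit false

/-!
# Block LF/AP, item PO: the pointwise part
-/

namespace MPb51559.BG.LF

open Finset Filter Topology MeasureTheory
open scoped Classical

theorem prf_APO : A_PO := by
  intro w hw k h hk hA A hAA
  refine ⟨8 * (∑ i, ((h i).2 : ℝ)) + 8, fun x hx => ?_⟩
  have hH0 : ∀ i, (0 : ℝ) ≤ (h i).2 := fun i => Nat.cast_nonneg _
  have hHs : ∀ i, ((h i).2 : ℝ) ≤ ∑ j, ((h j).2 : ℝ) := fun i =>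
    Finset.single_le_sum (f := fun j => ((h j).2 : ℝ)) (fun j _ => hH0 j) (mem_univ i)
  have hsum0 : 0 ≤ ∑ j, ((h j).2 : ℝ) := sum_nonneg fun j _ => hH0 j
  have hx1 : 1 ≤ x := by linarith
  have hx0 : 0 < x := by linarith
  have hA1 : (1 : ℝ) ≤ A := by
    have := (hA.pos ⟨0, hk⟩).trans_le (hAA ⟨0, hk⟩)
    exact_mod_cast this
  have hlog : 0 ≤ Real.log (2 * A * x) := Real.log_nonneg (by nlinarith)
  have hle : ∀ (m : Fin k) (n : ℕ), tm w h x m n ≤ Real.log (2 * A * x) * wp w h x n :=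
    fun m n => UPB_tm_le w hw h hA A hAA x hx1 m n
  refine ⟨fun m n => ⟨?_, hle m n⟩, ?_⟩
  · unfold tm
    split_ifs with hp
    · exact mul_nonneg (Real.log_nonneg (by exact_mod_cast hp.one_lt.le)) (hw.nonneg _)
    · exact le_rfl
  intro n hlt
  have hwp : ∀ m : Fin k, w ((lf (h m) n : ℝ) / ((h m).1 * x)) ≤ wp w h x n :=
    fun m => UPB_wp_ge w h x n m
  have hwp0 : 0 ≤ wp w h x n := (hw.nonneg _).trans (hwp ⟨0, hk⟩)
  -- what a nonzero term says
  have hterm : ∀ m : Fin k, tm w h x m n ≠ 0 → (lf (h m) n).Prime ∧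
      9 / 8 * ((h m).1 * x) < (lf (h m) n : ℝ) ∧ (lf (h m) n : ℝ) < 15 / 8 * ((h m).1 * x) :=
    fun m hm => RS_tm hw hA x hx1 m n hm
  -- two nonzero terms
  obtain ⟨i, j, hij, hi, hj⟩ : ∃ i j : Fin k, i ≠ j ∧ tm w h x i n ≠ 0 ∧ tm w h x j n ≠ 0 := by
    by_contra hno
    have hno' : ∀ i j : Fin k, i ≠ j → tm w h x i n ≠ 0 → tm w h x j n = 0 := by
      intro i j hij hi
      by_contra hj
      exact hno ⟨i, j, hij, hi, hj⟩
    apply absurd hlt
    rw [not_lt]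
    by_cases hall : ∀ m, tm w h x m n = 0
    · rw [sum_eq_zero fun m _ => hall m]
      exact mul_nonneg hlog hwp0
    · obtain ⟨i, hi⟩ := not_forall.1 hall
      rw [sum_eq_single i (fun j _ hj => hno' i j hj.symm hi) (fun hi' => absurd (mem_univ i) hi')]
      exact hle i n
  obtain ⟨hpi, hi1, hi2⟩ := hterm i hi
  obtain ⟨hpj, hj1, hj2⟩ := hterm j hj
  have ha : (1 : ℝ) ≤ (h i).1 := by exact_mod_cast hA.pos i
  have hlf : (lf (h i) n : ℝ) = (h i).1 * n + (h i).2 := by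
    unfold lf
    push_cast
    ring
  have hbi := hHs i
  have hbi0 := hH0 i
  rw [hlf] at hi1 hi2
  refine ⟨?_, ?_, i, j, hij, hpi, hpj⟩
  · by_contra hc
    have hc' := not_lt.1 hc
    have h7 : ((h i).1 : ℝ) * n ≤ (h i).1 * x := mul_le_mul_of_nonneg_left hc' (by linarith)
    have h8 : x ≤ ((h i).1 : ℝ) * x := by nlinarith
    linarith
  · by_contra hc
    have hc' := not_lt.1 hc
    have h7 : ((h i).1 : ℝ) * (2 * x) ≤ (h i).1 * n := mul_le_mul_of_nonneg_left hc' (by linarith)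
    have h8 : x ≤ ((h i).1 : ℝ) * x := by nlinarith
    linarith

end MPb51559.BG.LF
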