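import Pool.Agent.Work.MP_b51559_nt.LF.Stmts

set_option autoImplicit false

/-!
# Block LF/AP (captain helper41): almost prime companions and the number of pairs

Final aim: for 49 distinct admissible linear forms at least `c x / (log x)^49` of the integers in
`(x, 2x)` have two prime values and ALL values without prime factors up to `x^c`. Everything is on top
of block LF (linear forms) and block BG/C. Every docstring is a complete proof; the statements listed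
under USES may be hypotheses of the theorem (`theorem prf_X (h1 : ..) .. : A_X`). Models: the files
`BG/C/*.lean` and `LF/*.lean`; `BG/C/Util.lean` (namespace `MPb51559.BG.U`) has small lemmas on
`mw`, `Rx`, `lk`, `kl`, `Sx`.
-/

namespace MPb51559.BG.LF

open Finset Filter Topology MeasureTheory
open scoped Classical

section
variable {S : Finset ℕ} {k : ℕ}

/-- the colour of `p` removed -/
noncomputable def er (p : {p // p ∈ S}) (d : Co S k) : Co S k := Function.update d p none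

/-- the colour `i` given to `p` -/
noncomputable def pt (p : {p // p ∈ S}) (i : Fin k) (d : Co S k) : Co S k :=
  Function.update d p (some i)

/-- the weight whose sieve sum is the old one on the `n` with `p ∣ lf (h j) n` and `0` elsewhere -/
noncomputable def lp (p : {p // p ∈ S}) (j : Fin k) (l : Co S k → ℝ) (d : Co S k) : ℝ :=
  if d p = some j then l d + l (er p d) else 0

/-- the difference operator of `lp` on the diagonal variables -/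
noncomputable def dy (p : {p // p ∈ S}) (j : Fin k) (y : Co S k → ℝ) (u : Co S k) : ℝ :=
  y u - y (pt p j u) + (∑ i ∈ univ.erase j, y (pt p i u)) / ((p : ℝ) - 1)

end

/-- the one dimensional weight -/
noncomputable def gk (k n : ℕ) : ℝ :=
  ∏ q ∈ n.primeFactors, (1 + (k : ℝ) / ((q : ℝ) - 1)) / ((q : ℝ) - 1)

/-- a value of a form has a prime factor between `D0` and `x ^ c` -/
def Bad {k : ℕ} (h : Fin k → ℕ × ℕ) (D0 : ℕ) (x c : ℝ) (n : ℕ) : Prop :=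
  ∃ p ∈ Sx D0 x, (p : ℝ) ≤ x ^ c ∧ ∃ j, p ∣ lf (h j) n

/-- SP (EASY). Sum over colourings, split by the colour of `p`: the map `u ↦ pt p i u` is a bijection
from the `u` with `u p = none` to the `u` with `u p = some i` (inverse `er p`). -/
def A_SP : Prop := ∀ (S : Finset ℕ) (k : ℕ) (p : {p // p ∈ S}) (f : Co S k → ℝ),
  ∑ u, f u = ∑ u ∈ univ.filter (fun u : Co S k => u p = none), (f u + ∑ i, f (pt p i u))

/-- VN (EASY-MEDIUM). If `p ∤ lf (h j) n` no colouring with `d p = some j` is adhered to. If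
`p ∣ lf (h j) n`, every adhered colouring has `d p = none` or `d p = some j` (`eq_of_dvd` in LF/Util),
and `er p` is a bijection from the adhered `d` with `d p = some j` to the adhered `d` with
`d p = none` (inverse `pt p j`), so the sum of `l` is the sum of `l d + l (er p d)` over the former. -/
def A_VN : Prop := ∀ (D0 : ℕ) (S : Finset ℕ) (k : ℕ) (h : Fin k → ℕ × ℕ), (∀ p ∈ S, D0 < p) →
  Big h D0 → AdmL h → ∀ (p : {p // p ∈ S}) (j : Fin k) (l : Co S k → ℝ) (n : ℕ),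
  Vn h (lp p j l) n = if (p : ℕ) ∣ lf (h j) n then Vn h l n else 0

/-- YT (MEDIUM). Let `z` be the right hand side (a function of `u`), `a = aP`. By C_INV
(`ytr a (lam a z) = z`) it is enough to show `lam a z = lp p j (lam a y)`. Value at `d`:
(1) `d p = some i`, `i ≠ j`: every `r` with `Le d r` has `r p = some i`, `z r = 0`; right side 0.
(2) `d p = none`: by SP the `r ≥ d` come in groups `r, pt p i r` (`r p = none`; `Le d (pt p i r)` iff
`Le d r`); `z r/mw(a-1) r + z (pt p j r)/mw(a-1)(pt p j r) = dy/p/mw - ((p-1)/p) dy/(mw (p-1)) = 0`,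
the other `i` give 0. So both sides are 0.
(3) `d p = some j`: `Le d r` iff `r = pt p j r'` with `r' = er p r ≥ er p d`. Put
`c = mw(-1)(er p d) * mw a (er p d)`; `mw (-1) d * mw a d = - p c`. So `lam a z d = c * sum over r' ≥ er p d,
r' p = none, of dy p j y r' / mw(a-1) r'`. On the other side `lam a y d = - p c * sum over r' of
y (pt p j r')/((p-1) mw(a-1) r')` and `lam a y (er p d) = c * sum over r' of (y r' + sum_i y(pt p i r')
/(p-1))/mw(a-1) r'`; the sum is `c * sum (y r' - y (pt p j r') + sum_(i ≠ j) y (pt p i r')/(p-1))/mw`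
because `1/(p-1) - p/(p-1) = -1`. USES: C_INV, A_SP. -/
def A_YT : Prop := ∀ (S : Finset ℕ) (k : ℕ), (∀ q ∈ S, 1 < q) → ∀ (p : {p // p ∈ S}) (j : Fin k)
  (y : Co S k → ℝ) (u : Co S k), ytr aP (lp p j (lam aP y)) u =
    if u p = none then dy p j y u / p else
    if u p = some j then -(((p : ℝ) - 1) / p * dy p j y (er p u)) else 0

/-- QB (EASY-MEDIUM). `lp = lam aP (ytr aP lp)` (C_INV). C_QN (a = aP, a - 1 = aF) gives
`Qf ≤ sum over r of z r^2 mw (1 + k/(q-1)) r / mw aF r`, `z = ytr aP lp` (YT). Split by SP: only `u` and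
`pt p j u` contribute: `dy^2 G(u) (1/p^2 + ((p-1)/p)^2 (1 + k/(p-1))/(p-1)) = dy^2 G(u) (p + k)/p^2`,
`G(u) = mw(1 + k/(q-1)) u/mw aF u`, and `(p + k)/p^2 ≤ 2/p`. USES: C_INV, C_QN, A_SP, A_YT. -/
def A_QB : Prop := ∀ (S : Finset ℕ) (k : ℕ), (∀ q ∈ S, 1 < q ∧ k ≤ q) →
  ∀ (p : {p // p ∈ S}) (j : Fin k) (y : Co S k → ℝ),
  Qf aP (lp p j (lam aP y)) (lp p j (lam aP y)) ≤
    2 / (p : ℝ) * ∑ u ∈ univ.filter (fun u : Co S k => u p = none),
      dy p j y u ^ 2 * mw (fun q => 1 + (k : ℝ) / ((q : ℝ) - 1)) u / mw aF u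

/-- V1 (MEDIUM). Shifts of a function of bounded variation. Let `P s` be the variation of `f` on
`(-∞, s]` (`variationOnFromTo` or `(eVariationOn f (Set.Iic s)).toReal`), nondecreasing, with values in
`[0, V]`, and `|f s - f (s + η)| ≤ P (s + η) - P s`. Now `P (t + η) - P t` is the length of
`(P t, P (t+η)]`; sum over `A` and integrate over `c ∈ (0, V]`: for fixed `c` let
`v = sup {s | P s < c}`; if `P (t n) < c ≤ P (t n + η)` then `t n ≤ v ≤ t n + η`, so the sum of `g n` over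
these `n` is at most `B` (for `c` where no such `n` exists it is 0; if one exists then the set is
nonempty and bounded above; `0 ≤ B` from the hypothesis). -/
def A_V1 : Prop := ∀ (A : Finset ℕ) (g t : ℕ → ℝ) (η B : ℝ) (V : NNReal) (f : ℝ → ℝ), 0 ≤ η →
  (∀ n ∈ A, 0 ≤ g n) →
  (∀ v : ℝ, ∑ n ∈ A.filter (fun n => v - η ≤ t n ∧ t n ≤ v), g n ≤ B) →
  eVariationOn f Set.univ ≤ V → ∑ n ∈ A, g n * |f (t n) - f (t n + η)| ≤ B * V

/-- SH (MEDIUM). Short sums of `gk`. For squarefree `n`: `gk k n = (1/n) sum over c | n of rho(c)`,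
`rho(c)` = product over `q | c` of `rho(q) = (q/(q-1))(1 + k/(q-1)) - 1 = ((k+1) q - 1)/(q-1)^2 ≤
4 (k+1)/q`. So the sum is at most `sum over c (divisors of the product of S) of rho(c)/c * sum over m,
e^(v-L)/c ≤ m ≤ e^v/c, of 1/m`, the inner sum is at most `1 + L` (`sum over a ≤ m ≤ b of 1/m ≤ 1/m0 +
log(b/m0)`, `m0 ≥ max(a,1)` the first term), and `sum over c of rho(c)/c = prod over q in S of
(1 + rho(q)/q) ≤ exp(4(k+1) sum 1/q^2) ≤ exp(8(k+1))` (`Finset.prod_one_add` / powerset). -/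
def A_SH : Prop := ∀ k : ℕ, ∃ C : ℝ, 0 < C ∧ ∀ (S : Finset ℕ), (∀ p ∈ S, p.Prime) →
  ∀ (z L v : ℝ), 0 ≤ L →
  ∑ n ∈ (SqF S z).filter (fun n : ℕ => v - L ≤ Real.log n ∧ Real.log n ≤ v), gk k n ≤
    C * (L + 1)

/-- VP (MEDIUM-HARD). The variation sum. Write `R = Rx δ x`, `G u = mw(1 + k/(q-1)) u/mw aF u`.
Only `u` with `yF R F u ≠ 0` or `yF R F (pt p j u) ≠ 0` count; then `nrm u ≤ R^T ≤ sqrt x`. Group by
`r = dl j u` (a colouring without colour `j`, `nrm r ≤ sqrt x`): `u ↦ prt j u ∈ SqF S (sqrt x)` is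
injective on the group, `G u = G r * gk k (prt j u)`, `tv R u = update (tv R r) j (log (prt j u)/log R)`
(second part of C_MSU), and for `u p = none`, `tv R (pt p j u) = update (tv R r) j ((log (prt j u) +
log p)/log R)`. With `f s = F (update (tv R r) j s)` (variation at most `V`, `Tst.bv`) the group sum is at
most `G r * sum over n in SqF S (sqrt x) of gk k n |f(t n) - f(t n + η)|`, `t n = log n/log R`,
`η = log p/log R`, at most `G r * V * C (log p + 1)` by V1 and SH (window `[v-η, v]` for `t n` is the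
window `[v log R - log p, v log R]` for `log n`). The sum of `G r` over `NoC j r`, `nrm r ≤ sqrt x`, is
at most `2 kl^(k-1)`: C_TOT and C_PERT with `c = k`, `ε = 1` (`1 + k/(q-1) ≤ 1 + k/(q-2)`).
USES: C_BAS, C_MSU, C_TOT, C_PERT, A_V1, A_SH. -/
def A_VP : Prop := ∀ (k : ℕ) (T : ℝ) (F : (Fin k → ℝ) → ℝ), 0 < k → 1 < T → T < 2 → Tst k T F →
  ∀ δ : ℝ, 0 < δ → δ < 1 / 8 → ∃ C : ℝ, 0 < C ∧ Ev fun D0 x =>
  ∀ (p : {p // p ∈ Sx D0 x}) (j : Fin k),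
  ∑ u ∈ univ.filter (fun u : Co (Sx D0 x) k => u p = none),
    |yF (Rx δ x) F u - yF (Rx δ x) F (pt p j u)| *
      (mw (fun q => 1 + (k : ℝ) / ((q : ℝ) - 1)) u / mw aF u) ≤
    C * kl D0 x ^ (k - 1) * (Real.log (p : ℝ) + 1)

/-- MS (EASY). Mertens, upper bound: `n sum_(p ≤ n) log p/p ≤ log n! + theta(n) ≤ n log n + n log 4`
(each `p ≤ n` divides `n!` at least `floor(n/p) > n/p - 1` times; `primorial_le_4_pow`, or Chebyshev in
Mathlib), or any lemma of our repository. -/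
def A_MS : Prop := ∃ C : ℝ, 0 < C ∧ ∀ z : ℝ, 1 ≤ z →
  ∑ p ∈ (range (⌊z⌋₊ + 1)).filter Nat.Prime, Real.log (p : ℝ) / p ≤ C * (Real.log z + 1)

/-- E1 (MEDIUM). One prime. L_S1E for the weight `lp p j l`: `S1 ≤ x int w/W * Qf + CE (sum |lp|)^2`,
`sum |lp| ≤ 2 sum |l|` (`er p` is injective on `d p = some j`), `(sum |l|)^2 ≤ x^(2T(1/4-δ)) (log x)^(8k+16)`
(C_L1S as in LF/S1A), at most `x^(1-3δ)/(4 CE + 1)` for `x` large. QB for the form (D0 ≥ k + 3), and with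
`y = yF R F`, `|y| ≤ M`: `dy^2 ≤ 2 (y u - y (pt p j u))^2 + 2 (k M/(p-1))^2 * [nrm u ≤ sqrt x]`,
`(y u - y')^2 ≤ 2 M |y u - y'|`: VP for the first part; for the second `sum of G u over nrm u ≤ sqrt x`
is at most `2 kl^k` (C_TOT, C_PERT, ε = 1). `log p + 1 ≤ 3 log p`, `(p-1)^2 ≥ p^2/4`.
USES: C_BAS, C_L1S, C_TOT, C_PERT, L_S1E, A_QB, A_VP. -/
def A_E1 : Prop := ∀ w, Wt w → ∀ (k : ℕ) (h : Fin k → ℕ × ℕ), 0 < k → AdmL h →
  ∀ (T : ℝ) (F : (Fin k → ℝ) → ℝ), 1 < T → T < 2 → Tst k T F → ∀ δ : ℝ, 0 < δ → δ < 1 / 8 →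
  ∃ C : ℝ, 0 < C ∧ Ev fun D0 x => ∀ v0 : ℕ, (∀ i, (lf (h i) v0).Coprime (primorial D0)) →
  ∀ (p : {p // p ∈ Sx D0 x}) (j : Fin k) (l : Co (Sx D0 x) k → ℝ),
  l = lam aP (yF (Rx δ x) F) → S1 w h D0 v0 x (lp p j l) (lp p j l) ≤
    C * (x / (primorial D0 : ℝ)) * (kl D0 x ^ (k - 1) * (Real.log (p : ℝ) / p) +
      kl D0 x ^ k / (p : ℝ) ^ 3) + x ^ (1 - 3 * δ)

/-- E2 (MEDIUM). Sum of E1 over `p ≤ x^c`, `c ≤ δ`, and `j`. With MS: `sum log p/p ≤ C' (c log x + 1)`;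
`sum over p > D0 of 1/p^3 ≤ 1/D0`; number of primes at most `x^c`. As `kl = kap log x`:
`kl^(k-1) (c log x + 1) = kl^k (c + 1/log x)/kap`; `Nn/log R = x int w/W lk^k`, `lk ≥ kl/8`
(`U.kl_le`). So the sum times `log R` is at most `Nn * (8^k k/int w) * (C C' (c + 1/log x)/kap + C/D0 +
W x^(-2δ)/kl^k)`: choose `D0 ≥ D1` so that the middle part is at most `ε/3`, then `c` (depending on
`kap D0`), then `x`. USES: A_MS, A_E1. -/
def A_E2 : Prop := ∀ w, Wt w → ∀ (k : ℕ) (h : Fin k → ℕ × ℕ), 0 < k → AdmL h →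
  ∀ (T : ℝ) (F : (Fin k → ℝ) → ℝ), 1 < T → T < 2 → Tst k T F → ∀ δ : ℝ, 0 < δ → δ < 1 / 8 →
  ∀ ε : ℝ, 0 < ε → ∃ D1 : ℕ, ∀ D0 ≥ D1, ∃ c : ℝ, 0 < c ∧ c ≤ δ ∧ ∃ x0 : ℝ, ∀ x ≥ x0,
  ∀ v0 : ℕ, (∀ i, (lf (h i) v0).Coprime (primorial D0)) → ∀ l : Co (Sx D0 x) k → ℝ,
  l = lam aP (yF (Rx δ x) F) →
  (∑ p ∈ univ.filter (fun p : {p // p ∈ Sx D0 x} => (p : ℝ) ≤ x ^ c), ∑ j,
    S1 w h D0 v0 x (lp p j l) (lp p j l)) * Real.log (Rx δ x) ≤ ε * Nn w k D0 δ x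

/-- BD (EASY). Union bound: for bad `n` some pair `(p, j)` has `p ≤ x^c`, `p ∣ lf (h j) n`, and there
`Vn h (lp p j l) n = Vn h l n` (VN); all terms are nonnegative (`wp ≥ 0` as a supremum of nonnegative
numbers, squares). USES: A_VN. -/
def A_BD : Prop := ∀ w, Wt w → ∀ (k : ℕ) (h : Fin k → ℕ × ℕ), AdmL h → ∀ D0 : ℕ, Big h D0 →
  ∀ (v0 : ℕ) (x c : ℝ) (l : Co (Sx D0 x) k → ℝ),
  ∑ n ∈ ((range (⌊2 * x⌋₊ + 1)).filter (fun n => n ≡ v0 [MOD primorial D0])).filter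
    (Bad h D0 x c), wp w h x n * (Vn h l n * Vn h l n) ≤
  ∑ p ∈ univ.filter (fun p : {p // p ∈ Sx D0 x} => (p : ℝ) ≤ x ^ c), ∑ j,
    S1 w h D0 v0 x (lp p j l) (lp p j l)

/-- LM (EASY-MEDIUM). Sharp bound for the sieve weights (as C_SZ, with C_TOT for the last sum): the `r`
with `Le d r` are `r = d` joined with `v` (colours of `r` on the support of `d` removed), `mw (a-1) r =
mw (a-1) d * mw (a-1) v`, `nrm v ≤ nrm r ≤ sqrt x`, `mw a d/mw (a-1) d ≤ mw 2 d`. USES: C_BAS, C_TOT. -/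
def A_LM : Prop := ∀ k D0 : ℕ, 2 ≤ D0 → ∃ x0 : ℝ, ∀ x ≥ x0, ∀ (y : Co (Sx D0 x) k → ℝ) (M : ℝ),
  0 ≤ M → (∀ r, |y r| ≤ M) → (∀ r, y r ≠ 0 → (nrm r : ℝ) ≤ Real.sqrt x) →
  ∀ d, |lam aP y d| ≤ M * kl D0 x ^ k * mw (fun _ => (2 : ℝ)) d

/-- VB (MEDIUM). The sieve sum at a good `n`. Let `U` be the set of `p ∈ Sx D0 x` dividing some
`lf (h j) n`; all are `> x^c`. `lf (h j) n ≤ x^2` for `x ≥ x0` and is positive, so each `lf (h j) n` has at
most `2/c` prime divisors in `U` (their product divides it): `|U| ≤ 2k/c`. An adhered colouring is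
determined by its set of coloured primes, a subset of `U` (a prime `> D0` divides at most one value,
`eq_of_dvd`), so there are at most `2^|U|`, and `mw 2 d ≤ 2^|U|`. Take `K = 4^(2k/c)` (real power, or
`4^ceil`). -/
def A_VB : Prop := ∀ (k : ℕ) (h : Fin k → ℕ × ℕ), AdmL h → ∀ c : ℝ, 0 < c →
  ∃ K x0 : ℝ, 0 < K ∧ ∀ x ≥ x0, ∀ D0 : ℕ, Big h D0 → ∀ (l : Co (Sx D0 x) k → ℝ) (M : ℝ), 0 ≤ M →
  (∀ d, |l d| ≤ M * mw (fun _ => (2 : ℝ)) d) → ∀ n : ℕ, 0 < n → (n : ℝ) ≤ 2 * x →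
  ¬ Bad h D0 x c n → |Vn h l n| ≤ K * M

/-- MN (EASY-MEDIUM). As LF/MAIN with a margin. There `A = 4 (I + g/32)`, `Bv = J - g/4`,
`A/(1-4δ) < Bv`; `log(2 AA x)/log R → 4/(1-4δ)`, so with `c1 = (Bv - A/(1-4δ))/2` we have
`log(2 AA x) (I + g/32) + c1 log R ≤ Bv log R` for `x` large. (Here the natural number is called `A`.) -/
def A_MN : Prop := ∀ w, Wt w → ∀ (k : ℕ) (h : Fin k → ℕ × ℕ), 0 < k → AdmL h →
  ∀ (P : Sl) (F : (Fin k → ℝ) → ℝ), P.Ok → Tst k P.T F → Crit P F → S1Concl w h F →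
  S2Concl w h P F → ∀ A : ℕ, (∀ i, (h i).1 ≤ A) →
  ∃ δ c1 : ℝ, 0 < δ ∧ δ < 1 / 8 ∧ 0 < c1 ∧ Ev fun D0 x =>
  ∀ v0 : ℕ, (∀ i, (lf (h i) v0).Coprime (primorial D0)) → ∀ l : Co (Sx D0 x) k → ℝ,
  l = lam aP (yF (Rx δ x) F) →
  Real.log (2 * A * x) * S1 w h D0 v0 x l l + c1 * Nn w k D0 δ x ≤ ∑ m, S2 w h D0 v0 x m l l

/-- PO (EASY). The pointwise part of LF/POS. -/
def A_PO : Prop := ∀ w, Wt w → ∀ (k : ℕ) (h : Fin k → ℕ × ℕ), 0 < k → AdmL h →
  ∀ A : ℕ, (∀ i, (h i).1 ≤ A) → ∃ x0 : ℝ, ∀ x ≥ x0,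
  (∀ (m : Fin k) (n : ℕ), 0 ≤ tm w h x m n ∧ tm w h x m n ≤ Real.log (2 * A * x) * wp w h x n) ∧
  ∀ n : ℕ, Real.log (2 * A * x) * wp w h x n < ∑ m, tm w h x m n →
  x < n ∧ (n : ℝ) < 2 * x ∧ ∃ i j : Fin k, i ≠ j ∧ (lf (h i) n).Prime ∧ (lf (h j) n).Prime

/-- F1 (EASY-MEDIUM). Remove the bad `n`. Take `δ, c1` from MN, `D0` large (MN, E2 with `ε = c1/(32 k)`,
`Big h D0`, `D0 ≥ 3`), `c` from E2. For `x` large, with `L = log(2 A x)`, `f n = sum_m tm m n - L wp n`: the sum of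
`f n Vn^2` over all `n` is at least `c1 Nn` (MN), over the bad `n` at most `sum of (sum_m tm) Vn^2 ≤
k L sum wp Vn^2 ≤ k L (ε Nn)/log R` (PO, BD, E2), and `L ≤ 16 log R` for `x` large (`log R =
(1/4 - δ) log x ≥ log x/8`, `L ≤ 2 log x`). So the good `n` give at least `c1/2 Nn`.
USES: A_MN, A_E2, A_BD, A_PO. -/
def A_F1 : Prop := ∀ w, Wt w → ∀ (k : ℕ) (h : Fin k → ℕ × ℕ), 0 < k → AdmL h →
  ∀ (P : Sl) (F : (Fin k → ℝ) → ℝ), P.Ok → Tst k P.T F → Crit P F → S1Concl w h F →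
  S2Concl w h P F → ∀ A : ℕ, (∀ i, (h i).1 ≤ A) →
  ∃ (D0 : ℕ) (δ c c1 : ℝ), 3 ≤ D0 ∧ Big h D0 ∧ 0 < δ ∧ δ < 1 / 8 ∧ 0 < c ∧ c < 1 ∧ 0 < c1 ∧
  ∃ x0 : ℝ, ∀ x ≥ x0, ∀ v0 : ℕ, (∀ i, (lf (h i) v0).Coprime (primorial D0)) →
  ∀ l : Co (Sx D0 x) k → ℝ, l = lam aP (yF (Rx δ x) F) →
  c1 * Nn w k D0 δ x ≤
    ∑ n ∈ ((range (⌊2 * x⌋₊ + 1)).filter (fun n => n ≡ v0 [MOD primorial D0])).filter
      (fun n => ¬ Bad h D0 x c n),
      ((∑ m, tm w h x m n) - Real.log (2 * A * x) * wp w h x n) * (Vn h l n * Vn h l n)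

/-- the final counting statement -/
def CountL {k : ℕ} (h : Fin k → ℕ × ℕ) : Prop := ∃ c : ℝ, 0 < c ∧ ∃ x0 : ℝ, ∀ x ≥ x0,
  c * x / Real.log x ^ k ≤ (((range (⌊2 * x⌋₊ + 1)).filter (fun n : ℕ => x < n ∧ (n : ℝ) < 2 * x ∧
    (∀ i, ∀ p : ℕ, p.Prime → p ∣ lf (h i) n → x ^ c < p) ∧
    ∃ i j : Fin k, i ≠ j ∧ (lf (h i) n).Prime ∧ (lf (h j) n).Prime)).card : ℝ)

/-- F2 (MEDIUM). Count. Choose `A` = sum of the `(h i).1`, `v0` by L_V0. In the sum of F1 only `n` in the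
counted set `G` have a positive term (PO: two primes and `x < n < 2x`; a prime `p ∣ lf (h i) n` with
`p ≤ x^c` would be `≤ D0`, so divide `primorial D0`, but `lf (h i) n ≡ lf (h i) v0` modulo `primorial D0` is
coprime to it; or in `Sx D0 x` (`x^c < floor x`), so `n` would be bad). For `n ∈ G` the term is at most
`k L B K^2 (M kl^k)^2` with `B` a bound of `w` (`w` is continuous with compact support; `wp ≤ B`,
`tm ≤ L wp`), VB, LM (`|yF| ≤ M`, support `nrm ≤ R^T ≤ sqrt x`). As `Nn ≥ c2 x (log x)^(k+1)` (`c2 > 0`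
depends on `D0, δ, w`), `kl ≤ log x`, `L ≤ 2 log x`: `|G| ≥ c3 x/(log x)^k`. Take `min c c3`
(decreasing the exponent is harmless, `x ≥ 1`). USES: L_V0, C_BAS, A_F1, A_PO, A_LM, A_VB. -/
def A_F2 : Prop := ∀ w, Wt w → ∀ (k : ℕ) (h : Fin k → ℕ × ℕ), 0 < k → AdmL h →
  ∀ (P : Sl) (F : (Fin k → ℝ) → ℝ), P.Ok → Tst k P.T F → Crit P F → S1Concl w h F →
  S2Concl w h P F → CountL h

/-- IN (EASY-MEDIUM). From natural to integral constant terms, as LF/INT (apply the hypothesis at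
`x - M`, `n = n' + M`; the number of `n` does not change under the shift; halve the constant: for `x` large
`c (x - M)/log^k(x - M) ≥ (c/2) x/log^k x` and `(x - M)^c ≥ x^(c/2)`). -/
def A_IN : Prop := ∀ k : ℕ, 0 < k → (∀ h : Fin k → ℕ × ℕ, AdmL h → CountL h) →
  ∀ (a : Fin k → ℕ) (b : Fin k → ℤ), (∀ i, 0 < a i) → (∀ i j, a i = a j → b i = b j → i = j) →
  (∀ p : ℕ, p.Prime → ∃ v : ℤ, ∀ i, ¬ (p : ℤ) ∣ a i * v + b i) →
  ∃ c : ℝ, 0 < c ∧ ∃ N : ℕ, ∀ x : ℕ, N ≤ x → c * x / Real.log x ^ k ≤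
    (((Finset.Ioc x (2 * x)).filter (fun n : ℕ =>
      (∀ i, ∀ p : ℕ, p.Prime → (p : ℤ) ∣ a i * n + b i → (x : ℝ) ^ c < p) ∧
      ∃ i j : Fin k, i ≠ j ∧ ∃ p q : ℕ, p.Prime ∧ q.Prime ∧ p ≠ q ∧
        (a i : ℤ) * n + b i = p ∧ (a j : ℤ) * n + b j = q)).card : ℝ)

end MPb51559.BG.LF
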